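import Mathlib

/-!
# Parallel rewriting with tables: decomposition of derivations
-/

set_option autoImplicit false

namespace Pool.Agent.Q314.ET

variable {ι V : Type}

/-- One parallel step with table `i`. -/
def St (P : ι → V → List V → Prop) (i : ι) (u v : List V) : Prop :=
  ∃ ys : List (List V), List.Forall₂ (P i) u ys ∧ v = ys.flatten

/-- Derivation along a sequence of tables. -/
def DL (P : ι → V → List V → Prop) : List ι → List V → List V → Prop
  | [], u, v => u = v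
  | i :: τ, u, v => ∃ x, St P i u x ∧ DL P τ x v

variable {P : ι → V → List V → Prop}

theorem St.nil (i : ι) : St P i [] [] := ⟨[], List.Forall₂.nil, rfl⟩

theorem St.nil_inv {i : ι} {v : List V} (h : St P i [] v) : v = [] := by
  obtain ⟨ys, h1, rfl⟩ := h
  cases h1
  rfl

theorem St.append {i : ι} {u v x y : List V} (h : St P i u x) (h' : St P i v y) :
    St P i (u ++ v) (x ++ y) := by
  obtain ⟨ys, h1, rfl⟩ := h
  obtain ⟨zs, h2, rfl⟩ := h'
  exact ⟨ys ++ zs, List.rel_append h1 h2, by simp⟩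

theorem St.append_inv {i : ι} {u v z : List V} (h : St P i (u ++ v) z) :
    ∃ x y, z = x ++ y ∧ St P i u x ∧ St P i v y := by
  induction u generalizing z with
  | nil => exact ⟨[], z, rfl, St.nil i, h⟩
  | cons a u ih =>
    obtain ⟨ys, h1, rfl⟩ := h
    cases h1 with
    | cons ha hu =>
      rename_i y ys
      obtain ⟨x', y', e, hx, hy⟩ := ih ⟨ys, hu, rfl⟩
      obtain ⟨xs, hxs, rfl⟩ := hx
      exact ⟨y ++ xs.flatten, y', by simp [e], ⟨y :: xs, List.Forall₂.cons ha hxs, rfl⟩, hy⟩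

theorem DL.nil (τ : List ι) : DL P τ [] [] := by
  induction τ with
  | nil => rfl
  | cons i τ ih => exact ⟨[], St.nil i, ih⟩

theorem DL.nil_inv {τ : List ι} {v : List V} (h : DL P τ [] v) : v = [] := by
  induction τ with
  | nil => exact h.symm
  | cons i τ ih =>
    obtain ⟨x, hx, h⟩ := h
    rw [hx.nil_inv] at h
    exact ih h

theorem DL.append {τ : List ι} {u v x y : List V} (h : DL P τ u x) (h' : DL P τ v y) :
    DL P τ (u ++ v) (x ++ y) := by
  induction τ generalizing u v with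
  | nil =>
    have h1 : u = x := h
    have h2 : v = y := h'
    rw [h1, h2]
    rfl
  | cons i τ ih =>
    obtain ⟨u', hu, h⟩ := h
    obtain ⟨v', hv, h'⟩ := h'
    exact ⟨u' ++ v', hu.append hv, ih h h'⟩

theorem DL.append_inv {τ : List ι} {u v z : List V} (h : DL P τ (u ++ v) z) :
    ∃ x y, z = x ++ y ∧ DL P τ u x ∧ DL P τ v y := by
  induction τ generalizing u v with
  | nil =>
    have h1 : u ++ v = z := h
    exact ⟨u, v, h1.symm, rfl, rfl⟩
  | cons i τ ih =>
    obtain ⟨w, hw, h⟩ := h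
    obtain ⟨u', v', rfl, hu, hv⟩ := hw.append_inv
    obtain ⟨x, y, e, hx, hy⟩ := ih h
    exact ⟨x, y, e, ⟨u', hu, hx⟩, ⟨v', hv, hy⟩⟩

theorem DL.comp {σ τ : List ι} {u v w : List V} (h : DL P σ u v) (h' : DL P τ v w) :
    DL P (σ ++ τ) u w := by
  induction σ generalizing u with
  | nil =>
    have h1 : u = v := h
    rw [h1]
    exact h'
  | cons i σ ih =>
    obtain ⟨x, hx, h⟩ := h
    exact ⟨x, hx, ih h⟩

theorem DL.comp_inv {σ τ : List ι} {u w : List V} (h : DL P (σ ++ τ) u w) :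
    ∃ v, DL P σ u v ∧ DL P τ v w := by
  induction σ generalizing u with
  | nil => exact ⟨u, rfl, h⟩
  | cons i σ ih =>
    obtain ⟨x, hx, h⟩ := h
    obtain ⟨v, h1, h2⟩ := ih h
    exact ⟨v, ⟨x, hx, h1⟩, h2⟩

theorem DL.flatMap {τ : List ι} {u : List V} {f : V → List V}
    (h : ∀ X ∈ u, DL P τ [X] (f X)) : DL P τ u (u.flatMap f) := by
  induction u with
  | nil => exact DL.nil τ
  | cons a u ih =>
    have h1 := h a List.mem_cons_self
    have h2 := ih (fun X hX => h X (List.mem_cons_of_mem _ hX))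
    exact h1.append h2

/-! ### Occurrences in the derivations of a word -/

/-- `X` occurs at the time given by the suffix `τ'` of the table sequence `τ` in some derivation of
`W` from `ω` along `τ`, with yield `Y`. -/
def Occ (P : ι → V → List V → Prop) (ω : List V) (τ : List ι) (W : List V) (τ' : List ι) (X : V)
    (Y : List V) : Prop :=
  ∃ (σ : List ι) (p q A B : List V), τ = σ ++ τ' ∧ DL P σ ω (p ++ X :: q) ∧ DL P τ' p A ∧
    DL P τ' q B ∧ DL P τ' [X] Y ∧ W = A ++ Y ++ B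

/-- From `X` with yield `Y` at time `τ₁` one gets to the occurrence `X'` with yield `Y'` at the
later time `τ₂`. -/
def Desc (P : ι → V → List V → Prop) (s t : List ι × V × List V) : Prop :=
  ∃ (σ : List ι) (p q A B : List V), s.1 = σ ++ t.1 ∧ DL P σ [s.2.1] (p ++ t.2.1 :: q) ∧
    DL P t.1 p A ∧ DL P t.1 q B ∧ DL P t.1 [t.2.1] t.2.2 ∧ s.2.2 = A ++ t.2.2 ++ B

theorem DL.cons_inv {τ : List ι} {X : V} {u z : List V} (h : DL P τ (X :: u) z) :
    ∃ x y, z = x ++ y ∧ DL P τ [X] x ∧ DL P τ u y :=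
  DL.append_inv (u := [X]) (v := u) h

theorem DL.cons {τ : List ι} {X : V} {u x y : List V} (h : DL P τ [X] x) (h' : DL P τ u y) :
    DL P τ (X :: u) (x ++ y) := DL.append (u := [X]) h h'

theorem Desc.trans {s t r : List ι × V × List V} (h : Desc P s t) (h' : Desc P t r) :
    Desc P s r := by
  obtain ⟨σ, p, q, A, B, e1, h1, h2, h3, h4, e2⟩ := h
  obtain ⟨σ', p', q', A', B', e1', h1', h2', h3', h4', e2'⟩ := h'
  rw [e1'] at h2 h3
  obtain ⟨p2, hp1, hp2⟩ := h2.comp_inv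
  obtain ⟨q2, hq1, hq2⟩ := h3.comp_inv
  refine ⟨σ ++ σ', p2 ++ p', q' ++ q2, A ++ A', B' ++ B, ?_, ?_, hp2.append h2', h3'.append hq2,
    h4', ?_⟩
  · rw [e1, e1', List.append_assoc]
  · have := h1.comp (hp1.append (DL.cons h1' hq1))
    simpa [List.append_assoc] using this
  · rw [e2, e2']
    simp [List.append_assoc]

theorem Occ.desc {ω : List V} {τ : List ι} {W : List V} {s t : List ι × V × List V}
    (h : Occ P ω τ W s.1 s.2.1 s.2.2) (h' : Desc P s t) : Occ P ω τ W t.1 t.2.1 t.2.2 := by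
  obtain ⟨σ, p, q, A, B, e1, h1, h2, h3, h4, e2⟩ := h
  obtain ⟨σ', p', q', A', B', e1', h1', h2', h3', h4', e2'⟩ := h'
  rw [e1'] at h2 h3
  obtain ⟨p2, hp1, hp2⟩ := h2.comp_inv
  obtain ⟨q2, hq1, hq2⟩ := h3.comp_inv
  refine ⟨σ ++ σ', p2 ++ p', q' ++ q2, A ++ A', B' ++ B, ?_, ?_, hp2.append h2', h3'.append hq2,
    h4', ?_⟩
  · rw [e1, e1', List.append_assoc]
  · have := h1.comp (hp1.append (DL.cons h1' hq1))
    simpa [List.append_assoc] using this
  · rw [e2, e2']
    simp [List.append_assoc]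

/-- splitting a yield along a symbol -/
theorem DL.split {τ : List ι} {p q z : List V} {X : V} (h : DL P τ (p ++ X :: q) z) :
    ∃ A Y B, z = A ++ Y ++ B ∧ DL P τ p A ∧ DL P τ [X] Y ∧ DL P τ q B := by
  obtain ⟨A, C, rfl, hA, hC⟩ := h.append_inv
  obtain ⟨Y, B, rfl, hY, hB⟩ := hC.cons_inv
  exact ⟨A, Y, B, by simp, hA, hY, hB⟩

theorem Occ.dl {ω : List V} {τ : List ι} {W : List V} {τ' : List ι} {X : V} {Y : List V}
    (h : Occ P ω τ W τ' X Y) : DL P τ' [X] Y := by
  obtain ⟨σ, p, q, A, B, e1, h1, h2, h3, h4, e2⟩ := h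
  exact h4

variable [DecidableEq V]

/-- A symbol in a word of bounded length with a large yield. -/
theorem heavy {τ : List ι} (c : V) : ∀ (x Y : List V), DL P τ x Y → x ≠ [] →
    ∃ p X q A Z B, x = p ++ X :: q ∧ DL P τ p A ∧ DL P τ [X] Z ∧ DL P τ q B ∧ Y = A ++ Z ++ B ∧
      Y.count c ≤ x.length * Z.count c := by
  intro x
  induction x with
  | nil => intro Y _ h; exact absurd rfl h
  | cons X x ih =>
    intro Y h _
    obtain ⟨Z, B, rfl, hZ, hB⟩ := h.cons_inv
    by_cases hx : x = []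
    · subst hx
      refine ⟨[], X, [], [], Z, B, rfl, DL.nil τ, hZ, hB, by simp, ?_⟩
      rw [hB.nil_inv]
      simp
    · obtain ⟨p, X', q, A, Z', B', e1, h1, h2, h3, e2, h4⟩ := ih B hB hx
      by_cases hc : Z'.count c ≤ Z.count c
      · refine ⟨[], X, x, [], Z, B, rfl, DL.nil τ, hZ, hB, by simp, ?_⟩
        rw [List.count_append, List.length_cons, Nat.add_mul, Nat.one_mul]
        have := Nat.mul_le_mul_left x.length hc
        omega
      · refine ⟨X :: p, X', q, Z ++ A, Z', B', by simp [e1], DL.cons hZ h1, h2, h3, by simp [e2],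
          ?_⟩
        rw [List.count_append, List.length_cons, Nat.add_mul, Nat.one_mul]
        omega

/-- The number of letters `c` drops, by a bounded factor. -/
theorem drop {D : ℕ} (hD : ∀ i X y, P i X y → y.length ≤ D) (c : V) :
    ∀ (τ : List ι) (X : V) (Y : List V), DL P τ [X] Y → 2 ≤ Y.count c →
      ∃ t, Desc P (τ, X, Y) t ∧ t.2.2.count c < Y.count c ∧ Y.count c ≤ D * t.2.2.count c := by
  intro τ
  induction τ with
  | nil =>
    intro X Y h h2
    have h' : [X] = Y := h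
    subst h'
    have := List.count_le_length (a := c) (l := [X])
    simp at this
    omega
  | cons i τ ih =>
    intro X Y h h2
    obtain ⟨x, hx, h⟩ := h
    have hlen : x.length ≤ D := by
      obtain ⟨ys, h1, rfl⟩ := hx
      cases h1 with
      | cons ha hb =>
        cases hb
        simpa using hD _ _ _ ha
    have hne : x ≠ [] := by
      rintro rfl
      rw [h.nil_inv] at h2
      simp at h2
    obtain ⟨p, Z, q, A, Y', B, e1, h3, h4, h5, e2, h6⟩ := heavy c x Y h hne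
    have hds : Desc P (i :: τ, X, Y) (τ, Z, Y') :=
      ⟨[i], p, q, A, B, rfl, ⟨x, hx, by rw [← e1]; rfl⟩, h3, h5, h4, e2⟩
    by_cases hlt : Y'.count c < Y.count c
    · exact ⟨(τ, Z, Y'), hds, hlt, h6.trans (Nat.mul_le_mul_right _ hlen)⟩
    · have hle : Y'.count c ≤ Y.count c := by
        rw [e2, List.count_append, List.count_append]
        omega
      have heq : Y'.count c = Y.count c := by omega
      obtain ⟨t, ht1, ht2, ht3⟩ := ih Z Y' h4 (by omega)
      exact ⟨t, hds.trans ht1, by omega, by omega⟩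

/-- a long chain of drops -/
theorem chain {D : ℕ} (hD : ∀ i X y, P i X y → y.length ≤ D) (c : V) :
    ∀ (k : ℕ) (s : List ι × V × List V), DL P s.1 [s.2.1] s.2.2 →
      2 * D ^ k ≤ s.2.2.count c → 1 ≤ D →
      ∃ f : ℕ → List ι × V × List V, f 0 = s ∧ ∀ i < k, Desc P (f i) (f (i + 1)) ∧
        (f (i + 1)).2.2.count c < (f i).2.2.count c ∧ 2 ≤ (f (i + 1)).2.2.count c := by
  intro k
  induction k with
  | zero => intro s _ _ _; exact ⟨fun _ => s, rfl, fun i hi => absurd hi (by omega)⟩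
  | succ k ih =>
    intro s hs hc h1
    have hDk : 1 ≤ D ^ k := Nat.one_le_pow _ _ h1
    have hDk1 : 1 ≤ D ^ (k + 1) := Nat.one_le_pow _ _ h1
    obtain ⟨t, ht1, ht2, ht3⟩ := drop hD c s.1 s.2.1 s.2.2 hs (by omega)
    have hc' : 2 * D ^ k ≤ t.2.2.count c := by
      have h2 : D * (2 * D ^ k) ≤ D * t.2.2.count c := by
        calc D * (2 * D ^ k) = 2 * D ^ (k + 1) := by ring
          _ ≤ _ := hc.trans ht3
      exact Nat.le_of_mul_le_mul_left h2 h1
    have hdt : DL P t.1 [t.2.1] t.2.2 := by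
      obtain ⟨σ, p, q, A, B, e1, h1, h2, h3, h4, e2⟩ := ht1
      exact h4
    obtain ⟨f, hf0, hf⟩ := ih t hdt hc' h1
    refine ⟨fun n => if n = 0 then s else f (n - 1), rfl, ?_⟩
    intro i hi
    cases i with
    | zero =>
      simp only [if_true, Nat.zero_add, Nat.one_ne_zero, if_false, Nat.sub_self, hf0]
      exact ⟨ht1, ht2, by omega⟩
    | succ i =>
      have h := hf i (by omega)
      simpa using h

theorem chain_lt {c : V} {k : ℕ} {f : ℕ → List ι × V × List V}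
    (hf : ∀ i < k, Desc P (f i) (f (i + 1)) ∧
        (f (i + 1)).2.2.count c < (f i).2.2.count c ∧ 2 ≤ (f (i + 1)).2.2.count c) :
    ∀ j i, i < j → j ≤ k → Desc P (f i) (f j) ∧ (f j).2.2.count c < (f i).2.2.count c ∧
      2 ≤ (f j).2.2.count c := by
  intro j
  induction j with
  | zero => intro i hi; omega
  | succ j ih =>
    intro i hi hj
    rcases Nat.lt_succ_iff_lt_or_eq.1 hi with h | rfl
    · obtain ⟨h1, h2, h3⟩ := ih i h (by omega)
      obtain ⟨h4, h5, h6⟩ := hf j (by omega)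
      exact ⟨h1.trans h4, by omega, h6⟩
    · exact hf i (by omega)

/-- the symbols which occur at time `τ'` -/
def Al (P : ι → V → List V → Prop) (ω : List V) (τ : List ι) (W : List V) (τ' : List ι) : Set V :=
  {X | ∃ Y, Occ P ω τ W τ' X Y}

/-- the symbols which occur at time `τ'` with a letter `c` in a yield -/
def Ps (P : ι → V → List V → Prop) (ω : List V) (τ : List ι) (W : List V) (c : V)
    (τ' : List ι) : Set V :=
  {X | ∃ Y, Occ P ω τ W τ' X Y ∧ c ∈ Y}

/-- two states of a chain with the same symbol and the same sets -/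
theorem exists_pair [Finite V] {D : ℕ} (hD1 : 1 ≤ D)
    (hD : ∀ i X y, P i X y → y.length ≤ D) (c a b : V) :
    ∃ K : ℕ, ∀ (ω : List V) (τ : List ι) (W : List V) (s : List ι × V × List V),
      Occ P ω τ W s.1 s.2.1 s.2.2 → K ≤ s.2.2.count c →
      ∃ t t' : List ι × V × List V, (t = s ∨ Desc P s t) ∧ Desc P t t' ∧ t.2.1 = t'.2.1 ∧
        Al P ω τ W t.1 = Al P ω τ W t'.1 ∧ Ps P ω τ W a t.1 = Ps P ω τ W a t'.1 ∧
        Ps P ω τ W b t.1 = Ps P ω τ W b t'.1 ∧
        t'.2.2.count c < t.2.2.count c ∧ 2 ≤ t'.2.2.count c := by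
  classical
  have := Fintype.ofFinite V
  let Q := V × Set V × Set V × Set V
  set k := Fintype.card Q with hk
  refine ⟨2 * D ^ k, fun ω τ W s hs hc => ?_⟩
  obtain ⟨f, hf0, hf⟩ := chain hD c k s hs.dl hc hD1
  obtain ⟨i, j, hij, he⟩ := Fintype.exists_ne_map_eq_of_card_lt
    (fun i : Fin (k + 1) => ((f i).2.1, Al P ω τ W (f i).1, Ps P ω τ W a (f i).1,
      Ps P ω τ W b (f i).1)) (by rw [Fintype.card_fin, hk]; exact Nat.lt_succ_self _)
  wlog hlt : (i : ℕ) < j generalizing i j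
  · refine this j i hij.symm he.symm ?_
    have : (i : ℕ) ≠ j := fun h => hij (Fin.ext h)
    omega
  have hd := chain_lt hf j i hlt (by omega)
  simp only [Prod.mk.injEq] at he
  refine ⟨f i, f j, ?_, hd.1, he.1, he.2.1, he.2.2.1, he.2.2.2, hd.2⟩
  rcases Nat.eq_zero_or_pos (i : ℕ) with h0 | h0
  · left; rw [h0, hf0]
  · right
    have := (chain_lt hf i 0 h0 (by omega)).1
    rwa [hf0] at this

/-! ### Pumping -/

/-- iterated substitution -/
def itr (φ : V → List V) : ℕ → List V → List V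
  | 0, w => w
  | r + 1, w => itr φ r (w.flatMap φ)

theorem itr_append (φ : V → List V) (r : ℕ) (u v : List V) :
    itr φ r (u ++ v) = itr φ r u ++ itr φ r v := by
  induction r generalizing u v with
  | zero => rfl
  | succ r ih => simp only [itr, List.flatMap_append, ih]

theorem itr_nil (φ : V → List V) (r : ℕ) : itr φ r [] = [] := by
  induction r with
  | zero => rfl
  | succ r ih => simpa [itr] using ih

theorem itr_split (φ : V → List V) (r : ℕ) (p q : List V) (X : V) :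
    itr φ r (p ++ X :: q) = itr φ r p ++ itr φ r [X] ++ itr φ r q := by
  have : p ++ X :: q = p ++ [X] ++ q := by simp
  rw [this, itr_append, itr_append]

theorem itr_dl {σ : List ι} {φ : V → List V} {S : Set V}
    (h1 : ∀ Z ∈ S, DL P σ [Z] (φ Z)) (h2 : ∀ Z ∈ S, ∀ Y ∈ φ Z, Y ∈ S) :
    ∀ (r : ℕ) (w : List V), (∀ Z ∈ w, Z ∈ S) →
      DL P (List.replicate r σ).flatten w (itr φ r w) ∧ ∀ Z ∈ itr φ r w, Z ∈ S := by
  intro r
  induction r with
  | zero => intro w hw; exact ⟨rfl, hw⟩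
  | succ r ih =>
    intro w hw
    have h3 : ∀ Z ∈ w.flatMap φ, Z ∈ S := by
      intro Z hZ
      obtain ⟨Y, hY, hZY⟩ := List.mem_flatMap.1 hZ
      exact h2 Y (hw Y hY) Z hZY
    obtain ⟨h4, h5⟩ := ih (w.flatMap φ) h3
    refine ⟨?_, h5⟩
    rw [List.replicate_succ, List.flatten_cons]
    exact (DL.flatMap (fun Z hZ => h1 Z (hw Z hZ))).comp h4

/-- The data for pumping. -/
theorem pump_data {ω : List V} {τ : List ι} {W : List V} {c : V}
    {t t' : List ι × V × List V} (ht : Occ P ω τ W t.1 t.2.1 t.2.2) (hd : Desc P t t')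
    (hX : t.2.1 = t'.2.1) (hAl : Al P ω τ W t.1 = Al P ω τ W t'.1)
    (hPs : Ps P ω τ W c t.1 = Ps P ω τ W c t'.1)
    (hlt : t'.2.2.count c < t.2.2.count c) (h2 : 2 ≤ t'.2.2.count c) :
    ∃ (σ : List ι) (φ ψ : V → List V) (p q : List V),
      t.1 = σ ++ t'.1 ∧
      (∀ Z ∈ Al P ω τ W t'.1, DL P σ [Z] (φ Z) ∧ (∀ Y ∈ φ Z, Y ∈ Al P ω τ W t'.1) ∧
        ∃ Y, Occ P ω τ W t.1 Z Y ∧ DL P t'.1 (φ Z) Y) ∧
      (∀ Z ∈ Ps P ω τ W c t'.1, ∃ Y ∈ φ Z, Y ∈ Ps P ω τ W c t'.1) ∧
      φ t'.2.1 = p ++ t'.2.1 :: q ∧ (∃ Y ∈ p ++ q, Y ∈ Ps P ω τ W c t'.1) ∧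
      (∀ Z ∈ Al P ω τ W t'.1, Occ P ω τ W t'.1 Z (ψ Z)) ∧
      (∀ Z ∈ Ps P ω τ W c t'.1, c ∈ ψ Z) ∧ ψ t'.2.1 = t'.2.2 := by
  classical
  have ht' : Occ P ω τ W t'.1 t'.2.1 t'.2.2 := ht.desc hd
  obtain ⟨σ, p, q, A, B, e1, h1, h3, h4, h5, e2⟩ := hd
  -- every symbol below an occurrence occurs
  have hsub : ∀ (Z : V) (Y x : List V), Occ P ω τ W t.1 Z Y → DL P σ [Z] x → DL P t'.1 x Y →
      ∀ x1 S x2, x = x1 ++ S :: x2 → ∃ A1 YS B1, Y = A1 ++ YS ++ B1 ∧ DL P t'.1 x1 A1 ∧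
        DL P t'.1 x2 B1 ∧ Occ P ω τ W t'.1 S YS := by
    intro Z Y x hO hx hxY x1 S x2 he
    rw [he] at hxY hx
    obtain ⟨A1, YS, B1, e3, h6, h7, h8⟩ := hxY.split
    refine ⟨A1, YS, B1, e3, h6, h8, ?_⟩
    exact Occ.desc (s := (t.1, Z, Y)) (t := (t'.1, S, YS)) hO
      ⟨σ, x1, x2, A1, B1, e1, hx, h6, h8, h7, e3⟩
  -- the choice of `φ`
  have hφ : ∀ Z, ∃ x : List V, Z ∈ Al P ω τ W t'.1 → (DL P σ [Z] x ∧
      (∀ Y ∈ x, Y ∈ Al P ω τ W t'.1) ∧ (∃ Y, Occ P ω τ W t.1 Z Y ∧ DL P t'.1 x Y) ∧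
      (Z ∈ Ps P ω τ W c t'.1 → ∃ Y ∈ x, Y ∈ Ps P ω τ W c t'.1)) := by
    intro Z
    by_cases hZ : Z ∈ Al P ω τ W t'.1
    · have hexY : ∃ Y, Occ P ω τ W t.1 Z Y ∧ (Z ∈ Ps P ω τ W c t'.1 → c ∈ Y) := by
        by_cases hc : Z ∈ Ps P ω τ W c t'.1
        · rw [← hPs] at hc
          obtain ⟨Y, h6, h7⟩ := hc
          exact ⟨Y, h6, fun _ => h7⟩
        · rw [← hAl] at hZ
          obtain ⟨Y, h6⟩ := hZ
          exact ⟨Y, h6, fun h => absurd h hc⟩
      obtain ⟨Y, hO, hcY⟩ := hexY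
      have hdl := hO.dl
      rw [e1] at hdl
      obtain ⟨x, hx1, hx2⟩ := hdl.comp_inv
      refine ⟨x, fun _ => ⟨hx1, ?_, ⟨Y, hO, hx2⟩, ?_⟩⟩
      · intro S hS
        obtain ⟨x1, x2, he⟩ := List.append_of_mem hS
        obtain ⟨A1, YS, B1, _, _, _, h8⟩ := hsub Z Y x hO hx1 hx2 x1 S x2 he
        exact ⟨YS, h8⟩
      · intro hc
        have hcm := hcY hc
        -- some symbol of `x` yields `c`
        have key : ∀ (x' Y' : List V), DL P t'.1 x' Y' → c ∈ Y' → ∃ x1 S x2, x' = x1 ++ S :: x2 ∧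
            ∃ A1 YS B1, Y' = A1 ++ YS ++ B1 ∧ DL P t'.1 x1 A1 ∧ DL P t'.1 x2 B1 ∧
              DL P t'.1 [S] YS ∧ c ∈ YS := by
          intro x'
          induction x' with
          | nil =>
            intro Y' h hc
            rw [h.nil_inv] at hc
            simp at hc
          | cons S x' ih =>
            intro Y' h hc
            obtain ⟨YS, B1, rfl, h6, h7⟩ := h.cons_inv
            rcases List.mem_append.1 hc with hc | hc
            · exact ⟨[], S, x', rfl, [], YS, B1, by simp, DL.nil _, h7, h6, hc⟩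
            · obtain ⟨x1, S', x2, rfl, A1, YS', B2, rfl, h8, h9, h10, h11⟩ := ih B1 h7 hc
              exact ⟨S :: x1, S', x2, rfl, YS ++ A1, YS', B2, by simp, DL.cons h6 h8, h9, h10, h11⟩
        obtain ⟨x1, S, x2, he, A1, YS, B1, h6, h7, h8, h9, h10⟩ := key x Y hx2 hcm
        refine ⟨S, by rw [he]; simp, YS, ?_, h10⟩
        exact Occ.desc (s := (t.1, Z, Y)) (t := (t'.1, S, YS)) hO
          ⟨σ, x1, x2, A1, B1, e1, by rw [← he]; exact hx1, h7, h8, h9, h6⟩
    · exact ⟨[], fun h => absurd h hZ⟩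
  choose φ₀ hφ₀ using hφ
  have hψ : ∀ Z, ∃ Y : List V, Z ∈ Al P ω τ W t'.1 → (Occ P ω τ W t'.1 Z Y ∧
      (Z ∈ Ps P ω τ W c t'.1 → c ∈ Y)) := by
    intro Z
    by_cases hZ : Z ∈ Al P ω τ W t'.1
    · by_cases hc : Z ∈ Ps P ω τ W c t'.1
      · obtain ⟨Y, h6, h7⟩ := hc
        exact ⟨Y, fun _ => ⟨h6, fun _ => h7⟩⟩
      · obtain ⟨Y, h6⟩ := hZ
        exact ⟨Y, fun _ => ⟨h6, fun h => absurd h hc⟩⟩
    · exact ⟨[], fun h => absurd h hZ⟩
  choose ψ₀ hψ₀ using hψ
  have hXAl : t'.2.1 ∈ Al P ω τ W t'.1 := ⟨_, ht'⟩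
  have hcX : c ∈ t'.2.2 := List.count_pos_iff.1 (by omega)
  have hXPs : t'.2.1 ∈ Ps P ω τ W c t'.1 := ⟨_, ht', hcX⟩
  rw [hX] at h1
  have hOX : Occ P ω τ W t.1 t'.2.1 t.2.2 := by rw [← hX]; exact ht
  have hYt : DL P t'.1 (p ++ t'.2.1 :: q) t.2.2 := by
    rw [e2, List.append_assoc]
    exact h3.append (DL.cons h5 h4)
  refine ⟨σ, fun Z => if Z = t'.2.1 then p ++ t'.2.1 :: q else φ₀ Z,
    fun Z => if Z = t'.2.1 then t'.2.2 else ψ₀ Z, p, q, e1, ?_, ?_, ?_, ?_, ?_, ?_, ?_⟩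
  · intro Z hZ
    by_cases h : Z = t'.2.1
    · subst h
      simp only [if_true]
      refine ⟨h1, ?_, t.2.2, hOX, hYt⟩
      intro S hS
      obtain ⟨x1, x2, he⟩ := List.append_of_mem hS
      obtain ⟨A1, YS, B1, _, _, _, h8⟩ := hsub _ _ _ hOX h1 hYt x1 S x2 he
      exact ⟨YS, h8⟩
    · simp only [if_neg h]
      obtain ⟨h6, h7, h8, _⟩ := hφ₀ Z hZ
      exact ⟨h6, h7, h8⟩
  · intro Z hZ
    by_cases h : Z = t'.2.1
    · simp only [h, if_true]
      exact ⟨t'.2.1, by simp, hXPs⟩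
    · simp only [if_neg h]
      have hZA : Z ∈ Al P ω τ W t'.1 := by
        obtain ⟨Y, hY, _⟩ := hZ
        exact ⟨Y, hY⟩
      exact (hφ₀ Z hZA).2.2.2 hZ
  · simp
  · -- a further symbol with a letter `c`
    have hcount : 1 ≤ A.count c ∨ 1 ≤ B.count c := by
      rw [e2, List.count_append, List.count_append] at hlt
      omega
    have key : ∀ (x' Y' : List V), DL P t'.1 x' Y' → 1 ≤ Y'.count c → ∃ x1 S x2,
        x' = x1 ++ S :: x2 ∧ ∃ A1 YS B1, Y' = A1 ++ YS ++ B1 ∧ DL P t'.1 x1 A1 ∧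
          DL P t'.1 x2 B1 ∧ DL P t'.1 [S] YS ∧ c ∈ YS := by
      intro x'
      induction x' with
      | nil =>
        intro Y' h hc
        rw [h.nil_inv] at hc
        simp at hc
      | cons S x' ih =>
        intro Y' h hc
        obtain ⟨YS, B1, rfl, h6, h7⟩ := h.cons_inv
        rw [List.count_append] at hc
        by_cases hc' : 1 ≤ YS.count c
        · exact ⟨[], S, x', rfl, [], YS, B1, by simp, DL.nil _, h7, h6,
            List.count_pos_iff.1 hc'⟩
        · obtain ⟨x1, S', x2, rfl, A1, YS', B2, rfl, h8, h9, h10, h11⟩ := ih B1 h7 (by omega)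
          exact ⟨S :: x1, S', x2, rfl, YS ++ A1, YS', B2, by simp, DL.cons h6 h8, h9, h10, h11⟩
    rcases hcount with hc | hc
    · obtain ⟨x1, S, x2, he, A1, YS, B1, h6, h7, h8, h9, h10⟩ := key p A h3 hc
      refine ⟨S, by rw [he]; simp, YS, ?_, h10⟩
      refine Occ.desc (s := (t.1, t'.2.1, t.2.2)) (t := (t'.1, S, YS)) hOX ?_
      refine ⟨σ, x1, x2 ++ t'.2.1 :: q, A1, B1 ++ (t'.2.2 ++ B), e1, ?_, h7,
        h8.append (DL.cons h5 h4), h9, ?_⟩
      · have : x1 ++ S :: (x2 ++ t'.2.1 :: q) = p ++ t'.2.1 :: q := by rw [he]; simp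
        change DL P σ [t'.2.1] (x1 ++ S :: (x2 ++ t'.2.1 :: q))
        rw [this]
        exact h1
      · change t.2.2 = A1 ++ YS ++ (B1 ++ (t'.2.2 ++ B))
        rw [e2, h6]
        simp
    · obtain ⟨x1, S, x2, he, A1, YS, B1, h6, h7, h8, h9, h10⟩ := key q B h4 hc
      refine ⟨S, by rw [he]; simp, YS, ?_, h10⟩
      refine Occ.desc (s := (t.1, t'.2.1, t.2.2)) (t := (t'.1, S, YS)) hOX ?_
      refine ⟨σ, p ++ t'.2.1 :: x1, x2, A ++ (t'.2.2 ++ A1), B1, e1, ?_,
        h3.append (DL.cons h5 h7), h8, h9, ?_⟩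
      · have : (p ++ t'.2.1 :: x1) ++ S :: x2 = p ++ t'.2.1 :: q := by rw [he]; simp
        change DL P σ [t'.2.1] ((p ++ t'.2.1 :: x1) ++ S :: x2)
        rw [this]
        exact h1
      · change t.2.2 = A ++ (t'.2.2 ++ A1) ++ YS ++ B1
        rw [e2, h6]
        simp
  · intro Z hZ
    by_cases h : Z = t'.2.1
    · simp only [h, if_true]
      exact ht'
    · simp only [if_neg h]
      exact (hψ₀ Z hZ).1
  · intro Z hZ
    by_cases h : Z = t'.2.1
    · simp only [h, if_true]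
      exact hcX
    · simp only [if_neg h]
      have hZA : Z ∈ Al P ω τ W t'.1 := by
        obtain ⟨Y, hY, _⟩ := hZ
        exact ⟨Y, hY⟩
      exact (hψ₀ Z hZA).2 hZ
  · simp

/-- the number of symbols from a set grows -/
theorem itr_count {φ : V → List V} {S : Set V} [DecidablePred (· ∈ S)] {X : V} {p q : List V}
    (h1 : ∀ Z ∈ S, ∃ Y ∈ φ Z, Y ∈ S) (h2 : φ X = p ++ X :: q) (h3 : ∃ Y ∈ p ++ q, Y ∈ S) :
    ∀ r : ℕ, X ∈ itr φ r [X] ∧ r ≤ (itr φ r [X]).countP (· ∈ S) := by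
  have hmono : ∀ (r : ℕ) (w : List V), w.countP (· ∈ S) ≤ (itr φ r w).countP (· ∈ S) := by
    have h4 : ∀ w : List V, w.countP (· ∈ S) ≤ (w.flatMap φ).countP (· ∈ S) := by
      intro w
      induction w with
      | nil => simp
      | cons Z w ih =>
        rw [List.flatMap_cons, List.countP_append, List.countP_cons]
        by_cases hZ : Z ∈ S
        · obtain ⟨Y, hY1, hY2⟩ := h1 Z hZ
          have : 1 ≤ (φ Z).countP (· ∈ S) := List.countP_pos_iff.2 ⟨Y, hY1, by simpa using hY2⟩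
          simp only [hZ, decide_true, if_true]
          omega
        · simp only [hZ, decide_false, Bool.false_eq_true, if_false]
          omega
    intro r
    induction r with
    | zero => intro w; exact le_rfl
    | succ r ih => intro w; exact (h4 w).trans (ih _)
  intro r
  induction r with
  | zero => exact ⟨by simp [itr], by omega⟩
  | succ r ih =>
    have e : itr φ (r + 1) [X] = itr φ r p ++ itr φ r [X] ++ itr φ r q := by
      change itr φ r ([X].flatMap φ) = _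
      have : [X].flatMap φ = p ++ X :: q := by simp [h2]
      rw [this, itr_split]
    constructor
    · rw [e]
      simp [ih.1]
    · rw [e, List.countP_append, List.countP_append]
      have h4 : 1 ≤ (p ++ q).countP (· ∈ S) := by
        obtain ⟨Y, hY1, hY2⟩ := h3
        exact List.countP_pos_iff.2 ⟨Y, hY1, by simpa using hY2⟩
      rw [List.countP_append] at h4
      have h5 := hmono r p
      have h6 := hmono r q
      omega

theorem count_flatMap_ge {ψ : V → List V} {S : Set V} [DecidablePred (· ∈ S)] {c : V}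
    (h : ∀ Z ∈ S, c ∈ ψ Z) (w : List V) : w.countP (· ∈ S) ≤ (w.flatMap ψ).count c := by
  induction w with
  | nil => simp
  | cons Z w ih =>
    rw [List.flatMap_cons, List.count_append, List.countP_cons]
    by_cases hZ : Z ∈ S
    · have : 1 ≤ (ψ Z).count c := List.one_le_count_iff.2 (h Z hZ)
      simp only [hZ, decide_true, if_true]
      omega
    · simp only [hZ, decide_false, Bool.false_eq_true, if_false]
      omega

end Pool.Agent.Q314.ET
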