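import Pool.Agent.Q314.ET.Gram
import Pool.Agent.W382.FG.P1
import Pool.Agent.W298.FG.P2

/-!
# Membership in the languages of propagating left forbidding E0L grammars is primitive recursive,
uniformly; the diagonal function
-/

set_option autoImplicit false

namespace Pool.Agent.Q314.ET.Diag

open Relation Pool.Agent.Q314.ET
open Pool.Agent.W382.FG.P1 (enc enc_lt enc_inj stab le_foldr prim_mem prim_ok prim_pow)
open Pool.Agent.W298.FG.P2 (wc wc_primrec code code_inj abc_code)
open Pool.Agent.W937.FG (abc)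

/-- a coded grammar: axiom and rules `(X, y, W)`, all symbols are natural numbers -/
abbrev CL : Type := List ℕ × List (ℕ × List ℕ × List ℕ)

/-- a step of a coded grammar on a word behind the context `c` -/
def CS (G : CL) : List ℕ → List ℕ → List ℕ → Prop
  | _, [], v => v = []
  | c, X :: u, v => ∃ y v', v = y ++ v' ∧ (∃ W, (X, y, W) ∈ G.2 ∧ ∀ B ∈ W, B ∉ c) ∧
      CS G (c ++ [X]) u v'

/-- the partial results with one more symbol rewritten -/
def one (L : ℕ) (ρ : ℕ × List ℕ × List ℕ) (c : List ℕ) (X : ℕ) (v : List ℕ) : List (List ℕ) :=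
  if (X = ρ.1 ∧ (∀ B ∈ ρ.2.2, B ∉ c)) ∧ (v ++ ρ.2.1).length ≤ L then [v ++ ρ.2.1] else []

def fs (G : CL) (L : ℕ) (s : List ℕ × List (List ℕ)) (X : ℕ) : List ℕ × List (List ℕ) :=
  (s.1 ++ [X], s.2.flatMap fun v => G.2.flatMap fun ρ => one L ρ s.1 X v)

def succs (G : CL) (L : ℕ) (u : List ℕ) : List (List ℕ) := (u.foldl (fs G L) ([], [[]])).2

def next (G : CL) (L : ℕ) (R : List (List ℕ)) : List (List ℕ) :=
  R ++ R.flatMap fun α => succs G L α

def bd (G : CL) : ℕ := (G.1 ++ G.2.flatMap fun ρ => ρ.2.1).foldr (fun x y => x + y) 0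

def iter (G : CL) (w : List ℕ) : List (List ℕ) :=
  (next G (w.length + G.1.length))^[(bd G + 2) ^ (w.length + G.1.length)] [G.1]

def D (G : CL) (w : List ℕ) : Bool := decide (w ∈ iter G w)

/-! ### Correctness -/

theorem mem_one {L : ℕ} {ρ : ℕ × List ℕ × List ℕ} {c : List ℕ} {X : ℕ} {v z : List ℕ} :
    z ∈ one L ρ c X v ↔ (X = ρ.1 ∧ (∀ B ∈ ρ.2.2, B ∉ c)) ∧ z = v ++ ρ.2.1 ∧ z.length ≤ L := by
  unfold one
  split_ifs with h
  · rw [List.mem_singleton]
    constructor
    · rintro rfl; exact ⟨h.1, rfl, h.2⟩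
    · rintro ⟨_, h, _⟩; exact h
  · simp only [List.not_mem_nil, false_iff]
    rintro ⟨h1, rfl, h2⟩
    exact h ⟨h1, h2⟩

theorem mem_foldl (G : CL) (L : ℕ) : ∀ (u c : List ℕ) (R : List (List ℕ)) (v : List ℕ),
    v ∈ (u.foldl (fs G L) (c, R)).2 ↔ ∃ v0 ∈ R, ∃ v1, v = v0 ++ v1 ∧ CS G c u v1 ∧
      (u ≠ [] → v.length ≤ L) := by
  intro u
  induction u with
  | nil =>
    intro c R v
    simp only [List.foldl_nil, CS]
    constructor
    · intro h; exact ⟨v, h, [], by simp, rfl, by simp⟩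
    · rintro ⟨v0, h, v1, rfl, rfl, _⟩
      simpa using h
  | cons X u ih =>
    intro c R v
    rw [List.foldl_cons, fs, ih]
    simp only [List.mem_flatMap, mem_one, CS]
    constructor
    · rintro ⟨v0, ⟨v00, hv00, ρ, hρ, ⟨rfl, hB⟩, rfl, hlen⟩, v1, rfl, h1, h2⟩
      refine ⟨v00, hv00, ρ.2.1 ++ v1, by simp, ⟨ρ.2.1, v1, rfl, ⟨ρ.2.2, hρ, hB⟩, h1⟩, ?_⟩
      intro _
      by_cases hu : u = []
      · subst hu
        have h1' : v1 = [] := h1
        subst h1'
        simpa using hlen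
      · exact h2 hu
    · rintro ⟨v0, hv0, v1, rfl, ⟨y, v', rfl, ⟨W, hW, hB⟩, h1⟩, h2⟩
      have h3 := h2 (by simp)
      refine ⟨v0 ++ y, ⟨v0, hv0, (X, y, W), hW, ⟨rfl, hB⟩, rfl, ?_⟩, v', by simp, h1, fun _ => h3⟩
      simp only [List.length_append] at h3 ⊢
      omega

theorem mem_succs {G : CL} {L : ℕ} {α β : List ℕ} :
    β ∈ succs G L α ↔ CS G [] α β ∧ (α ≠ [] → β.length ≤ L) := by
  unfold succs
  rw [mem_foldl]
  simp

theorem mem_next {G : CL} {L : ℕ} {R : List (List ℕ)} {β : List ℕ} :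
    β ∈ next G L R ↔ β ∈ R ∨ ∃ α ∈ R, CS G [] α β ∧ (α ≠ [] → β.length ≤ L) := by
  simp only [next, List.mem_append, List.mem_flatMap, mem_succs]

theorem start_le (G : CL) : ∀ x ∈ G.1, x ≤ bd G := by
  intro x hx
  exact (le_foldr _ 0).2 x (List.mem_append_left _ hx)

theorem rule_le (G : CL) {X : ℕ} {y W : List ℕ} (h : (X, y, W) ∈ G.2) : ∀ x ∈ y, x ≤ bd G := by
  intro x hx
  refine (le_foldr _ 0).2 x (List.mem_append_right _ ?_)
  rw [List.mem_flatMap]
  exact ⟨(X, y, W), h, hx⟩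

theorem cs_le {G : CL} : ∀ {α c β : List ℕ}, CS G c α β → ∀ x ∈ β, x ≤ bd G := by
  intro α
  induction α with
  | nil =>
    intro c β h x hx
    have h' : β = [] := h
    subst h'
    simp at hx
  | cons X u ih =>
    rintro c β ⟨y, v', rfl, ⟨W, hW, _⟩, h2⟩ x hx
    rcases List.mem_append.1 hx with hx | hx
    · exact rule_le G hW x hx
    · exact ih h2 x hx

theorem cs_len {G : CL} (hG : ∀ ρ ∈ G.2, ρ.2.1 ≠ []) : ∀ {α c β : List ℕ}, CS G c α β →
    α.length ≤ β.length := by
  intro α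
  induction α with
  | nil => intro c β _; simp
  | cons X u ih =>
    rintro c β ⟨y, v', rfl, ⟨W, hW, _⟩, h2⟩
    have h1 := ih h2
    have h3 := List.length_pos_iff.2 (hG _ hW)
    simp only [List.length_cons, List.length_append] at *
    omega

theorem correct (G : CL) (w : List ℕ) (hG : ∀ ρ ∈ G.2, ρ.2.1 ≠ []) :
    D G w = true ↔ ReflTransGen (CS G []) G.1 w := by
  classical
  set L := w.length + G.1.length with hL
  have hit : ∀ n, (next G L)^[n + 1] [G.1] = next G L ((next G L)^[n] [G.1]) := fun n =>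
    Function.iterate_succ_apply' _ _ _
  -- soundness and bounds
  have hs : ∀ n, ∀ β ∈ (next G L)^[n] [G.1], ReflTransGen (CS G []) G.1 β ∧
      (∀ x ∈ β, x ≤ bd G) ∧ β.length ≤ L := by
    intro n
    induction n with
    | zero =>
      intro β hβ
      simp only [Function.iterate_zero, id_eq, List.mem_singleton] at hβ
      subst hβ
      refine ⟨ReflTransGen.refl, start_le G, ?_⟩
      omega
    | succ n ih =>
      intro β hβ
      rw [hit, mem_next] at hβ
      rcases hβ with hβ | ⟨α, hα, h1, h2⟩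
      · exact ih β hβ
      · obtain ⟨i1, i2, -⟩ := ih α hα
        refine ⟨i1.tail h1, cs_le h1, ?_⟩
        by_cases hα0 : α = []
        · subst hα0
          have h1' : β = [] := h1
          subst h1'
          simp
        · exact h2 hα0
  -- completeness
  have hc : ∀ β, ReflTransGen (CS G []) G.1 β → β.length ≤ L →
      ∃ n, β ∈ (next G L)^[n] [G.1] := by
    intro β hβ
    induction hβ with
    | refl => intro _; exact ⟨0, by simp⟩
    | tail _ h ih =>
      intro hlen
      obtain ⟨n, hn⟩ := ih ((cs_len hG h).trans hlen)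
      refine ⟨n + 1, ?_⟩
      rw [hit, mem_next]
      exact Or.inr ⟨_, hn, h, fun _ => hlen⟩
  -- stabilisation
  have hst := stab (fun n => ((next G L)^[n] [G.1]).toFinset) ((bd G + 2) ^ L)
    (by
      intro n β hβ
      simp only [List.mem_toFinset] at hβ ⊢
      rw [hit, mem_next]
      exact Or.inl hβ)
    (by
      intro n hn
      have hn' : ∀ β, β ∈ (next G L)^[n] [G.1] ↔ β ∈ (next G L)^[n + 1] [G.1] := by
        intro β
        have := Finset.ext_iff.mp hn β
        simpa only [List.mem_toFinset] using this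
      ext β
      simp only [List.mem_toFinset]
      rw [hit (n + 1), mem_next]
      conv_lhs => rw [hit n, mem_next]
      simp only [hn'])
    (by
      intro n
      have : (((next G L)^[n] [G.1]).toFinset).card ≤ (Finset.range ((bd G + 2) ^ L)).card := by
        refine Finset.card_le_card_of_injOn (enc (bd G)) ?_ ?_
        · intro β hβ
          rw [Finset.mem_coe, List.mem_toFinset] at hβ
          rw [Finset.coe_range, Set.mem_Iio]
          exact enc_lt (hs n β hβ).2.1 (hs n β hβ).2.2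
        · intro β hβ γ hγ h
          rw [Finset.mem_coe, List.mem_toFinset] at hβ hγ
          exact enc_inj (hs n β hβ).2.1 (hs n γ hγ).2.1 h
      rwa [Finset.card_range] at this)
  have hD : D G w = true ↔ w ∈ (next G L)^[(bd G + 2) ^ L] [G.1] := by
    unfold D iter
    rw [decide_eq_true_iff]
  rw [hD]
  constructor
  · intro h
    exact (hs _ w h).1
  · intro h
    obtain ⟨n, hn⟩ := hc w h (by omega)
    have := hst n (List.mem_toFinset.mpr hn)
    exact List.mem_toFinset.mp this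

/-! ### Primitive recursiveness -/

open Primrec

theorem prim_one : Primrec fun p : (ℕ × (ℕ × List ℕ × List ℕ)) × ((List ℕ × ℕ) × List ℕ) =>
    one p.1.1 p.1.2 p.2.1.1 p.2.1.2 p.2.2 := by
  have hL : Primrec fun p : (ℕ × (ℕ × List ℕ × List ℕ)) × ((List ℕ × ℕ) × List ℕ) => p.1.1 :=
    fst.comp fst
  have hρ : Primrec fun p : (ℕ × (ℕ × List ℕ × List ℕ)) × ((List ℕ × ℕ) × List ℕ) => p.1.2 :=
    snd.comp fst
  have hc : Primrec fun p : (ℕ × (ℕ × List ℕ × List ℕ)) × ((List ℕ × ℕ) × List ℕ) => p.2.1.1 :=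
    fst.comp (fst.comp snd)
  have hX : Primrec fun p : (ℕ × (ℕ × List ℕ × List ℕ)) × ((List ℕ × ℕ) × List ℕ) => p.2.1.2 :=
    snd.comp (fst.comp snd)
  have hv : Primrec fun p : (ℕ × (ℕ × List ℕ × List ℕ)) × ((List ℕ × ℕ) × List ℕ) => p.2.2 :=
    snd.comp snd
  have hy : Primrec fun p : (ℕ × (ℕ × List ℕ × List ℕ)) × ((List ℕ × ℕ) × List ℕ) => p.1.2.2.1 :=
    fst.comp (snd.comp hρ)
  have hW : Primrec fun p : (ℕ × (ℕ × List ℕ × List ℕ)) × ((List ℕ × ℕ) × List ℕ) => p.1.2.2.2 :=
    snd.comp (snd.comp hρ)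
  have hres : Primrec fun p : (ℕ × (ℕ × List ℕ × List ℕ)) × ((List ℕ × ℕ) × List ℕ) =>
      p.2.2 ++ p.1.2.2.1 := list_append.comp hv hy
  unfold one
  refine Primrec.ite ?_ (list_cons.comp hres (Primrec.const [])) (Primrec.const [])
  refine PrimrecPred.and (PrimrecPred.and ?_ (prim_ok.comp hW hc)) ?_
  · exact Primrec.eq.comp hX (fst.comp hρ)
  · exact nat_le.comp (list_length.comp hres) hL

theorem prim_fs : Primrec fun p : (CL × ℕ) × ((List ℕ × List (List ℕ)) × ℕ) =>
    fs p.1.1 p.1.2 p.2.1 p.2.2 := by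
  have h1 : Primrec fun q : (((CL × ℕ) × ((List ℕ × List (List ℕ)) × ℕ)) × List ℕ) ×
      (ℕ × List ℕ × List ℕ) =>
      (((q.1.1.1.2, q.2), ((q.1.1.2.1.1, q.1.1.2.2), q.1.2)) :
        (ℕ × (ℕ × List ℕ × List ℕ)) × ((List ℕ × ℕ) × List ℕ)) :=
    Primrec.pair
      (Primrec.pair (snd.comp (fst.comp (fst.comp fst))) snd)
      (Primrec.pair (Primrec.pair (fst.comp (fst.comp (snd.comp (fst.comp fst))))
        (snd.comp (snd.comp (fst.comp fst)))) (snd.comp fst))
  have h2 : Primrec fun q : (((CL × ℕ) × ((List ℕ × List (List ℕ)) × ℕ)) × List ℕ) ×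
      (ℕ × List ℕ × List ℕ) => one q.1.1.1.2 q.2 q.1.1.2.1.1 q.1.1.2.2 q.1.2 := by
    have h := Primrec.comp prim_one h1
    exact h
  have h3 : Primrec fun q : ((CL × ℕ) × ((List ℕ × List (List ℕ)) × ℕ)) × List ℕ =>
      q.1.1.1.2 := snd.comp (fst.comp (fst.comp fst))
  have h4 : Primrec fun q : ((CL × ℕ) × ((List ℕ × List (List ℕ)) × ℕ)) × List ℕ =>
      q.1.1.1.2.flatMap fun ρ => one q.1.1.2 ρ q.1.2.1.1 q.1.2.2 q.2 :=
    list_flatMap h3 h2
  have h5 : Primrec fun p : (CL × ℕ) × ((List ℕ × List (List ℕ)) × ℕ) => p.2.1.2 :=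
    snd.comp (fst.comp snd)
  have h6 : Primrec fun p : (CL × ℕ) × ((List ℕ × List (List ℕ)) × ℕ) =>
      p.2.1.2.flatMap fun v => p.1.1.2.flatMap fun ρ => one p.1.2 ρ p.2.1.1 p.2.2 v :=
    list_flatMap h5 h4
  have h7 : Primrec fun p : (CL × ℕ) × ((List ℕ × List (List ℕ)) × ℕ) => p.2.1.1 ++ [p.2.2] :=
    list_append.comp (fst.comp (fst.comp snd))
      (list_cons.comp (snd.comp snd) (Primrec.const []))
  exact Primrec.pair h7 h6

theorem prim_succs : Primrec fun p : (CL × ℕ) × List ℕ => succs p.1.1 p.1.2 p.2 := by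
  have h1' : Primrec fun q : ((CL × ℕ) × List ℕ) × ((List ℕ × List (List ℕ)) × ℕ) =>
      fs q.1.1.1 q.1.1.2 q.2.1 q.2.2 := by
    have h0 : Primrec fun q : ((CL × ℕ) × List ℕ) × ((List ℕ × List (List ℕ)) × ℕ) =>
        ((q.1.1, q.2) : (CL × ℕ) × ((List ℕ × List (List ℕ)) × ℕ)) :=
      Primrec.pair (fst.comp fst) snd
    have h := Primrec.comp prim_fs h0
    exact h
  have h1 : Primrec₂ fun (a : (CL × ℕ) × List ℕ) (s : (List ℕ × List (List ℕ)) × ℕ) =>
      fs a.1.1 a.1.2 s.1 s.2 := h1'.to₂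
  have h2 : Primrec fun a : (CL × ℕ) × List ℕ =>
      a.2.foldl (fun s b => fs a.1.1 a.1.2 s b) (([], [[]]) : List ℕ × List (List ℕ)) :=
    list_foldl (f := fun a : (CL × ℕ) × List ℕ => a.2)
      (g := fun _ : (CL × ℕ) × List ℕ => (([], [[]]) : List ℕ × List (List ℕ)))
      (h := fun (a : (CL × ℕ) × List ℕ) (s : (List ℕ × List (List ℕ)) × ℕ) =>
        fs a.1.1 a.1.2 s.1 s.2)
      snd (Primrec.const _) h1
  have h3 : Primrec fun a : (CL × ℕ) × List ℕ =>
      (a.2.foldl (fun s b => fs a.1.1 a.1.2 s b) (([], [[]]) : List ℕ × List (List ℕ))).2 :=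
    snd.comp h2
  exact h3

theorem prim_next : Primrec fun p : (CL × ℕ) × List (List ℕ) => next p.1.1 p.1.2 p.2 := by
  have h1 : Primrec fun q : ((CL × ℕ) × List (List ℕ)) × List ℕ => succs q.1.1.1 q.1.1.2 q.2 := by
    have h0 : Primrec fun q : ((CL × ℕ) × List (List ℕ)) × List ℕ => (q.1.1, q.2) :=
      Primrec.pair (fst.comp fst) snd
    have h := Primrec.comp prim_succs h0
    exact h
  have h2 : Primrec fun p : (CL × ℕ) × List (List ℕ) =>
      p.2.flatMap fun α => succs p.1.1 p.1.2 α := list_flatMap snd h1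
  have h3 : Primrec fun p : (CL × ℕ) × List (List ℕ) =>
      p.2 ++ p.2.flatMap fun α => succs p.1.1 p.1.2 α := list_append.comp snd h2
  exact h3

theorem prim_bd : Primrec bd := by
  have h1 : Primrec fun q : CL × (ℕ × List ℕ × List ℕ) => q.2.2.1 :=
    fst.comp (snd.comp snd)
  have h2 : Primrec fun G : CL => G.1 ++ G.2.flatMap fun ρ => ρ.2.1 :=
    list_append.comp fst (list_flatMap snd h1)
  have h3 : Primrec fun q : CL × (ℕ × ℕ) => q.2.1 + q.2.2 :=
    nat_add.comp (fst.comp snd) (snd.comp snd)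
  exact list_foldr (h := fun (_ : CL) (p : ℕ × ℕ) => p.1 + p.2) h2 (Primrec.const 0) h3

theorem prim_iter : Primrec fun p : CL × List ℕ => iter p.1 p.2 := by
  have hL : Primrec fun p : CL × List ℕ => p.2.length + p.1.1.length :=
    nat_add.comp (list_length.comp snd) (list_length.comp (fst.comp fst))
  have h1 : Primrec fun p : CL × List ℕ => (bd p.1 + 2) ^ (p.2.length + p.1.1.length) :=
    prim_pow.comp (Primrec.pair (nat_add.comp (prim_bd.comp fst) (Primrec.const 2)) hL)
  have h2 : Primrec fun p : CL × List ℕ => [p.1.1] :=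
    list_cons.comp (fst.comp fst) (Primrec.const ([] : List (List ℕ)))
  have h3 : Primrec fun q : (CL × List ℕ) × List (List ℕ) =>
      next q.1.1 (q.1.2.length + q.1.1.1.length) q.2 :=
    prim_next.comp (Primrec.pair (Primrec.pair (fst.comp fst) (hL.comp fst)) snd)
  exact nat_iterate h1 h2 h3

theorem prim_D : Primrec₂ D := by
  have hm : PrimrecRel fun (R : List (List ℕ)) (w : List ℕ) => w ∈ R := by
    refine (PrimrecRel.exists_mem_list (R := fun a b : List ℕ => a = b) Primrec.eq).of_eq ?_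
    intro R w
    simp
  exact (hm.comp prim_iter snd).decide

/-! ### Diagonalisation -/

/-- The diagonal function. -/
def diag (m : ℕ) : ℕ :=
  Option.casesOn (motive := fun _ => ℕ) (Encodable.decode (α := CL) m.pred) 0
    (fun G => cond (D G (wc m)) 0 1)

theorem diag_primrec : Primrec diag := by
  unfold diag
  refine Primrec.option_casesOn (Primrec.decode.comp Primrec.pred) (Primrec.const 0) ?_
  refine Primrec.cond ?_ (Primrec.const 0) (Primrec.const 1)
  exact prim_D.comp Primrec.snd (wc_primrec.comp Primrec.fst)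

theorem diag_encode (G : CL) :
    diag (Encodable.encode G + 1) = cond (D G (wc (Encodable.encode G + 1))) 0 1 := by
  simp only [diag, Nat.pred_succ, Encodable.encodek]

section

variable (H : LRCGrammar (Fin 3)) (idx : H.N → ℕ)

open Classical in
/-- Code of a rule. -/
noncomputable def cr (ρ : Symbol (Fin 3) H.N × List (Symbol (Fin 3) H.N) × Set H.N × Set H.N) :
    ℕ × List ℕ × List ℕ :=
  (code idx ρ.1, ρ.2.1.map (code idx),
    if h : ρ.2.2.2.Finite then h.toFinset.toList.map fun B => 3 + idx B else [])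

theorem cs_iff (hidx : Function.Injective idx) (G : CL)
    (hG : ∀ x, x ∈ G.2 ↔ ∃ ρ ∈ H.P, x = cr H idx ρ) (hU : ∀ ρ ∈ H.P, ρ.2.2.1 = ∅) :
    ∀ (u c : List (Symbol (Fin 3) H.N)) (v' : List ℕ),
      CS G (c.map (code idx)) (u.map (code idx)) v' ↔ ∃ v, v' = v.map (code idx) ∧ SF H c u v := by
  have hc := code_inj idx hidx
  have := H.finN
  intro u
  induction u with
  | nil =>
    intro c v'
    constructor
    · intro h
      have h' : v' = [] := h
      exact ⟨[], h', rfl⟩
    · rintro ⟨v, rfl, h⟩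
      have h' : v = [] := h
      subst h'
      rfl
  | cons X u ih =>
    intro c v'
    have key : ∀ (y' : List ℕ), (∃ W, (code idx X, y', W) ∈ G.2 ∧ ∀ B ∈ W, B ∉ c.map (code idx)) ↔
        ∃ y, y' = y.map (code idx) ∧ Ok H c X y := by
      intro y'
      constructor
      · rintro ⟨W, hW, hB⟩
        obtain ⟨⟨X', y, U, W'⟩, hρ, he⟩ := (hG _).1 hW
        simp only [cr, Prod.mk.injEq] at he
        obtain ⟨e1, e2, e3⟩ := he
        have e4 := hc e1
        subst e4
        refine ⟨y, e2, U, W', hρ, ?_, ?_⟩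
        · have := hU _ hρ
          simp only at this
          subst this
          simp
        · intro A hA hAc
          rw [dif_pos (Set.toFinite _)] at e3
          apply hB (3 + idx A)
          · rw [e3, List.mem_map]
            exact ⟨A, by simpa using hA, rfl⟩
          · exact List.mem_map.2 ⟨_, hAc, rfl⟩
      · rintro ⟨y, rfl, U, W, hρ, _, hB⟩
        refine ⟨_, (hG _).2 ⟨_, hρ, rfl⟩, ?_⟩
        intro b hb hbc
        rw [dif_pos (Set.toFinite _)] at hb
        obtain ⟨B, hB', rfl⟩ := List.mem_map.1 hb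
        obtain ⟨x, hx, hx'⟩ := List.mem_map.1 hbc
        have : x = Symbol.nonterminal B := hc hx'
        subst this
        exact hB B (by simpa using hB') hx
    rw [List.map_cons]
    constructor
    · rintro ⟨y', v1, rfl, h1, h2⟩
      obtain ⟨y, rfl, h3⟩ := (key _).1 h1
      have e : c.map (code idx) ++ [code idx X] = (c ++ [X]).map (code idx) := by simp
      rw [e] at h2
      obtain ⟨v2, rfl, h4⟩ := (ih _ _).1 h2
      exact ⟨y ++ v2, by simp, y, v2, rfl, h3, h4⟩
    · rintro ⟨v, rfl, y, v2, rfl, h3, h4⟩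
      refine ⟨y.map (code idx), v2.map (code idx), by simp, (key _).2 ⟨y, rfl, h3⟩, ?_⟩
      have e : c.map (code idx) ++ [code idx X] = (c ++ [X]).map (code idx) := by simp
      rw [e]
      exact (ih _ _).2 ⟨v2, rfl, h4⟩

theorem reach_iff (hidx : Function.Injective idx) (G : CL)
    (hG : ∀ x, x ∈ G.2 ↔ ∃ ρ ∈ H.P, x = cr H idx ρ) (hU : ∀ ρ ∈ H.P, ρ.2.2.1 = ∅)
    (α β : List (Symbol (Fin 3) H.N)) :
    ReflTransGen (CS G []) (α.map (code idx)) (β.map (code idx)) ↔
      ReflTransGen H.Step α β := by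
  have hm := List.map_injective_iff.mpr (code_inj idx hidx)
  constructor
  · intro h
    have key : ∀ β' : List ℕ, ReflTransGen (CS G []) (α.map (code idx)) β' →
        ∃ β, β' = β.map (code idx) ∧ ReflTransGen H.Step α β := by
      intro β' h
      induction h with
      | refl => exact ⟨α, rfl, ReflTransGen.refl⟩
      | tail _ h2 ih =>
        obtain ⟨γ, rfl, h3⟩ := ih
        obtain ⟨β, rfl, h4⟩ := (cs_iff H idx hidx G hG hU γ [] _).mp h2
        refine ⟨β, rfl, ?_⟩
        by_cases hγ : γ = []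
        · subst hγ
          have h4' : β = [] := h4
          subst h4'
          exact h3
        · exact h3.tail ((step_iff H _ _).2 ⟨hγ, h4⟩)
    obtain ⟨β1, h1, h2⟩ := key _ h
    rw [hm h1]
    exact h2
  · intro h
    induction h with
    | refl => exact ReflTransGen.refl
    | tail _ h2 ih =>
      exact ih.tail ((cs_iff H idx hidx G hG hU _ [] _).mpr ⟨_, rfl, ((step_iff H _ _).1 h2).2⟩)

end

/-- The diagonal function differs from every propagating left forbidding E0L language on the words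
`a^m b^m c^m`. -/
theorem main (H : LRCGrammar (Fin 3)) (hU : ∀ ρ ∈ H.P, ρ.2.2.1 = ∅) (hp : ∀ ρ ∈ H.P, ρ.2.1 ≠ []) :
    ∃ m : ℕ, 1 ≤ m ∧ (diag m = 1 ↔ abc m ∉ H.lang) := by
  have := H.finN
  obtain ⟨idx, hidx⟩ := exists_injective_nat H.N
  let G : CL := (H.ax.map (code idx), H.finP.toFinset.toList.map (cr H idx))
  have hG : ∀ x, x ∈ G.2 ↔ ∃ ρ ∈ H.P, x = cr H idx ρ := by
    intro x
    show x ∈ H.finP.toFinset.toList.map (cr H idx) ↔ _
    rw [List.mem_map]
    constructor
    · rintro ⟨ρ, hρ, rfl⟩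
      exact ⟨ρ, by simpa using hρ, rfl⟩
    · rintro ⟨ρ, hρ, rfl⟩
      exact ⟨ρ, by simpa using hρ, rfl⟩
  refine ⟨Encodable.encode G + 1, by omega, ?_⟩
  rw [diag_encode]
  have h1 := correct G (wc (Encodable.encode G + 1)) (by
    intro x hx
    obtain ⟨ρ, hρ, rfl⟩ := (hG x).mp hx
    simpa [cr] using hp ρ hρ)
  have h2 := reach_iff H idx hidx G hG hU H.ax
    ((abc (Encodable.encode G + 1)).map Symbol.terminal)
  rw [abc_code] at h2
  have h3 : D G (wc (Encodable.encode G + 1)) = true ↔ abc (Encodable.encode G + 1) ∈ H.lang :=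
    h1.trans h2
  rw [← h3]
  cases D G (wc (Encodable.encode G + 1)) <;> simp

end Pool.Agent.Q314.ET.Diag
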