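import Pool.Agent.Q314.ET.Gram
import Pool.Agent.W937.FG.Stm

/-!
# Forbidding grammars with erasing rules are simulated by left forbidding E0L grammars
-/

set_option autoImplicit false

namespace Pool.Agent.Q314.ET.Forb

open Pool.Agent.Q314.ET Pool.Agent.W937.FG Relation

variable {T N : Type} (P : Set (Rule T N))

/-- nonterminals: the old ones, marked symbols, phase markers and the right end marker -/
inductive NN : Type
  | old (A : N) : NN
  | mkd (r : P) : NN
  | c : NN
  | p1 (r : P) : NN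
  | p2 (r : P) : NN
  | fin : NN
  | R : NN

/-- injection into a sum -/
def NN.toSum : NN P → N ⊕ (P ⊕ (P ⊕ (P ⊕ Fin 3)))
  | .old A => .inl A
  | .mkd r => .inr (.inl r)
  | .p1 r => .inr (.inr (.inl r))
  | .p2 r => .inr (.inr (.inr (.inl r)))
  | .c => .inr (.inr (.inr (.inr 0)))
  | .fin => .inr (.inr (.inr (.inr 1)))
  | .R => .inr (.inr (.inr (.inr 2)))

theorem finite_NN [Finite N] (hP : P.Finite) : Finite (NN P) := by
  have := hP.to_subtype
  refine Finite.of_injective (NN.toSum P) ?_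
  intro a b h
  cases a <;> cases b <;> simp [NN.toSum] at h <;> simp [h]

abbrev V := Symbol T (NN P)
abbrev nt (A : NN P) : V P := Symbol.nonterminal A

variable {P} in
/-- the phase markers -/
def mrk : NN P → Prop
  | .c => True
  | .p1 _ => True
  | .p2 _ => True
  | .fin => True
  | _ => False

/-- the embedding of the old symbols -/
def emb : Symbol T N → V P
  | .terminal t => .terminal t
  | .nonterminal A => .nonterminal (.old A)

variable {P} in
/-- the phase markers different from `m` -/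
def oth (m : NN P) : Set (NN P) := {A | mrk A ∧ A ≠ m}

/-- the rules `(X → y, ∅, W)` -/
inductive Rl : V P → List (V P) → Set (NN P) → Prop
  | c1 (r : P) : Rl (nt P .c) [nt P (.p1 r)] ∅
  | c2 : Rl (nt P .c) [nt P .fin] ∅
  | p12 (r : P) : Rl (nt P (.p1 r)) [nt P (.p2 r)] ∅
  | p2c (r : P) : Rl (nt P (.p2 r)) [nt P .c] ∅
  | fin : Rl (nt P .fin) [] ∅
  | ter (t : T) : Rl (Symbol.terminal t) [Symbol.terminal t] ∅
  | old (A : N) : Rl (nt P (.old A)) [nt P (.old A)] {.fin}
  | mark (r : P) : Rl (nt P (.old r.1.1)) [nt P (.mkd r)] (oth (.p1 r))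
  | app (r : P) : Rl (nt P (.mkd r)) (r.1.2.1.map (emb P)) (oth (.p2 r) ∪ Set.range NN.mkd)
  | R1 : Rl (nt P .R) [nt P .R] ({.fin} ∪ Set.range NN.p1)
  | R2 (r : P) : Rl (nt P .R) [nt P .R] (NN.old '' (r.1.2.2 : Set N) ∪ oth (.p1 r))
  | R3 : Rl (nt P .R) [] (oth .fin)

/-- the rules -/
def rules : Set (V P × List (V P) × Set (NN P) × Set (NN P)) :=
  {q | q.2.2.1 = ∅ ∧ Rl P q.1 q.2.1 q.2.2.2}

theorem finite_rules [Finite T] [Finite N] (hP : P.Finite) : (rules P).Finite := by
  have := hP.to_subtype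
  have h0 : ((Set.range fun r : P => ((nt P .c, [nt P (.p1 r)], ∅, ∅) :
        V P × List (V P) × Set (NN P) × Set (NN P))) ∪ {(nt P .c, [nt P .fin], ∅, ∅)} ∪
      (Set.range fun r : P => (nt P (.p1 r), [nt P (.p2 r)], ∅, ∅)) ∪
      (Set.range fun r : P => (nt P (.p2 r), [nt P .c], ∅, ∅)) ∪
      {(nt P .fin, [], ∅, ∅)} ∪
      (Set.range fun t : T => (Symbol.terminal t, [Symbol.terminal t], ∅, ∅)) ∪
      (Set.range fun A : N => (nt P (.old A), [nt P (.old A)], ∅, {.fin})) ∪
      (Set.range fun r : P => (nt P (.old r.1.1), [nt P (.mkd r)], ∅, oth (.p1 r))) ∪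
      (Set.range fun r : P => (nt P (.mkd r), r.1.2.1.map (emb P), ∅,
        oth (.p2 r) ∪ Set.range NN.mkd)) ∪
      {(nt P .R, [nt P .R], ∅, {.fin} ∪ Set.range NN.p1)} ∪
      (Set.range fun r : P => (nt P .R, [nt P .R], ∅,
        NN.old '' (r.1.2.2 : Set N) ∪ oth (.p1 r))) ∪
      {(nt P .R, [], ∅, oth .fin)}).Finite := by
    refine Set.Finite.union ?_ (Set.finite_singleton _)
    refine Set.Finite.union ?_ (Set.finite_range _)
    refine Set.Finite.union ?_ (Set.finite_singleton _)
    refine Set.Finite.union ?_ (Set.finite_range _)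
    refine Set.Finite.union ?_ (Set.finite_range _)
    refine Set.Finite.union ?_ (Set.finite_range _)
    refine Set.Finite.union ?_ (Set.finite_range _)
    refine Set.Finite.union ?_ (Set.finite_singleton _)
    refine Set.Finite.union ?_ (Set.finite_range _)
    refine Set.Finite.union ?_ (Set.finite_range _)
    refine Set.Finite.union ?_ (Set.finite_singleton _)
    exact Set.finite_range _
  refine h0.subset ?_
  rintro ⟨X, y, U, W⟩ ⟨hU, h⟩
  simp only at hU h
  subst hU
  simp only [Set.mem_union, Set.mem_range, Set.mem_singleton_iff]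
  cases h
  case mark r => exact Or.inl (Or.inl (Or.inl (Or.inl (Or.inr ⟨r, rfl⟩))))
  all_goals simp

/-- the left forbidding grammar -/
def FG [Finite T] [Finite N] (hP : P.Finite) (S : N) : LRCGrammar T where
  N := NN P
  finN := finite_NN P hP
  P := rules P
  finP := finite_rules P hP
  ax := [nt P .c, nt P (.old S), nt P .R]
  ax_ne := by simp

variable [Finite T] [Finite N] (hP : P.Finite) (S : N)

def OkV (c : List (V P)) (X : V P) (y : List (V P)) : Prop := Ok (FG P hP S) c X y

def SV (c u v : List (V P)) : Prop := SF (FG P hP S) c u v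

def StepV (u v : List (V P)) : Prop := (FG P hP S).Step u v

theorem ok_iff' (c : List (V P)) (X : V P) (y : List (V P)) :
    OkV P hP S c X y ↔ ∃ U W : Set (NN P), (X, y, U, W) ∈ rules P ∧
      (∀ A ∈ U, Symbol.nonterminal A ∈ c) ∧ ∀ A ∈ W, Symbol.nonterminal A ∉ c := Iff.rfl

theorem ok_iff (c : List (V P)) (X : V P) (y : List (V P)) :
    OkV P hP S c X y ↔ ∃ W : Set (NN P), Rl P X y W ∧ ∀ A ∈ W, nt P A ∉ c := by
  rw [ok_iff']
  constructor
  · rintro ⟨U, W, ⟨_, h1⟩, _, h3⟩
    exact ⟨W, h1, h3⟩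
  · rintro ⟨W, h1, h3⟩
    exact ⟨∅, W, ⟨rfl, h1⟩, by simp, h3⟩

theorem sv_nil (c v : List (V P)) : SV P hP S c [] v ↔ v = [] := Iff.rfl

theorem sv_cons (c : List (V P)) (X : V P) (u v : List (V P)) : SV P hP S c (X :: u) v ↔
    ∃ y v' : List (V P), v = y ++ v' ∧ OkV P hP S c X y ∧ SV P hP S (c ++ [X]) u v' := Iff.rfl

theorem sv_append (u u' c v : List (V P)) : SV P hP S c (u ++ u') v ↔
    ∃ v1 v2 : List (V P), v = v1 ++ v2 ∧ SV P hP S c u v1 ∧ SV P hP S (c ++ u) u' v2 :=
  sf_append (FG P hP S) u u' c v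

theorem stepV (u v : List (V P)) : StepV P hP S u v ↔ u ≠ [] ∧ SV P hP S [] u v :=
  step_iff (FG P hP S) u v

/-- the context `c` has exactly the phase marker `m` -/
def Ph (m : NN P) (c : List (V P)) : Prop := nt P m ∈ c ∧ ∀ A, mrk A → nt P A ∈ c → A = m

omit [Finite T] [Finite N] in
theorem Ph.snoc {m : NN P} {c : List (V P)} (h : Ph P m c) {X : V P}
    (hX : ∀ A, mrk A → nt P A ≠ X) : Ph P m (c ++ [X]) := by
  refine ⟨List.mem_append_left _ h.1, ?_⟩
  intro A hA hc
  rcases List.mem_append.1 hc with hc | hc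
  · exact h.2 A hA hc
  · exact absurd (List.mem_singleton.1 hc) (hX A hA)

omit [Finite T] [Finite N] in
theorem Ph.append {m : NN P} {c u : List (V P)} (h : Ph P m c)
    (hu : ∀ A, mrk A → nt P A ∉ u) : Ph P m (c ++ u) := by
  refine ⟨List.mem_append_left _ h.1, ?_⟩
  intro A hA hc
  rcases List.mem_append.1 hc with hc | hc
  · exact h.2 A hA hc
  · exact absurd hc (hu A hA)

omit [Finite T] [Finite N] in
theorem Ph.start (m : NN P) : Ph P m [nt P m] := by
  refine ⟨List.mem_singleton.2 rfl, ?_⟩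
  intro A _ hc
  have := List.mem_singleton.1 hc
  simpa using this

omit [Finite T] [Finite N] in
theorem Ph.oth_not {m m' : NN P} {c : List (V P)} (h : Ph P m c) (hm : mrk m) :
    (∀ A ∈ oth m', nt P A ∉ c) ↔ m = m' := by
  constructor
  · intro h1
    by_contra hne
    exact h1 m ⟨hm, hne⟩ h.1
  · rintro rfl A ⟨hA, hne⟩ hc
    exact hne (h.2 A hA hc)

omit [Finite T] [Finite N] in
theorem emb_mrk (X : Symbol T N) (A : NN P) (hA : mrk A) : nt P A ≠ emb P X := by
  cases X <;> cases A <;> simp_all [emb, mrk]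

omit [Finite T] [Finite N] in
theorem emb_inj : Function.Injective (emb P : Symbol T N → V P) := by
  intro x y h
  cases x <;> cases y <;> simp [emb] at h <;> rw [h]

omit [Finite T] [Finite N] in
theorem mrk_not_mem (u : List (Symbol T N)) (A : NN P) (hA : mrk A) : nt P A ∉ u.map (emb P) := by
  intro h
  obtain ⟨X, _, hX⟩ := List.mem_map.1 h
  exact emb_mrk P X A hA hX.symm

omit [Finite T] [Finite N] in
theorem mem_emb (u : List (Symbol T N)) (B : N) :
    nt P (.old B) ∈ u.map (emb P) ↔ Symbol.nonterminal B ∈ u := by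
  constructor
  · intro h
    obtain ⟨X, hX, hX'⟩ := List.mem_map.1 h
    cases X with
    | terminal t => simp [emb] at hX'
    | nonterminal A =>
      simp only [emb, Symbol.nonterminal.injEq, NN.old.injEq] at hX'
      rw [← hX']
      exact hX
  · intro h
    exact List.mem_map.2 ⟨_, h, rfl⟩

/-! ### phase `c` -/

theorem sf_c (u : List (Symbol T N)) : ∀ (c v : List (V P)), Ph P .c c →
    SV P hP S c (u.map (emb P)) v → v = u.map (emb P) := by
  induction u with
  | nil => intro c v _ h; exact h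
  | cons X u ih =>
    intro c v hc h
    obtain ⟨y, v', rfl, h1, h2⟩ := (sv_cons P hP S _ _ _ _).1 h
    rw [ih _ _ (hc.snoc P (emb_mrk P X)) h2]
    obtain ⟨W, h1, h3⟩ := (ok_iff P hP S _ _ _).1 h1
    cases X with
    | terminal t => cases h1; rfl
    | nonterminal A =>
      cases h1 with
      | old => rfl
      | mark r =>
        have := (hc.oth_not P trivial).1 h3
        simp at this

theorem mk_c (u : List (Symbol T N)) : ∀ (c : List (V P)), Ph P .c c →
    SV P hP S c (u.map (emb P)) (u.map (emb P)) := by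
  induction u with
  | nil => intro c _; rfl
  | cons X u ih =>
    intro c hc
    refine (sv_cons P hP S _ _ _ _).2 ⟨[emb P X], _, rfl, ?_, ih _ (hc.snoc P (emb_mrk P X))⟩
    cases X with
    | terminal t => exact (ok_iff P hP S _ _ _).2 ⟨∅, .ter t, by simp⟩
    | nonterminal A =>
      refine (ok_iff P hP S _ _ _).2 ⟨_, .old A, ?_⟩
      rintro B rfl hB
      have := hc.2 .fin trivial hB
      simp at this

/-! ### phase `fin` -/

theorem sf_fin (u : List (Symbol T N)) : ∀ (c v : List (V P)), Ph P .fin c →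
    SV P hP S c (u.map (emb P)) v → ∃ w : List T, u = w.map Symbol.terminal ∧
      v = w.map Symbol.terminal := by
  induction u with
  | nil => intro c v _ h; exact ⟨[], rfl, h⟩
  | cons X u ih =>
    intro c v hc h
    obtain ⟨y, v', rfl, h1, h2⟩ := (sv_cons P hP S _ _ _ _).1 h
    obtain ⟨w, rfl, rfl⟩ := ih _ _ (hc.snoc P (emb_mrk P X)) h2
    obtain ⟨W, h1, h3⟩ := (ok_iff P hP S _ _ _).1 h1
    cases X with
    | terminal t => cases h1; exact ⟨t :: w, rfl, rfl⟩
    | nonterminal A =>
      exfalso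
      cases h1 with
      | old => exact h3 .fin rfl hc.1
      | mark r =>
        have := (hc.oth_not P trivial).1 h3
        simp at this

theorem mk_fin (w : List T) : ∀ (c : List (V P)),
    SV P hP S c (w.map Symbol.terminal) (w.map Symbol.terminal) := by
  induction w with
  | nil => intro c; rfl
  | cons t w ih =>
    intro c
    exact (sv_cons P hP S _ _ _ _).2 ⟨[Symbol.terminal t], _, rfl,
      (ok_iff P hP S _ _ _).2 ⟨∅, .ter t, by simp⟩, ih _⟩

/-! ### phase `p1` -/

/-- `v` arises from `u` by marking some occurrences for the rule `r` -/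
inductive Mk (r : P) : List (Symbol T N) → List (V P) → Prop
  | nil : Mk r [] []
  | keep (X : Symbol T N) {u : List (Symbol T N)} {v : List (V P)} (h : Mk r u v) :
      Mk r (X :: u) (emb P X :: v)
  | mark {u : List (Symbol T N)} {v : List (V P)} (h : Mk r u v) :
      Mk r (Symbol.nonterminal r.1.1 :: u) (nt P (.mkd r) :: v)

theorem sf_p1 (r : P) (u : List (Symbol T N)) : ∀ (c v : List (V P)), Ph P (.p1 r) c →
    SV P hP S c (u.map (emb P)) v → Mk P r u v := by
  induction u with
  | nil =>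
    intro c v _ h
    have : v = [] := h
    subst this
    exact .nil
  | cons X u ih =>
    intro c v hc h
    obtain ⟨y, v', rfl, h1, h2⟩ := (sv_cons P hP S _ _ _ _).1 h
    have h4 := ih _ _ (hc.snoc P (emb_mrk P X)) h2
    obtain ⟨W, h1, h3⟩ := (ok_iff P hP S _ _ _).1 h1
    cases X with
    | terminal t => cases h1; exact .keep _ h4
    | nonterminal A =>
      cases h1 with
      | old => exact .keep _ h4
      | mark r' =>
        have := (hc.oth_not P trivial).1 h3
        simp only [NN.p1.injEq] at this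
        subst this
        exact .mark h4

theorem mk_p1 (r : P) (u : List (Symbol T N)) : ∀ (c : List (V P)), Ph P (.p1 r) c →
    SV P hP S c (u.map (emb P)) (u.map (emb P)) := by
  induction u with
  | nil => intro c _; rfl
  | cons X u ih =>
    intro c hc
    refine (sv_cons P hP S _ _ _ _).2 ⟨[emb P X], _, rfl, ?_, ih _ (hc.snoc P (emb_mrk P X))⟩
    cases X with
    | terminal t => exact (ok_iff P hP S _ _ _).2 ⟨∅, .ter t, by simp⟩
    | nonterminal A =>
      refine (ok_iff P hP S _ _ _).2 ⟨_, .old A, ?_⟩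
      rintro B rfl hB
      have := hc.2 .fin trivial hB
      simp at this

theorem mk_p1' (r : P) (u v : List (Symbol T N)) (c : List (V P)) (hc : Ph P (.p1 r) c) :
    SV P hP S c ((u ++ [Symbol.nonterminal r.1.1] ++ v).map (emb P))
      (u.map (emb P) ++ [nt P (.mkd r)] ++ v.map (emb P)) := by
  rw [List.map_append, List.map_append, sv_append]
  refine ⟨_, _, rfl, ?_, mk_p1 P hP S r v _ ?_⟩
  · rw [sv_append]
    refine ⟨_, _, rfl, mk_p1 P hP S r u _ hc, ?_⟩
    refine (sv_cons P hP S _ _ _ _).2 ⟨[nt P (.mkd r)], [], rfl, ?_, rfl⟩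
    refine (ok_iff P hP S _ _ _).2 ⟨_, .mark r, ?_⟩
    exact ((hc.append P (mrk_not_mem P u)).oth_not P trivial).2 rfl
  · refine hc.append P ?_
    intro A hA h
    rcases List.mem_append.1 h with h | h
    · exact mrk_not_mem P u A hA h
    · exact emb_mrk P (Symbol.nonterminal r.1.1) A hA (by simpa using h)

/-! ### phase `p2` -/

omit [Finite T] [Finite N] in
theorem Mk.mrk_not {r : P} {u : List (Symbol T N)} {v : List (V P)} (h : Mk P r u v) (A : NN P)
    (hA : mrk A) : nt P A ∉ v := by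
  induction h with
  | nil => simp
  | keep X _ ih =>
    intro h
    rcases List.mem_cons.1 h with h | h
    · exact emb_mrk P X A hA h
    · exact ih h
  | mark _ ih =>
    intro h
    rcases List.mem_cons.1 h with h | h
    · simp only [Symbol.nonterminal.injEq] at h
      subst h
      exact hA
    · exact ih h

theorem sf_p2 (r : P) {u : List (Symbol T N)} {w : List (V P)} (hu : Mk P r u w) :
    ∀ (c v : List (V P)), Ph P (.p2 r) c → SV P hP S c w v →
      ((v = u.map (emb P)) ∨ ((∀ s, nt P (.mkd s) ∉ c) ∧ ∃ u1 u2 : List (Symbol T N),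
        u = u1 ++ [Symbol.nonterminal r.1.1] ++ u2 ∧
        v = (u1 ++ r.1.2.1 ++ u2).map (emb P))) := by
  induction hu with
  | nil => intro c v _ h; left; exact h
  | keep X hu ih =>
    intro c v hc h
    obtain ⟨y, v', rfl, h1, h2⟩ := (sv_cons P hP S _ _ _ _).1 h
    have h5 : y = [emb P X] := by
      obtain ⟨W, h1, h3⟩ := (ok_iff P hP S _ _ _).1 h1
      cases X with
      | terminal t => cases h1; rfl
      | nonterminal A =>
        cases h1 with
        | old => rfl
        | mark r =>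
          have := (hc.oth_not P trivial).1 h3
          simp at this
    subst h5
    rcases ih _ _ (hc.snoc P (emb_mrk P X)) h2 with rfl | ⟨h6, u1, u2, rfl, rfl⟩
    · left; rfl
    · right
      refine ⟨fun s hs => h6 s (List.mem_append_left _ hs), X :: u1, u2, rfl, by simp⟩
  | mark hu ih =>
    intro c v hc h
    obtain ⟨y, v', rfl, h1, h2⟩ := (sv_cons P hP S _ _ _ _).1 h
    rcases ih _ _ (hc.snoc P (by rintro A hA h; simp only [Symbol.nonterminal.injEq] at h; subst h; exact hA)) h2
      with rfl | ⟨h6, _⟩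
    · obtain ⟨W, h1, h3⟩ := (ok_iff P hP S _ _ _).1 h1
      cases h1
      right
      refine ⟨fun s hs => h3 _ (Or.inr ⟨s, rfl⟩) hs, [], _, rfl, by simp⟩
    · exact absurd (List.mem_append_right _ (List.mem_singleton.2 rfl)) (h6 r)

theorem mk_p2 (r : P) (u : List (Symbol T N)) : ∀ (c : List (V P)), Ph P (.p2 r) c →
    SV P hP S c (u.map (emb P)) (u.map (emb P)) := by
  induction u with
  | nil => intro c _; rfl
  | cons X u ih =>
    intro c hc
    refine (sv_cons P hP S _ _ _ _).2 ⟨[emb P X], _, rfl, ?_, ih _ (hc.snoc P (emb_mrk P X))⟩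
    cases X with
    | terminal t => exact (ok_iff P hP S _ _ _).2 ⟨∅, .ter t, by simp⟩
    | nonterminal A =>
      refine (ok_iff P hP S _ _ _).2 ⟨_, .old A, ?_⟩
      rintro B rfl hB
      have := hc.2 .fin trivial hB
      simp at this

theorem mk_p2' (r : P) (u v : List (Symbol T N)) (c : List (V P)) (hc : Ph P (.p2 r) c)
    (hc' : ∀ s, nt P (.mkd s) ∉ c) :
    SV P hP S c (u.map (emb P) ++ [nt P (.mkd r)] ++ v.map (emb P))
      ((u ++ r.1.2.1 ++ v).map (emb P)) := by
  rw [List.map_append, List.map_append, sv_append]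
  refine ⟨_, _, rfl, ?_, mk_p2 P hP S r v _ ?_⟩
  · rw [sv_append]
    refine ⟨_, _, rfl, mk_p2 P hP S r u _ hc, ?_⟩
    refine (sv_cons P hP S _ _ _ _).2 ⟨r.1.2.1.map (emb P), [], by simp, ?_, rfl⟩
    refine (ok_iff P hP S _ _ _).2 ⟨_, .app r, ?_⟩
    rintro A (hA | ⟨s, rfl⟩)
    · exact ((hc.append P (mrk_not_mem P u)).oth_not P trivial).2 rfl A hA
    · intro h
      rcases List.mem_append.1 h with h | h
      · exact hc' s h
      · obtain ⟨X, _, hX⟩ := List.mem_map.1 h
        cases X <;> simp [emb] at hX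
  · refine hc.append P ?_
    intro A hA h
    rcases List.mem_append.1 h with h | h
    · exact mrk_not_mem P u A hA h
    · have := List.mem_singleton.1 h
      simp only [Symbol.nonterminal.injEq] at this
      subst this
      exact hA

/-! ### the sentential forms -/

/-- the sentential forms -/
inductive Frm : List (V P) → Prop
  | c (u : List (Symbol T N)) (h : ReflTransGen (Step P) [Symbol.nonterminal S] u) :
      Frm (nt P .c :: (u.map (emb P) ++ [nt P .R]))
  | p1 (r : P) (u : List (Symbol T N)) (h : ReflTransGen (Step P) [Symbol.nonterminal S] u) :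
      Frm (nt P (.p1 r) :: (u.map (emb P) ++ [nt P .R]))
  | p2 (r : P) (u : List (Symbol T N)) (v : List (V P))
      (h : ReflTransGen (Step P) [Symbol.nonterminal S] u) (hv : Mk P r u v)
      (hF : ∀ B ∈ r.1.2.2, Symbol.nonterminal B ∉ u) :
      Frm (nt P (.p2 r) :: (v ++ [nt P .R]))
  | fin (u : List (Symbol T N)) (h : ReflTransGen (Step P) [Symbol.nonterminal S] u) :
      Frm (nt P .fin :: (u.map (emb P) ++ [nt P .R]))
  | ter (w : List T) (h : ReflTransGen (Step P) [Symbol.nonterminal S] (w.map Symbol.terminal)) :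
      Frm (w.map Symbol.terminal)

theorem sf_ter (w : List T) : ∀ (c v : List (V P)),
    SV P hP S c (w.map Symbol.terminal) v → v = w.map Symbol.terminal := by
  induction w with
  | nil => intro c v h; exact h
  | cons t w ih =>
    intro c v h
    obtain ⟨y, v', rfl, h1, h2⟩ := (sv_cons P hP S _ _ _ _).1 h
    obtain ⟨W, h1, h3⟩ := (ok_iff P hP S _ _ _).1 h1
    cases h1
    rw [ih _ _ h2]
    rfl

theorem sv_R (c v : List (V P)) (h : SV P hP S c [nt P .R] v) :
    (v = [nt P .R] ∧ nt P .fin ∉ c ∧ (∀ r, nt P (.p1 r) ∉ c)) ∨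
    (∃ r : P, v = [nt P .R] ∧ (∀ B ∈ r.1.2.2, nt P (.old B) ∉ c) ∧
      (∀ A ∈ oth (.p1 r), nt P A ∉ c)) ∨
    (v = [] ∧ ∀ A ∈ oth .fin, nt P A ∉ c) := by
  obtain ⟨y, v', rfl, h1, h2⟩ := (sv_cons P hP S _ _ _ _).1 h
  have h2' : v' = [] := h2
  subst h2'
  obtain ⟨W, h1, h3⟩ := (ok_iff P hP S _ _ _).1 h1
  cases h1 with
  | R1 =>
    left
    exact ⟨by simp, h3 _ (Or.inl rfl), fun r => h3 _ (Or.inr ⟨r, rfl⟩)⟩
  | R2 r =>
    right; left
    exact ⟨r, by simp, fun B hB => h3 _ (Or.inl ⟨B, hB, rfl⟩), fun A hA => h3 _ (Or.inr hA)⟩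
  | R3 =>
    right; right
    exact ⟨by simp, h3⟩

theorem Frm_step {w w' : List (V P)} (hw : Frm P S w) (h : StepV P hP S w w') : Frm P S w' := by
  rw [stepV] at h
  obtain ⟨_, h⟩ := h
  cases hw with
  | c u hu =>
    obtain ⟨y, v', rfl, h1, h2⟩ := (sv_cons P hP S _ _ _ _).1 h
    obtain ⟨v1, v2, rfl, h3, h4⟩ := (sv_append P hP S _ _ _ _).1 h2
    have h5 := sf_c P hP S u _ _ (Ph.start P _) h3
    subst h5
    have h6 : v2 = [nt P .R] := by
      rcases sv_R P hP S _ _ h4 with ⟨h, _⟩ | ⟨_, h, _⟩ | ⟨_, h⟩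
      · exact h
      · exact h
      · have h7 := (Ph.start P NN.c).append P (mrk_not_mem P u)
        have := (h7.oth_not P trivial).1 h
        simp at this
    subst h6
    obtain ⟨W, h1, _⟩ := (ok_iff P hP S _ _ _).1 h1
    cases h1 with
    | c1 r => exact .p1 r u hu
    | c2 => exact .fin u hu
  | p1 r u hu =>
    obtain ⟨y, v', rfl, h1, h2⟩ := (sv_cons P hP S _ _ _ _).1 h
    obtain ⟨v1, v2, rfl, h3, h4⟩ := (sv_append P hP S _ _ _ _).1 h2
    have h5 := sf_p1 P hP S r u _ _ (Ph.start P _) h3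
    have h7 := (Ph.start P (NN.p1 r)).append P (mrk_not_mem P u)
    have h6 : v2 = [nt P .R] ∧ ∀ B ∈ r.1.2.2, Symbol.nonterminal B ∉ u := by
      rcases sv_R P hP S _ _ h4 with ⟨_, _, h⟩ | ⟨r', h, h8, h9⟩ | ⟨_, h⟩
      · exact absurd (List.mem_cons_self) (h r)
      · have := (h7.oth_not P trivial).1 h9
        simp only [NN.p1.injEq] at this
        subst this
        refine ⟨h, fun B hB hBu => h8 B hB ?_⟩
        exact List.mem_cons_of_mem _ ((mem_emb P u B).2 hBu)
      · have := (h7.oth_not P trivial).1 h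
        simp at this
    obtain ⟨rfl, h8⟩ := h6
    obtain ⟨W, h1, _⟩ := (ok_iff P hP S _ _ _).1 h1
    cases h1
    exact .p2 r u v1 hu h5 h8
  | p2 r u v hu hv hF =>
    obtain ⟨y, v', rfl, h1, h2⟩ := (sv_cons P hP S _ _ _ _).1 h
    obtain ⟨v1, v2, rfl, h3, h4⟩ := (sv_append P hP S _ _ _ _).1 h2
    have h5 := sf_p2 P hP S r hv _ _ (Ph.start P _) h3
    have h7 := (Ph.start P (NN.p2 r)).append P (fun A hA => hv.mrk_not P A hA)
    have h6 : v2 = [nt P .R] := by
      rcases sv_R P hP S _ _ h4 with ⟨h, _⟩ | ⟨_, h, _⟩ | ⟨_, h⟩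
      · exact h
      · exact h
      · have := (h7.oth_not P trivial).1 h
        simp at this
    subst h6
    obtain ⟨W, h1, _⟩ := (ok_iff P hP S _ _ _).1 h1
    cases h1
    rcases h5 with rfl | ⟨_, u1, u2, rfl, rfl⟩
    · exact .c u hu
    · refine .c _ (hu.tail ⟨u1, u2, r.1.1, r.1.2.1, r.1.2.2, r.2, rfl, rfl, hF⟩)
  | fin u hu =>
    obtain ⟨y, v', rfl, h1, h2⟩ := (sv_cons P hP S _ _ _ _).1 h
    obtain ⟨v1, v2, rfl, h3, h4⟩ := (sv_append P hP S _ _ _ _).1 h2
    obtain ⟨w, rfl, rfl⟩ := sf_fin P hP S u _ _ (Ph.start P _) h3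
    have h7 := (Ph.start P (NN.fin)).append P (mrk_not_mem P (w.map Symbol.terminal))
    have h6 : v2 = [] := by
      rcases sv_R P hP S _ _ h4 with ⟨_, h, _⟩ | ⟨r', _, _, h⟩ | ⟨h, _⟩
      · exact absurd (List.mem_cons_self) h
      · have := (h7.oth_not P trivial).1 h
        simp at this
      · exact h
    subst h6
    obtain ⟨W, h1, _⟩ := (ok_iff P hP S _ _ _).1 h1
    cases h1
    rw [List.nil_append, List.append_nil]
    exact .ter w hu
  | ter w hu =>
    rw [sf_ter P hP S w _ _ h]
    exact .ter w hu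

theorem sound {w : List T} (hw : w ∈ (FG P hP S).lang) : Gen P S w := by
  have hF : Frm P S (w.map Symbol.terminal : List (V P)) := by
    have key : ∀ z, Relation.ReflTransGen (StepV P hP S)
        [nt P .c, nt P (.old S), nt P .R] z → Frm P S z := by
      intro z hz
      induction hz with
      | refl => exact .c [Symbol.nonterminal S] .refl
      | tail _ h ih => exact Frm_step P hP S ih h
    exact key _ hw
  have hnt : ∀ (A : NN P) (l : List (V P)),
      (w.map Symbol.terminal : List (V P)) ≠ Symbol.nonterminal A :: l := by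
    intro A l hA
    cases w with
    | nil => simp at hA
    | cons a w => simp at hA
  generalize hz : (w.map Symbol.terminal : List (V P)) = z at hF
  cases hF with
  | c u hu => exact absurd hz (hnt _ _)
  | p1 r u hu => exact absurd hz (hnt _ _)
  | p2 r u v hu hv hF => exact absurd hz (hnt _ _)
  | fin u hu => exact absurd hz (hnt _ _)
  | ter w' hu =>
    have : w = w' := List.map_injective_iff.2 (fun x y h => Symbol.terminal.inj h) hz
    subst this
    exact hu

/-! ### completeness -/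

theorem mk_R_c (c : List (V P)) (h1 : nt P .fin ∉ c) (h2 : ∀ r, nt P (.p1 r) ∉ c) :
    SV P hP S c [nt P .R] [nt P .R] := by
  refine (sv_cons P hP S _ _ _ _).2 ⟨[nt P .R], [], rfl, (ok_iff P hP S _ _ _).2 ⟨_, .R1, ?_⟩, rfl⟩
  rintro A (rfl | ⟨r, rfl⟩)
  · exact h1
  · exact h2 r

theorem step_c {u v : List (Symbol T N)} (h : Step P u v) :
    ReflTransGen (StepV P hP S) (nt P .c :: (u.map (emb P) ++ [nt P .R]))
      (nt P .c :: (v.map (emb P) ++ [nt P .R])) := by
  obtain ⟨a, b, A, x, F, hr, rfl, rfl, hF⟩ := h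
  obtain ⟨r, hr'⟩ : ∃ r : P, r.1 = (A, x, F) := ⟨⟨_, hr⟩, rfl⟩
  have hA : A = r.1.1 := by rw [hr']
  have hx : x = r.1.2.1 := by rw [hr']
  have hF' : ∀ B ∈ r.1.2.2, Symbol.nonterminal B ∉ a ++ [Symbol.nonterminal A] ++ b := by
    rw [hr']
    exact hF
  subst hA hx
  have s1 : StepV P hP S
      (nt P .c :: ((a ++ [Symbol.nonterminal r.1.1] ++ b).map (emb P) ++ [nt P .R]))
      (nt P (.p1 r) :: ((a ++ [Symbol.nonterminal r.1.1] ++ b).map (emb P) ++ [nt P .R])) := by
    refine (stepV P hP S _ _).2 ⟨by simp, (sv_cons P hP S _ _ _ _).2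
      ⟨[nt P (.p1 r)], _, rfl, (ok_iff P hP S _ _ _).2 ⟨_, .c1 r, by simp⟩, ?_⟩⟩
    refine (sv_append P hP S _ _ _ _).2 ⟨_, _, rfl, mk_c P hP S _ _ (Ph.start P _), ?_⟩
    have h7 := (Ph.start P (NN.c)).append P
      (mrk_not_mem P (a ++ [Symbol.nonterminal r.1.1] ++ b))
    refine mk_R_c P hP S _ ?_ ?_
    · intro h
      have := h7.2 .fin trivial h
      simp at this
    · intro r h
      have := h7.2 (.p1 r) trivial h
      simp at this
  have s2 : StepV P hP S
      (nt P (.p1 r) :: ((a ++ [Symbol.nonterminal r.1.1] ++ b).map (emb P) ++ [nt P .R]))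
      (nt P (.p2 r) :: ((a.map (emb P) ++ [nt P (.mkd r)] ++ b.map (emb P)) ++ [nt P .R])) := by
    refine (stepV P hP S _ _).2 ⟨by simp, (sv_cons P hP S _ _ _ _).2
      ⟨[nt P (.p2 r)], _, rfl, (ok_iff P hP S _ _ _).2 ⟨_, .p12 r, by simp⟩, ?_⟩⟩
    refine (sv_append P hP S _ _ _ _).2 ⟨_, _, rfl, mk_p1' P hP S r a b _ (Ph.start P _), ?_⟩
    have h7 := (Ph.start P (NN.p1 r)).append P
      (mrk_not_mem P (a ++ [Symbol.nonterminal r.1.1] ++ b))
    refine (sv_cons P hP S _ _ _ _).2 ⟨[nt P .R], [], rfl, (ok_iff P hP S _ _ _).2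
      ⟨_, .R2 r, ?_⟩, rfl⟩
    rintro B (⟨B, hB, rfl⟩ | hB)
    · intro h
      rcases List.mem_append.1 h with h | h
      · have := List.mem_singleton.1 h
        simp at this
      · exact hF' B hB ((mem_emb P _ B).1 h)
    · exact (h7.oth_not P trivial).2 rfl B hB
  have s3 : StepV P hP S
      (nt P (.p2 r) :: ((a.map (emb P) ++ [nt P (.mkd r)] ++ b.map (emb P)) ++ [nt P .R]))
      (nt P .c :: ((a ++ r.1.2.1 ++ b).map (emb P) ++ [nt P .R])) := by
    refine (stepV P hP S _ _).2 ⟨by simp, (sv_cons P hP S _ _ _ _).2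
      ⟨[nt P .c], _, rfl, (ok_iff P hP S _ _ _).2 ⟨_, .p2c r, by simp⟩, ?_⟩⟩
    refine (sv_append P hP S _ _ _ _).2 ⟨_, _, rfl, mk_p2' P hP S r a b _ (Ph.start P _) ?_, ?_⟩
    · intro s h
      have := List.mem_singleton.1 h
      simp at this
    · have h8 : ∀ A, mrk A → nt P A ∉ a.map (emb P) ++ [nt P (.mkd r)] ++ b.map (emb P) := by
        intro A hA h
        rcases List.mem_append.1 h with h | h
        · rcases List.mem_append.1 h with h | h
          · exact mrk_not_mem P a A hA h
          · have := List.mem_singleton.1 h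
            simp only [Symbol.nonterminal.injEq] at this
            subst this
            exact hA
        · exact mrk_not_mem P b A hA h
      have h7 := (Ph.start P (NN.p2 r)).append P h8
      refine mk_R_c P hP S _ ?_ ?_
      · intro h
        have := h7.2 .fin trivial h
        simp at this
      · intro r h
        have := h7.2 (.p1 r) trivial h
        simp at this
  exact ((ReflTransGen.single s1).tail s2).tail s3

theorem complete {w : List T} (hw : Gen P S w) : w ∈ (FG P hP S).lang := by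
  have h1 : ∀ u, ReflTransGen (Step P) [Symbol.nonterminal S] u →
      ReflTransGen (StepV P hP S) [nt P .c, nt P (.old S), nt P .R]
        (nt P .c :: (u.map (emb P) ++ [nt P .R])) := by
    intro u hu
    induction hu with
    | refl => exact .refl
    | tail _ h ih => exact ih.trans (step_c P hP S h)
  have h2 := h1 _ hw
  have e1 : ((w.map Symbol.terminal : List (Symbol T N)).map (emb P) : List (V P)) =
      w.map Symbol.terminal := by
    rw [List.map_map]
    rfl
  rw [e1] at h2
  have hm : ∀ A, mrk A → nt P A ∉ (w.map Symbol.terminal : List (V P)) := by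
    intro A _ h
    obtain ⟨x, _, hx⟩ := List.mem_map.1 h
    simp at hx
  have s1 : StepV P hP S (nt P .c :: (w.map Symbol.terminal ++ [nt P .R]))
      (nt P .fin :: (w.map Symbol.terminal ++ [nt P .R])) := by
    refine (stepV P hP S _ _).2 ⟨by simp, (sv_cons P hP S _ _ _ _).2
      ⟨[nt P .fin], _, rfl, (ok_iff P hP S _ _ _).2 ⟨_, .c2, by simp⟩, ?_⟩⟩
    refine (sv_append P hP S _ _ _ _).2 ⟨_, _, rfl, mk_fin P hP S w _, ?_⟩
    have h7 := (Ph.start P (NN.c)).append P hm
    refine mk_R_c P hP S _ ?_ ?_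
    · intro h
      have := h7.2 .fin trivial h
      simp at this
    · intro r h
      have := h7.2 (.p1 r) trivial h
      simp at this
  have s2 : StepV P hP S (nt P .fin :: (w.map Symbol.terminal ++ [nt P .R]))
      (w.map Symbol.terminal) := by
    refine (stepV P hP S _ _).2 ⟨by simp, (sv_cons P hP S _ _ _ _).2
      ⟨[], _, rfl, (ok_iff P hP S _ _ _).2 ⟨_, .fin, by simp⟩, ?_⟩⟩
    refine (sv_append P hP S _ _ _ _).2 ⟨_, [], by simp, mk_fin P hP S w _, ?_⟩
    have h7 := (Ph.start P (NN.fin)).append P hm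
    exact (sv_cons P hP S _ _ _ _).2 ⟨[], [], rfl, (ok_iff P hP S _ _ _).2
      ⟨_, .R3, (h7.oth_not P trivial).2 rfl⟩, rfl⟩
  exact (h2.tail s1).tail s2

include hP in
/-- The languages of forbidding grammars with erasing rules are left forbidding E0L languages. -/
theorem lf_of_forbidding : IsLFE0L {w | Gen P S w} := by
  refine ⟨FG P hP S, fun r hr => hr.1, ?_⟩
  ext w
  exact ⟨sound P hP S, complete P hP S⟩

end Pool.Agent.Q314.ET.Forb
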