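import Pool.Agent.Q314.ET.Two

/-!
# ET0L grammars and left random context E0L grammars
-/

set_option autoImplicit false

namespace Pool.Agent.Q314.ET

/-- An ET0L grammar with terminal alphabet `T`: finite set `N` of nonterminals, total alphabet
`V = T ∪ N`, finitely many (at least one) tables `P h`, each a finite set of rules `X → y`
containing a rule for every `X` in `V`, and a nonempty axiom. -/
structure ET0LGrammar (T : Type) where
  N : Type
  finN : Finite N
  ι : Type
  finι : Finite ι
  neι : Nonempty ι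
  P : ι → Set (Symbol T N × List (Symbol T N))
  finP : ∀ h, (P h).Finite
  complete : ∀ h X, ∃ y, (X, y) ∈ P h
  ax : List (Symbol T N)
  ax_ne : ax ≠ []

/-- A derivation step of an ET0L grammar: `u = X₁ ⋯ X_k` with `k ≥ 1`, `v = y₁ ⋯ y_k`, and one
table contains all the rules `X_i → y_i`. -/
def ET0LGrammar.Step {T : Type} (G : ET0LGrammar T) (u v : List (Symbol T G.N)) : Prop :=
  u ≠ [] ∧ ∃ (h : G.ι) (ys : List (List (Symbol T G.N))),
    List.Forall₂ (fun X y => (X, y) ∈ G.P h) u ys ∧ v = ys.flatten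

/-- The language of an ET0L grammar. -/
def ET0LGrammar.lang {T : Type} (G : ET0LGrammar T) : Set (List T) :=
  {w | Relation.ReflTransGen G.Step G.ax (w.map Symbol.terminal)}

/-- A left random context E0L grammar with terminal alphabet `T`: finite set `N` of nonterminals, a
finite set of rules `(X → y, U, W)` with `U, W` sets of nonterminals (`U` is the left permitting
and `W` the left forbidding context), and a nonempty axiom. -/
structure LRCGrammar (T : Type) where
  N : Type
  finN : Finite N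
  P : Set (Symbol T N × List (Symbol T N) × Set N × Set N)
  finP : P.Finite
  ax : List (Symbol T N)
  ax_ne : ax ≠ []

/-- A derivation step: `u = X₁ ⋯ X_k` with `k ≥ 1`, `v = y₁ ⋯ y_k`, and for every `i` some rule
`(X_i → y_i, U_i, W_i)` has all nonterminals of `U_i` and no nonterminal of `W_i` in the word
`X₁ ⋯ X_{i-1}`. -/
def LRCGrammar.Step {T : Type} (G : LRCGrammar T) (u v : List (Symbol T G.N)) : Prop :=
  u ≠ [] ∧ ∃ ys : List (List (Symbol T G.N)), ys.length = u.length ∧ v = ys.flatten ∧
    ∀ (i : ℕ) (hi : i < u.length) (hi' : i < ys.length), ∃ U W : Set G.N,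
      (u[i], ys[i], U, W) ∈ G.P ∧ (∀ A ∈ U, Symbol.nonterminal A ∈ u.take i) ∧
      ∀ A ∈ W, Symbol.nonterminal A ∉ u.take i

/-- The language of a left random context E0L grammar. -/
def LRCGrammar.lang {T : Type} (G : LRCGrammar T) : Set (List T) :=
  {w | Relation.ReflTransGen G.Step G.ax (w.map Symbol.terminal)}

/-- `L` is generated by an ET0L grammar. -/
def IsET0L {T : Type} (L : Set (List T)) : Prop := ∃ G : ET0LGrammar T, G.lang = L

/-- `L` is generated by a left forbidding E0L grammar (all permitting contexts are empty). -/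
def IsLFE0L {T : Type} (L : Set (List T)) : Prop :=
  ∃ G : LRCGrammar T, (∀ r ∈ G.P, r.2.2.1 = ∅) ∧ G.lang = L

/-- `L` is generated by a propagating left forbidding E0L grammar (no rule `X → ε`). -/
def IsLFEP0L {T : Type} (L : Set (List T)) : Prop :=
  ∃ G : LRCGrammar T, (∀ r ∈ G.P, r.2.2.1 = ∅) ∧ (∀ r ∈ G.P, r.2.1 ≠ []) ∧ G.lang = L

/-- `L` is generated by a left permitting E0L grammar (all forbidding contexts are empty). -/
def IsLPE0L {T : Type} (L : Set (List T)) : Prop :=
  ∃ G : LRCGrammar T, (∀ r ∈ G.P, r.2.2.2 = ∅) ∧ G.lang = L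

/-! ### The recursive form of the steps -/

variable {T : Type}

/-- some rule for `X` with right-hand side `y` is applicable behind `c` -/
def Ok (G : LRCGrammar T) (c : List (Symbol T G.N)) (X : Symbol T G.N)
    (y : List (Symbol T G.N)) : Prop :=
  ∃ U W : Set G.N, (X, y, U, W) ∈ G.P ∧ (∀ A ∈ U, Symbol.nonterminal A ∈ c) ∧
    ∀ A ∈ W, Symbol.nonterminal A ∉ c

/-- a step on a word behind the context `c` -/
def SF (G : LRCGrammar T) : List (Symbol T G.N) → List (Symbol T G.N) → List (Symbol T G.N) → Prop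
  | _, [], v => v = []
  | c, X :: u, v => ∃ y v', v = y ++ v' ∧ Ok G c X y ∧ SF G (c ++ [X]) u v'

theorem sf_iff (G : LRCGrammar T) (u : List (Symbol T G.N)) : ∀ (c v : List (Symbol T G.N)),
    SF G c u v ↔ ∃ ys : List (List (Symbol T G.N)), ys.length = u.length ∧ v = ys.flatten ∧
      ∀ (i : ℕ) (hi : i < u.length) (hi' : i < ys.length), Ok G (c ++ u.take i) u[i] ys[i] := by
  induction u with
  | nil =>
    intro c v
    constructor
    · intro h
      have h' : v = [] := h
      exact ⟨[], rfl, h', fun i hi => absurd hi (by simp)⟩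
    · rintro ⟨ys, h1, h2, _⟩
      have : ys = [] := List.length_eq_zero_iff.1 h1
      subst this
      exact h2
  | cons X u ih =>
    intro c v
    constructor
    · rintro ⟨y, v', rfl, h1, h2⟩
      obtain ⟨ys, h3, rfl, h4⟩ := (ih _ _).1 h2
      refine ⟨y :: ys, by simp [h3], rfl, ?_⟩
      intro i hi hi'
      cases i with
      | zero => simpa using h1
      | succ i =>
        have := h4 i (by simpa using hi) (by simpa using hi')
        simpa [List.append_assoc] using this
    · rintro ⟨ys, h1, rfl, h2⟩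
      cases ys with
      | nil => simp at h1
      | cons y ys =>
        refine ⟨y, ys.flatten, rfl, ?_, ?_⟩
        · have := h2 0 (by simp) (by simp)
          rw [List.take_zero, List.append_nil] at this
          exact this
        · rw [ih]
          refine ⟨ys, by simpa using h1, rfl, ?_⟩
          intro i hi hi'
          have := h2 (i + 1) (by simpa using hi) (by simpa using hi')
          simpa [List.append_assoc] using this

theorem step_iff (G : LRCGrammar T) (u v : List (Symbol T G.N)) :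
    G.Step u v ↔ u ≠ [] ∧ SF G [] u v := by
  rw [sf_iff]
  simp only [List.nil_append]
  rfl

theorem sf_append (G : LRCGrammar T) (u u' : List (Symbol T G.N)) :
    ∀ (c v : List (Symbol T G.N)), SF G c (u ++ u') v ↔
      ∃ v1 v2, v = v1 ++ v2 ∧ SF G c u v1 ∧ SF G (c ++ u) u' v2 := by
  induction u with
  | nil =>
    intro c v
    constructor
    · intro h
      exact ⟨[], v, rfl, rfl, by simpa using h⟩
    · rintro ⟨v1, v2, rfl, h1, h2⟩
      have h1' : v1 = [] := h1
      subst h1'
      simpa using h2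
  | cons X u ih =>
    intro c v
    constructor
    · rintro ⟨y, v', rfl, h1, h2⟩
      obtain ⟨v1, v2, rfl, h3, h4⟩ := (ih _ _).1 h2
      exact ⟨y ++ v1, v2, by simp, ⟨y, v1, rfl, h1, h3⟩, by simpa using h4⟩
    · rintro ⟨v1, v2, rfl, ⟨y, v', rfl, h1, h2⟩, h4⟩
      exact ⟨y, v' ++ v2, by simp, h1, (ih _ _).2 ⟨v', v2, rfl, h2, by simpa using h4⟩⟩

/-! ### ET0L grammars and table sequences -/

/-- the rules as a relation -/
def rel (G : ET0LGrammar T) : G.ι → Symbol T G.N → List (Symbol T G.N) → Prop :=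
  fun h X y => (X, y) ∈ G.P h

theorem dl_of_reach (G : ET0LGrammar T) {u v : List (Symbol T G.N)}
    (h : Relation.ReflTransGen G.Step u v) : ∃ τ, DL (rel G) τ u v := by
  induction h with
  | refl => exact ⟨[], rfl⟩
  | tail _ h ih =>
    obtain ⟨τ, hτ⟩ := ih
    obtain ⟨_, i, ys, h1, h2⟩ := h
    exact ⟨τ ++ [i], hτ.comp ⟨_, ⟨ys, h1, h2⟩, rfl⟩⟩

theorem reach_of_dl (G : ET0LGrammar T) : ∀ (τ : List G.ι) (u v : List (Symbol T G.N)),
    DL (rel G) τ u v → Relation.ReflTransGen G.Step u v := by
  intro τ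
  induction τ with
  | nil => intro u v h; have h' : u = v := h; rw [h']
  | cons i τ ih =>
    intro u v h
    obtain ⟨x, hx, h⟩ := h
    by_cases hu : u = []
    · subst hu
      rw [hx.nil_inv] at h
      exact ih _ _ h
    · obtain ⟨ys, h1, h2⟩ := hx
      exact (ih x v h).head ⟨hu, i, ys, h1, h2⟩

theorem bound (G : ET0LGrammar T) : ∃ D : ℕ, 1 ≤ D ∧ ∀ i X y, rel G i X y → y.length ≤ D := by
  have := G.finι
  have hfin : (⋃ i, (fun r : Symbol T G.N × List (Symbol T G.N) => r.2.length) '' (G.P i)).Finite :=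
    Set.finite_iUnion fun i => (G.finP i).image _
  obtain ⟨D, hD⟩ := hfin.bddAbove
  refine ⟨D + 1, by omega, fun i X y h => ?_⟩
  have := hD (Set.mem_iUnion.2 ⟨i, (X, y), h, rfl⟩)
  simp only at this
  omega

theorem map_blk {S : Type} (f : T → S) (a b : T) (n m : ℕ) :
    (blk a b n m).map f = blk (f a) (f b) n m := by
  induction m with
  | zero => rfl
  | succ m ih => rw [blk_succ, blk_succ, List.map_cons, List.map_append, ih, List.map_replicate]

theorem terminal_word {G : ET0LGrammar (Fin 2)} {W : List (Symbol (Fin 2) G.N)}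
    (h : ∀ x ∈ W, x = Symbol.terminal 0 ∨ x = Symbol.terminal 1) :
    ∃ w : List (Fin 2), W = w.map Symbol.terminal := by
  induction W with
  | nil => exact ⟨[], rfl⟩
  | cons x W ih =>
    obtain ⟨w, rfl⟩ := ih (fun y hy => h y (List.mem_cons_of_mem _ hy))
    rcases h x List.mem_cons_self with rfl | rfl
    · exact ⟨0 :: w, rfl⟩
    · exact ⟨1 :: w, rfl⟩

theorem finite_symbol (G : ET0LGrammar (Fin 2)) : Finite (Symbol (Fin 2) G.N) := by
  have := G.finN
  let f : Symbol (Fin 2) G.N → Fin 2 ⊕ G.N := fun s => match s with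
    | .terminal t => Sum.inl t
    | .nonterminal n => Sum.inr n
  refine Finite.of_injective f ?_
  intro s t h
  cases s <;> cases t <;> simp [f] at h <;> rw [h]

/-- A language of words `(a b^n)^m` with `m ≤ n + 1` which contains `(a b^n)^n` for arbitrarily
large `n` is not an ET0L language. -/
theorem not_et0l_first (L : Set (List (Fin 2)))
    (h1 : ∀ w ∈ L, ∃ n m, w = blk 0 1 n m ∧ m ≤ n + 1)
    (h2 : ∀ n, ∃ N ≥ n, blk 0 1 N N ∈ L) : ¬ IsET0L L := by
  classical
  rintro ⟨G, rfl⟩
  obtain ⟨D, hD1, hD⟩ := bound G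
  have := finite_symbol G
  refine not_first (P := rel G) hD1 hD (a := Symbol.terminal 0) (b := Symbol.terminal 1)
    (by simp) G.ax ?_ ?_
  · intro τ W hW hWt
    obtain ⟨w, rfl⟩ := terminal_word hWt
    obtain ⟨n, m, rfl, hnm⟩ := h1 w (reach_of_dl G τ _ _ hW)
    exact ⟨n, m, map_blk _ _ _ _ _, hnm⟩
  · intro n
    obtain ⟨N, hN, hm⟩ := h2 n
    obtain ⟨τ, hτ⟩ := dl_of_reach G hm
    rw [map_blk] at hτ
    exact ⟨N, hN, τ, hτ⟩

/-- A language of words `(a b^n)^m` with `n ≤ m` which contains `(a b^n)^n` for arbitrarily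
large `n` is not an ET0L language. -/
theorem not_et0l_second (L : Set (List (Fin 2)))
    (h1 : ∀ w ∈ L, ∃ n m, w = blk 0 1 n m ∧ n ≤ m)
    (h2 : ∀ n, ∃ N ≥ n, blk 0 1 N N ∈ L) : ¬ IsET0L L := by
  classical
  rintro ⟨G, rfl⟩
  obtain ⟨D, hD1, hD⟩ := bound G
  have := finite_symbol G
  refine not_second (P := rel G) hD1 hD (a := Symbol.terminal 0) (b := Symbol.terminal 1)
    (by simp) G.ax ?_ ?_
  · intro τ W hW hWt
    obtain ⟨w, rfl⟩ := terminal_word hWt
    obtain ⟨n, m, rfl, hnm⟩ := h1 w (reach_of_dl G τ _ _ hW)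
    exact ⟨n, m, map_blk _ _ _ _ _, hnm⟩
  · intro n
    obtain ⟨N, hN, hm⟩ := h2 n
    obtain ⟨τ, hτ⟩ := dl_of_reach G hm
    rw [map_blk] at hτ
    exact ⟨N, hN, τ, hτ⟩

end Pool.Agent.Q314.ET
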