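import Pool.Agent.Q314.ET.Gram

/-!
# A left permitting E0L language which is not an ET0L language
-/

set_option autoImplicit false

namespace Pool.Agent.Q314.ET.LP

open Pool.Agent.Q314.ET

/-- The nonterminals: the markers `m0`, `mg`, `mf` of the three phases, unmarked and marked block
heads `x`, `x'`, the symbol `y` for the letter `b` and the symbol `r` at the right end. -/
inductive Nt : Type
  | m0 : Nt
  | mg : Nt
  | mf : Nt
  | x : Nt
  | x' : Nt
  | y : Nt
  | r : Nt
  deriving DecidableEq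

instance : Finite Nt := by
  refine Finite.of_injective (β := Fin 7) (fun n => match n with
    | .m0 => 0 | .mg => 1 | .mf => 2 | .x => 3 | .x' => 4 | .y => 5 | .r => 6) ?_
  intro a b h
  cases a <;> cases b <;> simp at h <;> rfl

abbrev V := Symbol (Fin 2) Nt
abbrev nt (n : Nt) : V := Symbol.nonterminal n
abbrev ta : V := Symbol.terminal 0
abbrev tb : V := Symbol.terminal 1

/-- the rules `(X → y, U, ∅)` -/
def rules : Set (V × List V × Set Nt × Set Nt) :=
  {(nt .m0, [nt .m0, nt .x], ∅, ∅), (nt .m0, [nt .mg, nt .x], ∅, ∅),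
   (nt .x, [nt .x], {.m0}, ∅), (nt .r, [nt .r], {.m0}, ∅),
   (nt .mg, [nt .mg], ∅, ∅), (nt .mg, [nt .mf], ∅, ∅),
   (nt .x, [nt .x, nt .y], {.mg, .x}, ∅), (nt .x, [nt .x', nt .y], {.mg}, ∅),
   (nt .x', [nt .x', nt .y], {.mg}, ∅), (nt .y, [nt .y], {.mg}, ∅),
   (nt .r, [nt .r], {.mg, .x}, ∅),
   (nt .mf, [], ∅, ∅), (nt .x, [ta], {.mf}, ∅), (nt .x', [ta], {.mf}, ∅),
   (nt .y, [tb], {.mf}, ∅), (nt .r, [], {.mf}, ∅)}

/-- the grammar -/
def G : LRCGrammar (Fin 2) where
  N := Nt
  finN := inferInstance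
  P := rules
  finP := by unfold rules; exact Set.toFinite _
  ax := [nt .m0, nt .r]
  ax_ne := by simp

/-- the blocks with heads given by `l` and `g` symbols `y` each -/
def enc (l : List Bool) (g : ℕ) : List V :=
  l.flatMap fun c => nt (if c then .x' else .x) :: List.replicate g (nt .y)

theorem enc_nil (g : ℕ) : enc [] g = [] := rfl

theorem enc_cons (c : Bool) (l : List Bool) (g : ℕ) :
    enc (c :: l) g = nt (if c then .x' else .x) :: (List.replicate g (nt .y) ++ enc l g) := rfl

/-- applicability of rules, for this grammar -/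
def OkV (c : List V) (X : V) (y : List V) : Prop := Ok G c X y

/-- steps behind a context, for this grammar -/
def SV (c u v : List V) : Prop := SF G c u v

theorem ok_iff (c : List V) (X : V) (y : List V) : OkV c X y ↔
    ∃ U W : Set Nt, (X, y, U, W) ∈ rules ∧ (∀ A ∈ U, nt A ∈ c) ∧ ∀ A ∈ W, nt A ∉ c := Iff.rfl

theorem sv_nil (c v : List V) : SV c [] v ↔ v = [] := Iff.rfl

theorem sv_cons (c : List V) (X : V) (u v : List V) : SV c (X :: u) v ↔
    ∃ y v' : List V, v = y ++ v' ∧ OkV c X y ∧ SV (c ++ [X]) u v' := Iff.rfl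

theorem sv_append (u u' c v : List V) : SV c (u ++ u') v ↔
    ∃ v1 v2 : List V, v = v1 ++ v2 ∧ SV c u v1 ∧ SV (c ++ u) u' v2 := sf_append G u u' c v

/-- the steps, for this grammar -/
def StepV (u v : List V) : Prop := G.Step u v

theorem stepV (u v : List V) : StepV u v ↔ u ≠ [] ∧ SV [] u v := step_iff G u v

/-! ### The applicable rules -/

theorem ok_m0 {c y : List V} (h : OkV c (nt .m0) y) :
    y = [nt .m0, nt .x] ∨ y = [nt .mg, nt .x] := by
  obtain ⟨U, W, h1, _, _⟩ := (ok_iff _ _ _).1 h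
  simp only [rules, Set.mem_insert_iff, Set.mem_singleton_iff, Prod.mk.injEq] at h1
  rcases h1 with h | h | h | h | h | h | h | h | h | h | h | h | h | h | h | h <;> simp_all

theorem ok_mg {c y : List V} (h : OkV c (nt .mg) y) : y = [nt .mg] ∨ y = [nt .mf] := by
  obtain ⟨U, W, h1, _, _⟩ := (ok_iff _ _ _).1 h
  simp only [rules, Set.mem_insert_iff, Set.mem_singleton_iff, Prod.mk.injEq] at h1
  rcases h1 with h | h | h | h | h | h | h | h | h | h | h | h | h | h | h | h <;> simp_all

theorem ok_mf {c y : List V} (h : OkV c (nt .mf) y) : y = [] := by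
  obtain ⟨U, W, h1, _, _⟩ := (ok_iff _ _ _).1 h
  simp only [rules, Set.mem_insert_iff, Set.mem_singleton_iff, Prod.mk.injEq] at h1
  rcases h1 with h | h | h | h | h | h | h | h | h | h | h | h | h | h | h | h <;> simp_all

theorem ok_x {c y : List V} (h : OkV c (nt .x) y) :
    (y = [nt .x] ∧ nt .m0 ∈ c) ∨ (y = [nt .x, nt .y] ∧ nt .mg ∈ c ∧ nt .x ∈ c) ∨
      (y = [nt .x', nt .y] ∧ nt .mg ∈ c) ∨ (y = [ta] ∧ nt .mf ∈ c) := by
  obtain ⟨U, W, h1, h2, _⟩ := (ok_iff _ _ _).1 h
  simp only [rules, Set.mem_insert_iff, Set.mem_singleton_iff, Prod.mk.injEq] at h1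
  rcases h1 with h | h | h | h | h | h | h | h | h | h | h | h | h | h | h | h <;> simp_all

theorem ok_x' {c y : List V} (h : OkV c (nt .x') y) :
    (y = [nt .x', nt .y] ∧ nt .mg ∈ c) ∨ (y = [ta] ∧ nt .mf ∈ c) := by
  obtain ⟨U, W, h1, h2, _⟩ := (ok_iff _ _ _).1 h
  simp only [rules, Set.mem_insert_iff, Set.mem_singleton_iff, Prod.mk.injEq] at h1
  rcases h1 with h | h | h | h | h | h | h | h | h | h | h | h | h | h | h | h <;> simp_all

theorem ok_y {c y : List V} (h : OkV c (nt .y) y) :
    (y = [nt .y] ∧ nt .mg ∈ c) ∨ (y = [tb] ∧ nt .mf ∈ c) := by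
  obtain ⟨U, W, h1, h2, _⟩ := (ok_iff _ _ _).1 h
  simp only [rules, Set.mem_insert_iff, Set.mem_singleton_iff, Prod.mk.injEq] at h1
  rcases h1 with h | h | h | h | h | h | h | h | h | h | h | h | h | h | h | h <;> simp_all

theorem ok_r {c y : List V} (h : OkV c (nt .r) y) :
    (y = [nt .r] ∧ nt .m0 ∈ c) ∨ (y = [nt .r] ∧ nt .mg ∈ c ∧ nt .x ∈ c) ∨
      (y = [] ∧ nt .mf ∈ c) := by
  obtain ⟨U, W, h1, h2, _⟩ := (ok_iff _ _ _).1 h
  simp only [rules, Set.mem_insert_iff, Set.mem_singleton_iff, Prod.mk.injEq] at h1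
  rcases h1 with h | h | h | h | h | h | h | h | h | h | h | h | h | h | h | h <;> simp_all

theorem ok_ta {c y : List V} (h : OkV c ta y) : False := by
  obtain ⟨U, W, h1, _, h3⟩ := (ok_iff _ _ _).1 h
  simp only [rules, Set.mem_insert_iff, Set.mem_singleton_iff, Prod.mk.injEq] at h1
  rcases h1 with h | h | h | h | h | h | h | h | h | h | h | h | h | h | h | h <;> simp_all

/-! ### The steps in the three phases -/

theorem sf_zero (k : ℕ) : ∀ (c v : List V), nt .m0 ∈ c → nt .mg ∉ c → nt .mf ∉ c →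
    SV c (List.replicate k (nt .x) ++ [nt .r]) v → v = List.replicate k (nt .x) ++ [nt .r] := by
  induction k with
  | zero =>
    intro c v h0 hg hf h
    obtain ⟨y, v', rfl, h1, h2⟩ := (sv_cons _ _ _ _).1 h
    rw [sv_nil] at h2
    subst h2
    rcases ok_r h1 with ⟨rfl, _⟩ | ⟨_, h3, _⟩ | ⟨_, h3⟩
    · rfl
    · exact absurd h3 hg
    · exact absurd h3 hf
  | succ k ih =>
    intro c v h0 hg hf h
    obtain ⟨y, v', rfl, h1, h2⟩ := (sv_cons _ _ _ _).1 h
    rcases ok_x h1 with ⟨rfl, _⟩ | ⟨_, h3, _⟩ | ⟨_, h3⟩ | ⟨_, h3⟩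
    · rw [ih (c ++ [nt .x]) v' (by simp [h0]) (by simp [hg]) (by simp [hf]) h2]
      rfl
    · exact absurd h3 hg
    · exact absurd h3 hg
    · exact absurd h3 hf

theorem sf_y_g (g : ℕ) : ∀ (c v : List V), nt .mf ∉ c →
    SV c (List.replicate g (nt .y)) v → v = List.replicate g (nt .y) := by
  induction g with
  | zero => intro c v _ h; exact h
  | succ k ih =>
    intro c v hf h
    obtain ⟨y, v', rfl, h1, h2⟩ := (sv_cons _ _ _ _).1 h
    rcases ok_y h1 with ⟨rfl, _⟩ | ⟨_, h3⟩
    · rw [ih (c ++ [nt .y]) v' (by simp [hf]) h2]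
      rfl
    · exact absurd h3 hf

theorem sf_y_f (g : ℕ) : ∀ (c v : List V), nt .mg ∉ c →
    SV c (List.replicate g (nt .y)) v → v = List.replicate g tb := by
  induction g with
  | zero => intro c v _ h; exact h
  | succ k ih =>
    intro c v hg h
    obtain ⟨y, v', rfl, h1, h2⟩ := (sv_cons _ _ _ _).1 h
    rcases ok_y h1 with ⟨_, h3⟩ | ⟨rfl, _⟩
    · exact absurd h3 hg
    · rw [ih (c ++ [nt .y]) v' (by simp [hg]) h2]
      rfl

theorem sf_enc_g (g : ℕ) : ∀ (l : List Bool) (c v : List V), nt .m0 ∉ c →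
    nt .mf ∉ c → SV c (enc l g) v → ∃ l', v = enc l' (g + 1) ∧ l.count true ≤ l'.count true ∧
      (nt .x ∉ c → false ∈ l → l.count true + 1 ≤ l'.count true) := by
  intro l
  induction l with
  | nil =>
    intro c v _ _ h
    exact ⟨[], h, le_rfl, by simp⟩
  | cons s l ih =>
    intro c v h0 hf h
    rw [enc_cons] at h
    obtain ⟨y, v', rfl, h1, h2⟩ := (sv_cons _ _ _ _).1 h
    obtain ⟨v1, v2, rfl, h3, h4⟩ := (sv_append _ _ _ _).1 h2
    have h5 := sf_y_g g _ _ (by cases s <;> simp [hf]) h3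
    obtain ⟨l', h6, h7, h8⟩ := ih _ _ (by cases s <;> simp [h0]) (by cases s <;> simp [hf]) h4
    subst h5 h6
    cases s with
    | true =>
      simp only [if_true] at h1
      rcases ok_x' h1 with ⟨rfl, _⟩ | ⟨_, h9⟩
      · refine ⟨true :: l', ?_, ?_, ?_⟩
        · rw [enc_cons, List.replicate_succ]; simp
        · rw [List.count_cons_self, List.count_cons_self]; omega
        · intro hx hl
          have := h8 (by simp [hx]) (by simpa using hl)
          rw [List.count_cons_self, List.count_cons_self]; omega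
      · exact absurd h9 hf
    | false =>
      simp only [Bool.false_eq_true, if_false] at h1
      rcases ok_x h1 with ⟨_, h9⟩ | ⟨rfl, _, h9⟩ | ⟨rfl, _⟩ | ⟨_, h9⟩
      · exact absurd h9 h0
      · refine ⟨false :: l', ?_, ?_, ?_⟩
        · rw [enc_cons, List.replicate_succ]; simp
        · simp only [List.count_cons]; simp; omega
        · intro hx; exact absurd h9 hx
      · refine ⟨true :: l', ?_, ?_, ?_⟩
        · rw [enc_cons, List.replicate_succ]; simp
        · simp only [List.count_cons]; simp; omega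
        · intro _ _
          simp only [List.count_cons]; simp; omega
      · exact absurd h9 hf

theorem sf_enc_f (g : ℕ) : ∀ (l : List Bool) (c v : List V), nt .m0 ∉ c →
    nt .mg ∉ c → SV c (enc l g) v → v = (blk 0 1 g l.length).map Symbol.terminal := by
  intro l
  induction l with
  | nil => intro c v _ _ h; exact h
  | cons s l ih =>
    intro c v h0 hg h
    rw [enc_cons] at h
    obtain ⟨y, v', rfl, h1, h2⟩ := (sv_cons _ _ _ _).1 h
    obtain ⟨v1, v2, rfl, h3, h4⟩ := (sv_append _ _ _ _).1 h2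
    have h5 := sf_y_f g _ _ (by cases s <;> simp [hg]) h3
    have h6 := ih _ _ (by cases s <;> simp [h0]) (by cases s <;> simp [hg]) h4
    subst h5 h6
    have hy : y = [ta] := by
      cases s with
      | true =>
        simp only [if_true] at h1
        rcases ok_x' h1 with ⟨_, h9⟩ | ⟨rfl, _⟩
        · exact absurd h9 hg
        · rfl
      | false =>
        simp only [Bool.false_eq_true, if_false] at h1
        rcases ok_x h1 with ⟨_, h9⟩ | ⟨_, h9, _⟩ | ⟨_, h9⟩ | ⟨rfl, _⟩
        · exact absurd h9 h0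
        · exact absurd h9 hg
        · exact absurd h9 hg
        · rfl
    subst hy
    rw [List.length_cons, blk_succ]
    simp

theorem x_mem_enc {l : List Bool} {g : ℕ} (h : nt .x ∈ enc l g) : false ∈ l := by
  obtain ⟨s, hs, hx⟩ := List.mem_flatMap.1 h
  rcases List.mem_cons.1 hx with hx | hx
  · cases s with
    | true => simp at hx
    | false => exact hs
  · have := List.eq_of_mem_replicate hx
    simp at this

/-- the sentential forms -/
def Frm (w : List V) : Prop :=
  (∃ k, w = nt .m0 :: (List.replicate k (nt .x) ++ [nt .r])) ∨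
  (∃ l g, w = nt .mg :: (enc l g ++ [nt .r]) ∧ g ≤ l.count true) ∨
  (∃ l g, w = nt .mf :: (enc l g ++ [nt .r]) ∧ g ≤ l.count true) ∨
  ∃ n m, w = (blk 0 1 n m).map Symbol.terminal ∧ n ≤ m

theorem enc_zero (k : ℕ) : enc (List.replicate k false) 0 = List.replicate k (nt .x) := by
  induction k with
  | zero => rfl
  | succ k ih =>
    rw [List.replicate_succ, enc_cons, ih]
    rfl

theorem Frm_step {w w' : List V} (hw : Frm w) (h : StepV w w') : Frm w' := by
  rw [stepV] at h
  obtain ⟨hne, h⟩ := h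
  rcases hw with ⟨k, rfl⟩ | ⟨l, g, rfl, hl⟩ | ⟨l, g, rfl, hl⟩ | ⟨n, m, rfl, _⟩
  · obtain ⟨y, v', rfl, h1, h2⟩ := (sv_cons _ _ _ _).1 h
    have h3 := sf_zero k _ _ (by simp) (by simp) (by simp) h2
    subst h3
    rcases ok_m0 h1 with rfl | rfl
    · left
      exact ⟨k + 1, by rw [List.replicate_succ]; rfl⟩
    · right; left
      refine ⟨List.replicate (k + 1) false, 0, ?_, Nat.zero_le _⟩
      rw [enc_zero, List.replicate_succ]; rfl
  · obtain ⟨y, v', rfl, h1, h2⟩ := (sv_cons _ _ _ _).1 h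
    obtain ⟨v1, v2, rfl, h3, h4⟩ := (sv_append _ _ _ _).1 h2
    obtain ⟨l', h6, h7, h8⟩ := sf_enc_g g l _ _ (by simp) (by simp) h3
    subst h6
    obtain ⟨y2, v3, rfl, h9, h10⟩ := (sv_cons _ _ _ _).1 h4
    rw [sv_nil] at h10
    subst h10
    have hno0 : nt .m0 ∉ enc l g := by
      intro hm
      obtain ⟨s, _, hx⟩ := List.mem_flatMap.1 hm
      rcases List.mem_cons.1 hx with hx | hx
      · cases s <;> simp at hx
      · have := List.eq_of_mem_replicate hx
        simp at this
    have hnof : nt .mf ∉ enc l g := by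
      intro hm
      obtain ⟨s, _, hx⟩ := List.mem_flatMap.1 hm
      rcases List.mem_cons.1 hx with hx | hx
      · cases s <;> simp at hx
      · have := List.eq_of_mem_replicate hx
        simp at this
    have hr : y2 = [nt .r] ∧ false ∈ l := by
      rcases ok_r h9 with ⟨_, h11⟩ | ⟨rfl, _, h11⟩ | ⟨_, h11⟩
      · simp [hno0] at h11
      · exact ⟨rfl, x_mem_enc (g := g) (by simpa using h11)⟩
      · simp [hnof] at h11
    obtain ⟨rfl, hfl⟩ := hr
    have h12 := h8 (by simp) hfl
    rcases ok_mg h1 with rfl | rfl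
    · right; left
      exact ⟨l', g + 1, by simp, by omega⟩
    · right; right; left
      exact ⟨l', g + 1, by simp, by omega⟩
  · obtain ⟨y, v', rfl, h1, h2⟩ := (sv_cons _ _ _ _).1 h
    obtain ⟨v1, v2, rfl, h3, h4⟩ := (sv_append _ _ _ _).1 h2
    have h6 := sf_enc_f g l _ _ (by simp) (by simp) h3
    obtain ⟨y2, v3, rfl, h9, h10⟩ := (sv_cons _ _ _ _).1 h4
    rw [sv_nil] at h10
    have h8 := ok_mf h1
    have hno : ∀ A : Nt, A ≠ .x → A ≠ .x' → A ≠ .y → nt A ∉ enc l g := by
      intro A h11 h12 h13 hm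
      obtain ⟨s, _, hx⟩ := List.mem_flatMap.1 hm
      rcases List.mem_cons.1 hx with hx | hx
      · cases s <;> simp at hx <;> contradiction
      · have := List.eq_of_mem_replicate hx
        simp at this
        contradiction
    have hr : y2 = [] := by
      rcases ok_r h9 with ⟨_, h11⟩ | ⟨_, h11, _⟩ | ⟨rfl, _⟩
      · simp [hno .m0 (by simp) (by simp) (by simp)] at h11
      · simp [hno .mg (by simp) (by simp) (by simp)] at h11
      · rfl
    subst h6 h8 h10 hr
    right; right; right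
    refine ⟨g, l.length, by simp, ?_⟩
    exact hl.trans List.count_le_length
  · exfalso
    cases m with
    | zero => exact hne rfl
    | succ m =>
      rw [blk_succ, List.map_cons] at h
      obtain ⟨y, v', _, h1, _⟩ := (sv_cons _ _ _ _).1 h
      exact ok_ta h1

theorem sound {w : List (Fin 2)} (hw : w ∈ G.lang) : ∃ n m, w = blk 0 1 n m ∧ n ≤ m := by
  have hF : Frm (w.map Symbol.terminal) := by
    have key : ∀ z : List V, Relation.ReflTransGen StepV [nt .m0, nt .r] z → Frm z := by
      intro z hz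
      induction hz with
      | refl => left; exact ⟨0, rfl⟩
      | tail _ h ih => exact Frm_step ih h
    exact key _ hw
  have hnt : ∀ A : Nt, (nt A : V) ∉ w.map Symbol.terminal := by
    intro A hA
    obtain ⟨x, _, hx⟩ := List.mem_map.1 hA
    simp at hx
  rcases hF with ⟨k, hF⟩ | ⟨l, g, hF, _⟩ | ⟨l, g, hF, _⟩ | ⟨n, m, hF, hm⟩
  · exact absurd (by rw [hF]; simp) (hnt .m0)
  · exact absurd (by rw [hF]; simp) (hnt .mg)
  · exact absurd (by rw [hF]; simp) (hnt .mf)
  · exact ⟨n, m, List.map_injective_iff.2 (fun x y h => Symbol.terminal.inj h) hF, hm⟩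

/-! ### Derivation of the words `(a b^N)^N` -/

theorem mk_zero (k : ℕ) : ∀ (c : List V), nt .m0 ∈ c →
    SV c (List.replicate k (nt .x) ++ [nt .r]) (List.replicate k (nt .x) ++ [nt .r]) := by
  induction k with
  | zero =>
    intro c h0
    refine (sv_cons _ _ _ _).2 ⟨[nt .r], [], rfl, (ok_iff _ _ _).2 ⟨{.m0}, ∅, by simp [rules],
      ?_, by simp⟩, (sv_nil _ _).2 rfl⟩
    rintro A rfl
    exact h0
  | succ k ih =>
    intro c h0
    refine (sv_cons _ _ _ _).2 ⟨[nt .x], _, rfl, (ok_iff _ _ _).2 ⟨{.m0}, ∅, by simp [rules],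
      ?_, by simp⟩, ih _ (by simp [h0])⟩
    rintro A rfl
    exact h0

theorem mk_y_g (g : ℕ) : ∀ (c : List V), nt .mg ∈ c →
    SV c (List.replicate g (nt .y)) (List.replicate g (nt .y)) := by
  induction g with
  | zero => intro c _; rfl
  | succ k ih =>
    intro c hg
    refine (sv_cons _ _ _ _).2 ⟨[nt .y], _, rfl, (ok_iff _ _ _).2 ⟨{.mg}, ∅, by simp [rules],
      ?_, by simp⟩, ih _ (by simp [hg])⟩
    rintro A rfl
    exact hg

theorem mk_y_f (g : ℕ) : ∀ (c : List V), nt .mf ∈ c →
    SV c (List.replicate g (nt .y)) (List.replicate g tb) := by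
  induction g with
  | zero => intro c _; rfl
  | succ k ih =>
    intro c hf
    refine (sv_cons _ _ _ _).2 ⟨[tb], _, rfl, (ok_iff _ _ _).2 ⟨{.mf}, ∅, by simp [rules],
      ?_, by simp⟩, ih _ (by simp [hf])⟩
    rintro A rfl
    exact hf

theorem mk_enc_same (g : ℕ) : ∀ (l : List Bool) (c : List V), nt .mg ∈ c → nt .x ∈ c →
    SV c (enc l g) (enc l (g + 1)) := by
  intro l
  induction l with
  | nil => intro c _ _; rfl
  | cons s l ih =>
    intro c hg hx
    rw [enc_cons, enc_cons]
    refine (sv_cons _ _ _ _).2 ⟨[nt (if s then .x' else .x), nt .y],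
      List.replicate g (nt .y) ++ enc l (g + 1), ?_, ?_, ?_⟩
    · rw [List.replicate_succ]; simp
    · cases s with
      | true =>
        refine (ok_iff _ _ _).2 ⟨{.mg}, ∅, by simp [rules], ?_, by simp⟩
        rintro A rfl
        exact hg
      | false =>
        refine (ok_iff _ _ _).2 ⟨{.mg, .x}, ∅, by simp [rules], ?_, by simp⟩
        rintro A (rfl | rfl)
        · exact hg
        · exact hx
    · rw [sv_append]
      exact ⟨_, _, rfl, mk_y_g g _ (by simp [hg]), ih _ (by simp [hg]) (by simp [hx])⟩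

theorem mk_enc_mark (g i k : ℕ) : ∀ (c : List V), nt .mg ∈ c →
    SV c (enc (List.replicate i true ++ false :: List.replicate k false) g)
      (enc (List.replicate i true ++ true :: List.replicate k false) (g + 1)) := by
  induction i with
  | zero =>
    intro c hg
    rw [List.replicate_zero, List.nil_append, List.nil_append, enc_cons, enc_cons]
    refine (sv_cons _ _ _ _).2 ⟨[nt .x', nt .y],
      List.replicate g (nt .y) ++ enc (List.replicate k false) (g + 1), ?_, ?_, ?_⟩
    · rw [List.replicate_succ]; simp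
    · refine (ok_iff _ _ _).2 ⟨{.mg}, ∅, by simp [rules], ?_, by simp⟩
      rintro A rfl
      exact hg
    · rw [sv_append]
      exact ⟨_, _, rfl, mk_y_g g _ (by simp [hg]), mk_enc_same g _ _ (by simp [hg]) (by simp)⟩
  | succ i ih =>
    intro c hg
    rw [List.replicate_succ, List.cons_append, List.cons_append, enc_cons, enc_cons]
    refine (sv_cons _ _ _ _).2 ⟨[nt .x', nt .y], List.replicate g (nt .y) ++
      enc (List.replicate i true ++ true :: List.replicate k false) (g + 1), ?_, ?_, ?_⟩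
    · rw [List.replicate_succ]; simp
    · refine (ok_iff _ _ _).2 ⟨{.mg}, ∅, by simp [rules], ?_, by simp⟩
      rintro A rfl
      exact hg
    · rw [sv_append]
      exact ⟨_, _, rfl, mk_y_g g _ (by simp [hg]), ih _ (by simp [hg])⟩

theorem mk_enc_f (g : ℕ) : ∀ (k : ℕ) (c : List V), nt .mf ∈ c →
    SV c (enc (List.replicate k true) g) ((blk 0 1 g k).map Symbol.terminal) := by
  intro k
  induction k with
  | zero => intro c _; rfl
  | succ k ih =>
    intro c hf
    rw [List.replicate_succ, enc_cons, blk_succ]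
    refine (sv_cons _ _ _ _).2 ⟨[ta], List.replicate g tb ++ (blk 0 1 g k).map Symbol.terminal,
      by simp, ?_, ?_⟩
    · refine (ok_iff _ _ _).2 ⟨{.mf}, ∅, by simp [rules], ?_, by simp⟩
      rintro A rfl
      exact hf
    · rw [sv_append]
      exact ⟨_, _, rfl, mk_y_f g _ (by simp [hf]), ih _ (by simp [hf])⟩

theorem der_zero (k : ℕ) : Relation.ReflTransGen StepV [nt .m0, nt .r]
    (nt .m0 :: (List.replicate k (nt .x) ++ [nt .r])) := by
  induction k with
  | zero => exact Relation.ReflTransGen.refl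
  | succ k ih =>
    refine ih.tail ?_
    refine (stepV _ _).2 ⟨by simp, (sv_cons _ _ _ _).2 ⟨[nt .m0, nt .x],
      List.replicate k (nt .x) ++ [nt .r], by rw [List.replicate_succ]; rfl,
      (ok_iff _ _ _).2 ⟨∅, ∅, by simp [rules], by simp, by simp⟩, mk_zero k _ (by simp)⟩⟩

theorem mk_r {c : List V} (hg : nt .mg ∈ c) (hx : nt .x ∈ c) : SV c [nt .r] [nt .r] := by
  refine (sv_cons _ _ _ _).2 ⟨[nt .r], [], rfl, (ok_iff _ _ _).2 ⟨{.mg, .x}, ∅, by simp [rules],
    ?_, by simp⟩, (sv_nil _ _).2 rfl⟩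
  rintro A (rfl | rfl)
  · exact hg
  · exact hx

theorem x_mem (i k g : ℕ) :
    nt .x ∈ enc (List.replicate i true ++ false :: List.replicate k false) g := by
  apply List.mem_flatMap.2
  exact ⟨false, by simp, by simp⟩

theorem der_g (k : ℕ) : ∀ i ≤ k, Relation.ReflTransGen StepV [nt .m0, nt .r]
    (nt .mg :: (enc (List.replicate i true ++ List.replicate (k + 1 - i) false) i ++
      [nt .r])) := by
  intro i
  induction i with
  | zero =>
    intro _
    refine (der_zero k).tail ?_
    refine (stepV _ _).2 ⟨by simp, (sv_cons _ _ _ _).2 ⟨[nt .mg, nt .x],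
      List.replicate k (nt .x) ++ [nt .r], ?_,
      (ok_iff _ _ _).2 ⟨∅, ∅, by simp [rules], by simp, by simp⟩, mk_zero k _ (by simp)⟩⟩
    rw [List.replicate_zero, List.nil_append, Nat.sub_zero, enc_zero, List.replicate_succ]
    simp
  | succ i ih =>
    intro hi
    refine (ih (by omega)).tail ?_
    have h1 : List.replicate (k + 1 - i) false = false :: List.replicate (k + 1 - (i + 1)) false := by
      rw [← List.replicate_succ]
      congr 1
      omega
    have h2 : List.replicate (i + 1) true ++ List.replicate (k + 1 - (i + 1)) false =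
        List.replicate i true ++ true :: List.replicate (k + 1 - (i + 1)) false := by
      rw [List.replicate_succ']
      simp
    rw [h1, h2]
    refine (stepV _ _).2 ⟨by simp, (sv_cons _ _ _ _).2 ⟨[nt .mg], _, rfl,
      (ok_iff _ _ _).2 ⟨∅, ∅, by simp [rules], by simp, by simp⟩, ?_⟩⟩
    rw [sv_append]
    exact ⟨_, _, rfl, mk_enc_mark i i _ _ (by simp), mk_r (by simp) (by simp [x_mem])⟩

theorem der_f (k : ℕ) : blk 0 1 (k + 1) (k + 1) ∈ G.lang := by
  have h1 := der_g k k le_rfl
  have e1 : k + 1 - k = 1 := by omega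
  rw [e1] at h1
  have h2 : StepV (nt .mg :: (enc (List.replicate k true ++ List.replicate 1 false) k ++ [nt .r]))
      (nt .mf :: (enc (List.replicate (k + 1) true) (k + 1) ++ [nt .r])) := by
    have e2 : List.replicate (k + 1) true = List.replicate k true ++ true :: List.replicate 0 false := by
      rw [List.replicate_succ']; rfl
    rw [e2]
    refine (stepV _ _).2 ⟨by simp, (sv_cons _ _ _ _).2 ⟨[nt .mf], _, rfl,
      (ok_iff _ _ _).2 ⟨∅, ∅, by simp [rules], by simp, by simp⟩, ?_⟩⟩
    rw [sv_append]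
    exact ⟨_, _, rfl, mk_enc_mark k k 0 _ (by simp), mk_r (by simp)
      (List.mem_append_right _ (x_mem k 0 k))⟩
  have h3 : StepV (nt .mf :: (enc (List.replicate (k + 1) true) (k + 1) ++ [nt .r]))
      ((blk 0 1 (k + 1) (k + 1)).map Symbol.terminal) := by
    refine (stepV _ _).2 ⟨by simp, (sv_cons _ _ _ _).2 ⟨[],
      (blk 0 1 (k + 1) (k + 1)).map Symbol.terminal, rfl,
      (ok_iff _ _ _).2 ⟨∅, ∅, by simp [rules], by simp, by simp⟩, ?_⟩⟩
    rw [sv_append]
    refine ⟨_, [], by simp, mk_enc_f (k + 1) (k + 1) _ (by simp), ?_⟩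
    refine (sv_cons _ _ _ _).2 ⟨[], [], rfl, (ok_iff _ _ _).2 ⟨{.mf}, ∅, by simp [rules],
      ?_, by simp⟩, (sv_nil _ _).2 rfl⟩
    rintro A rfl
    simp
  exact (h1.tail h2).tail h3

/-- Some language generated by a left permitting E0L grammar is generated by no ET0L grammar. -/
theorem separation : ∃ L : Set (List (Fin 2)), IsLPE0L L ∧ ¬ IsET0L L := by
  refine ⟨G.lang, ⟨G, ?_, rfl⟩, ?_⟩
  · intro r hr
    rcases hr with rfl | rfl | rfl | rfl | rfl | rfl | rfl | rfl | rfl | rfl | rfl | rfl | rfl |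
      rfl | rfl | rfl <;> rfl
  · refine not_et0l_second _ (fun w hw => sound hw) ?_
    intro n
    exact ⟨n + 1, by omega, der_f n⟩

end Pool.Agent.Q314.ET.LP
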