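import Pool.Agent.Q314.ET.Gram

/-!
# Every ET0L language is generated by a left permitting E0L grammar
-/

set_option autoImplicit false

namespace Pool.Agent.Q314.ET.Sim

open Pool.Agent.Q314.ET

variable {T : Type} (G : ET0LGrammar T)

/-- nonterminals: the old ones, one marker for each table, and a start symbol -/
abbrev N' : Type := G.N ⊕ (G.ι ⊕ Unit)

/-- the embedding of the old symbols -/
def emb : Symbol T G.N → Symbol T (N' G)
  | .terminal t => .terminal t
  | .nonterminal A => .nonterminal (Sum.inl A)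

/-- the marker of a table -/
def mk (h : G.ι) : Symbol T (N' G) := .nonterminal (Sum.inr (Sum.inl h))

/-- the start symbol -/
def st : Symbol T (N' G) := .nonterminal (Sum.inr (Sum.inr ()))

/-- the rules -/
def rules : Set (Symbol T (N' G) × List (Symbol T (N' G)) × Set (N' G) × Set (N' G)) :=
  ((Set.range fun h => (st G, mk G h :: G.ax.map (emb G), ∅, ∅)) ∪
    {(st G, G.ax.map (emb G), ∅, ∅)}) ∪
  ((Set.range fun p : G.ι × G.ι => (mk G p.1, [mk G p.2], ∅, ∅)) ∪
    (Set.range fun h => (mk G h, [], ∅, ∅))) ∪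
  ⋃ h, (fun p : Symbol T G.N × List (Symbol T G.N) =>
    (emb G p.1, p.2.map (emb G), {Sum.inr (Sum.inl h)}, ∅)) '' G.P h

/-- the left permitting grammar -/
def LG : LRCGrammar T where
  N := N' G
  finN := by
    have := G.finN
    have := G.finι
    infer_instance
  P := rules G
  finP := by
    have := G.finι
    exact (((Set.finite_range _).union (Set.finite_singleton _)).union
      ((Set.finite_range _).union (Set.finite_range _))).union
      (Set.finite_iUnion fun h => (G.finP h).image _)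
  ax := [st G]
  ax_ne := by simp

theorem emb_inj : Function.Injective (emb G) := by
  intro x y h
  cases x <;> cases y <;> simp [emb] at h <;> rw [h]

theorem emb_ne_mk (x : Symbol T G.N) (h : G.ι) : emb G x ≠ mk G h := by
  cases x <;> simp [emb, mk]

theorem emb_ne_st (x : Symbol T G.N) : emb G x ≠ st G := by
  cases x <;> simp [emb, st]

def OkV (c : List (Symbol T (N' G))) (X : Symbol T (N' G)) (y : List (Symbol T (N' G))) : Prop :=
  Ok (LG G) c X y

def SV (c u v : List (Symbol T (N' G))) : Prop := SF (LG G) c u v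

def StepV (u v : List (Symbol T (N' G))) : Prop := (LG G).Step u v

theorem ok_iff (c : List (Symbol T (N' G))) (X : Symbol T (N' G)) (y : List (Symbol T (N' G))) :
    OkV G c X y ↔ ∃ U W : Set (N' G), (X, y, U, W) ∈ rules G ∧
      (∀ A ∈ U, Symbol.nonterminal A ∈ c) ∧ ∀ A ∈ W, Symbol.nonterminal A ∉ c := Iff.rfl

theorem sv_nil (c v : List (Symbol T (N' G))) : SV G c [] v ↔ v = [] := Iff.rfl

theorem sv_cons (c : List (Symbol T (N' G))) (X : Symbol T (N' G))
    (u v : List (Symbol T (N' G))) : SV G c (X :: u) v ↔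
    ∃ y v' : List (Symbol T (N' G)), v = y ++ v' ∧ OkV G c X y ∧ SV G (c ++ [X]) u v' := Iff.rfl

theorem stepV (u v : List (Symbol T (N' G))) : StepV G u v ↔ u ≠ [] ∧ SV G [] u v :=
  step_iff (LG G) u v

theorem ok_emb {c : List (Symbol T (N' G))} {X : Symbol T G.N} {y : List (Symbol T (N' G))}
    (h : OkV G c (emb G X) y) : ∃ i z, (X, z) ∈ G.P i ∧ y = z.map (emb G) ∧ mk G i ∈ c := by
  obtain ⟨U, W, h1, h2, _⟩ := (ok_iff G _ _ _).1 h
  rcases h1 with ((⟨i, h1⟩ | h1) | (⟨p, h1⟩ | ⟨i, h1⟩)) | h1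
  · exact absurd (Prod.mk.inj h1).1.symm (emb_ne_st G X)
  · exact absurd (Prod.mk.inj h1).1 (emb_ne_st G X)
  · exact absurd (Prod.mk.inj h1).1.symm (emb_ne_mk G X _)
  · exact absurd (Prod.mk.inj h1).1.symm (emb_ne_mk G X _)
  · obtain ⟨i, p, hp, h1⟩ := Set.mem_iUnion.1 h1
    obtain ⟨e1, e2⟩ := Prod.mk.inj h1
    obtain ⟨e2, e3⟩ := Prod.mk.inj e2
    obtain ⟨e3, e4⟩ := Prod.mk.inj e3
    have e5 := emb_inj G e1
    refine ⟨i, p.2, ?_, e2.symm, ?_⟩
    · rw [← e5]; exact hp
    · apply h2 (Sum.inr (Sum.inl i))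
      rw [← e3]
      rfl

theorem ok_mk {c : List (Symbol T (N' G))} {i : G.ι} {y : List (Symbol T (N' G))}
    (h : OkV G c (mk G i) y) : (∃ j, y = [mk G j]) ∨ y = [] := by
  obtain ⟨U, W, h1, h2, _⟩ := (ok_iff G _ _ _).1 h
  rcases h1 with ((⟨i, h1⟩ | h1) | (⟨p, h1⟩ | ⟨i, h1⟩)) | h1
  · have := (Prod.mk.inj h1).1
    simp [st, mk] at this
  · have := (Prod.mk.inj h1).1
    simp [st, mk] at this
  · left
    exact ⟨p.2, (Prod.mk.inj (Prod.mk.inj h1).2).1.symm⟩
  · right
    exact (Prod.mk.inj (Prod.mk.inj h1).2).1.symm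
  · obtain ⟨j, p, hp, h1⟩ := Set.mem_iUnion.1 h1
    exact absurd (Prod.mk.inj h1).1 (emb_ne_mk G _ _)

theorem ok_st {c : List (Symbol T (N' G))} {y : List (Symbol T (N' G))}
    (h : OkV G c (st G) y) : (∃ j, y = mk G j :: G.ax.map (emb G)) ∨ y = G.ax.map (emb G) := by
  obtain ⟨U, W, h1, h2, _⟩ := (ok_iff G _ _ _).1 h
  rcases h1 with ((⟨i, h1⟩ | h1) | (⟨p, h1⟩ | ⟨i, h1⟩)) | h1
  · left
    exact ⟨i, (Prod.mk.inj (Prod.mk.inj h1).2).1.symm⟩
  · right
    exact (Prod.mk.inj (Prod.mk.inj h1).2).1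
  · have := (Prod.mk.inj h1).1
    simp [st, mk] at this
  · have := (Prod.mk.inj h1).1
    simp [st, mk] at this
  · obtain ⟨j, p, hp, h1⟩ := Set.mem_iUnion.1 h1
    exact absurd (Prod.mk.inj h1).1 (emb_ne_st G _)

theorem sv_map {h : G.ι} : ∀ (u : List (Symbol T G.N)) (c v : List (Symbol T (N' G))),
    (∀ h', mk G h' ∈ c → h' = h) → SV G c (u.map (emb G)) v →
      ∃ u', v = u'.map (emb G) ∧ St (rel G) h u u' := by
  intro u
  induction u with
  | nil => intro c v _ hv; exact ⟨[], hv, St.nil h⟩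
  | cons X u ih =>
    intro c v hc hv
    obtain ⟨y, v', rfl, h1, h2⟩ := (sv_cons G _ _ _ _).1 hv
    obtain ⟨i, z, hz, rfl, hi⟩ := ok_emb G h1
    have := hc i hi
    subst this
    obtain ⟨u', rfl, hu'⟩ := ih _ _ (by
      intro h' hh'
      rcases List.mem_append.1 hh' with hh' | hh'
      · exact hc h' hh'
      · exact absurd (List.mem_singleton.1 hh').symm (emb_ne_mk G X h')) h2
    refine ⟨z ++ u', by simp, ?_⟩
    obtain ⟨ys, h3, rfl⟩ := hu'
    exact ⟨z :: ys, List.Forall₂.cons hz h3, rfl⟩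

theorem mk_map {h : G.ι} : ∀ (u u' : List (Symbol T G.N)) (c : List (Symbol T (N' G))),
    mk G h ∈ c → St (rel G) h u u' → SV G c (u.map (emb G)) (u'.map (emb G)) := by
  intro u
  induction u with
  | nil =>
    intro u' c _ hu
    rw [hu.nil_inv]
    rfl
  | cons X u ih =>
    intro u' c hc hu
    obtain ⟨ys, h1, rfl⟩ := hu
    cases h1 with
    | cons ha hb =>
      rename_i y ys
      refine (sv_cons G _ _ _ _).2 ⟨y.map (emb G), ys.flatten.map (emb G), by simp, ?_,
        ih _ _ (List.mem_append_left _ hc) ⟨ys, hb, rfl⟩⟩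
      refine (ok_iff G _ _ _).2 ⟨{Sum.inr (Sum.inl h)}, ∅, Or.inr (Set.mem_iUnion.2 ⟨h, (X, y), ha,
        rfl⟩), ?_, by simp⟩
      rintro A rfl
      exact hc

/-- the sentential forms -/
def Frm (w : List (Symbol T (N' G))) : Prop :=
  w = [st G] ∨ (∃ h u, Relation.ReflTransGen G.Step G.ax u ∧ w = mk G h :: u.map (emb G)) ∨
    ∃ u, Relation.ReflTransGen G.Step G.ax u ∧ w = u.map (emb G)

theorem Frm_step {w w' : List (Symbol T (N' G))} (hw : Frm G w) (h : StepV G w w') :
    Frm G w' := by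
  rw [stepV] at h
  obtain ⟨hne, h⟩ := h
  rcases hw with rfl | ⟨i, u, hu, rfl⟩ | ⟨u, hu, rfl⟩
  · obtain ⟨y, v', rfl, h1, h2⟩ := (sv_cons G _ _ _ _).1 h
    rw [sv_nil] at h2
    subst h2
    rcases ok_st G h1 with ⟨j, rfl⟩ | rfl
    · right; left
      exact ⟨j, G.ax, .refl, by simp⟩
    · right; right
      exact ⟨G.ax, .refl, by simp⟩
  · obtain ⟨y, v', rfl, h1, h2⟩ := (sv_cons G _ _ _ _).1 h
    obtain ⟨u', rfl, hu'⟩ := sv_map G (h := i) u _ _ (by
      intro h' hh'
      have : mk G h' = mk G i := by simpa using hh'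
      simpa [mk] using this) h2
    have hr : Relation.ReflTransGen G.Step G.ax u' := by
      by_cases hu0 : u = []
      · subst hu0
        rw [hu'.nil_inv]
        exact hu
      · obtain ⟨ys, h3, h4⟩ := hu'
        exact hu.tail ⟨hu0, i, ys, h3, h4⟩
    rcases ok_mk G h1 with ⟨j, rfl⟩ | rfl
    · right; left
      exact ⟨j, u', hr, rfl⟩
    · right; right
      exact ⟨u', hr, rfl⟩
  · exfalso
    cases u with
    | nil => exact hne rfl
    | cons X u =>
      obtain ⟨y, v', rfl, h1, _⟩ := (sv_cons G _ _ _ _).1 h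
      obtain ⟨i, z, _, _, hi⟩ := ok_emb G h1
      simp at hi

theorem emb_terminal (w : List T) : (w.map Symbol.terminal).map (emb G) = w.map Symbol.terminal := by
  rw [List.map_map]
  rfl

theorem lang_eq : (LG G).lang = G.lang := by
  ext w
  constructor
  · intro hw
    have key : ∀ z, Relation.ReflTransGen (StepV G) [st G] z → Frm G z := by
      intro z hz
      induction hz with
      | refl => left; rfl
      | tail _ h ih => exact Frm_step G ih h
    have hF : Frm G (w.map Symbol.terminal : List (Symbol T (N' G))) := key _ hw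
    have hnt : ∀ (A : N' G) (l : List (Symbol T (N' G))),
        (w.map Symbol.terminal : List (Symbol T (N' G))) ≠ Symbol.nonterminal A :: l := by
      intro A l hA
      cases w with
      | nil => simp at hA
      | cons a w => simp at hA
    rcases hF with hF | ⟨h, u, hu, hF⟩ | ⟨u, hu, hF⟩
    · exact absurd hF (hnt _ _)
    · exact absurd hF (hnt _ _)
    · have : u = w.map Symbol.terminal := by
        apply List.map_injective_iff.2 (emb_inj G)
        rw [emb_terminal]
        exact hF.symm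
      rw [this] at hu
      exact hu
  · intro hw
    have hw' : Relation.ReflTransGen G.Step G.ax (w.map Symbol.terminal) := hw
    have key : ∀ u, Relation.ReflTransGen G.Step G.ax u → ∀ h,
        Relation.ReflTransGen (StepV G) [st G] (mk G h :: u.map (emb G)) := by
      intro u hu
      induction hu with
      | refl =>
        intro h
        refine Relation.ReflTransGen.single ((stepV G _ _).2 ⟨by simp, (sv_cons G _ _ _ _).2
          ⟨mk G h :: G.ax.map (emb G), [], by simp, (ok_iff G _ _ _).2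
          ⟨∅, ∅, Or.inl (Or.inl (Or.inl ⟨h, rfl⟩)), by simp, by simp⟩, rfl⟩⟩)
      | tail _ hs ih =>
        intro h
        obtain ⟨_, i, ys, h1, h2⟩ := hs
        refine (ih i).tail ((stepV G _ _).2 ⟨by simp, (sv_cons G _ _ _ _).2 ⟨[mk G h], _, rfl,
          (ok_iff G _ _ _).2 ⟨∅, ∅, Or.inl (Or.inr (Or.inl ⟨(i, h), rfl⟩)), by simp, by simp⟩,
          mk_map G _ _ _ (by simp) ⟨ys, h1, h2⟩⟩⟩)
    change Relation.ReflTransGen (StepV G) [st G] (w.map Symbol.terminal)
    rcases Relation.ReflTransGen.cases_tail hw' with h | ⟨u, hu, hs⟩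
    · refine Relation.ReflTransGen.single ((stepV G _ _).2 ⟨by simp, (sv_cons G _ _ _ _).2
        ⟨G.ax.map (emb G), [], ?_, (ok_iff G _ _ _).2
        ⟨∅, ∅, Or.inl (Or.inl (Or.inr rfl)), by simp, by simp⟩, rfl⟩⟩)
      rw [List.append_nil, ← h, emb_terminal]
    · obtain ⟨_, i, ys, h1, h2⟩ := hs
      refine (key u hu i).tail ((stepV G _ _).2 ⟨by simp, (sv_cons G _ _ _ _).2 ⟨[], _, rfl,
        (ok_iff G _ _ _).2 ⟨∅, ∅, Or.inl (Or.inr (Or.inr ⟨i, rfl⟩)), by simp, by simp⟩, ?_⟩⟩)
      rw [← emb_terminal]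
      exact mk_map G _ _ _ (by simp) ⟨ys, h1, h2⟩

/-- Every ET0L language is a left permitting E0L language. -/
theorem inclusion {L : Set (List T)} (h : IsET0L L) : IsLPE0L L := by
  obtain ⟨G, rfl⟩ := h
  refine ⟨LG G, ?_, lang_eq G⟩
  intro r hr
  rcases hr with ((⟨i, rfl⟩ | rfl) | (⟨p, rfl⟩ | ⟨i, rfl⟩)) | h1
  · rfl
  · rfl
  · rfl
  · rfl
  · obtain ⟨i, p, hp, rfl⟩ := Set.mem_iUnion.1 h1
    rfl

end Pool.Agent.Q314.ET.Sim
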