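import Pool.Agent.Q314.ET.Basic

/-!
# Two languages of words `(a b^n)^m` which are not generated by grammars with tables
-/

set_option autoImplicit false

namespace Pool.Agent.Q314.ET

variable {ι V : Type}

/-- the word `(a b^n)^m` -/
def blk (a b : V) (n m : ℕ) : List V := (List.replicate m (a :: List.replicate n b)).flatten

theorem blk_zero (a b : V) (n : ℕ) : blk a b n 0 = [] := rfl

theorem blk_succ (a b : V) (n m : ℕ) :
    blk a b n (m + 1) = a :: (List.replicate n b ++ blk a b n m) := by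
  simp [blk, List.replicate_succ]

theorem mem_blk {a b : V} {n m : ℕ} {x : V} (h : x ∈ blk a b n m) : x = a ∨ x = b := by
  induction m with
  | zero => simp [blk_zero] at h
  | succ m ih =>
    rw [blk_succ] at h
    rcases List.mem_cons.1 h with h | h
    · exact Or.inl h
    · rcases List.mem_append.1 h with h | h
      · exact Or.inr (List.eq_of_mem_replicate h)
      · exact ih h

theorem rep_eq {a b : V} (hab : a ≠ b) : ∀ (k n : ℕ) (y z : List V),
    List.replicate k b ++ a :: y = List.replicate n b ++ z → (z = [] ∨ ∃ z', z = a :: z') →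
      k = n ∧ z = a :: y := by
  intro k
  induction k with
  | zero =>
    intro n y z h hz
    cases n with
    | zero => exact ⟨rfl, by simpa using h.symm⟩
    | succ n =>
      exfalso
      rw [List.replicate_succ, List.replicate_zero, List.nil_append, List.cons_append] at h
      exact hab (List.cons.inj h).1
  | succ k ih =>
    intro n y z h hz
    cases n with
    | zero =>
      exfalso
      rw [List.replicate_succ, List.replicate_zero, List.nil_append, List.cons_append] at h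
      rcases hz with rfl | ⟨z', rfl⟩
      · simp at h
      · exact hab (List.cons.inj h).1.symm
    | succ n =>
      rw [List.replicate_succ, List.replicate_succ, List.cons_append, List.cons_append] at h
      obtain ⟨h1, h2⟩ := ih n y z (List.cons.inj h).2 hz
      exact ⟨by omega, h2⟩

theorem blk_head (a b : V) (n m : ℕ) : blk a b n m = [] ∨ ∃ z', blk a b n m = a :: z' := by
  cases m with
  | zero => left; rfl
  | succ m => right; exact ⟨_, blk_succ a b n m⟩

theorem blk_gap {a b : V} (hab : a ≠ b) (n : ℕ) : ∀ (m : ℕ) (x : List V) (k : ℕ) (y : List V),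
    x ++ a :: (List.replicate k b ++ a :: y) = blk a b n m → k = n := by
  intro m
  induction m with
  | zero => intro x k y h; simp [blk_zero] at h
  | succ m ih =>
    intro x k y h
    rw [blk_succ] at h
    cases x with
    | nil =>
      have h1 := (List.cons.inj h).2
      exact (rep_eq hab _ _ _ _ h1 (blk_head a b n m)).1
    | cons c x =>
      rw [List.cons_append] at h
      have h1 := (List.cons.inj h).2
      rcases List.append_eq_append_iff.1 h1 with ⟨d, hd1, hd2⟩ | ⟨d, hd1, hd2⟩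
      · -- replicate n b = x ++ d
        cases d with
        | nil =>
          rw [List.nil_append] at hd2
          exact ih [] k y (by simpa using hd2)
        | cons e d =>
          exfalso
          rw [List.cons_append] at hd2
          have h2 : a = e := (List.cons.inj hd2).1
          have h3 : e ∈ List.replicate n b := by rw [hd1]; simp
          exact hab (h2.trans (List.eq_of_mem_replicate h3))
      · exact ih d k y hd2.symm

variable [DecidableEq V]

theorem count_blk {a b : V} (hab : a ≠ b) (n m : ℕ) : (blk a b n m).count a = m := by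
  induction m with
  | zero => simp [blk_zero]
  | succ m ih =>
    rw [blk_succ, List.count_cons_self, List.count_append, ih, List.count_replicate]
    have : (b == a) = false := by simpa using fun h => hab h.symm
    simp [this]

theorem count_blk' {a b : V} (hab : a ≠ b) (n m : ℕ) : (blk a b n m).count b = m * n := by
  induction m with
  | zero => simp [blk_zero]
  | succ m ih =>
    rw [blk_succ, List.count_cons, List.count_append, ih, List.count_replicate]
    have : (a == b) = false := by simpa using hab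
    simp [this]
    ring

theorem exists_gap {a b : V} : ∀ (F : List V), (∀ x ∈ F, x = a ∨ x = b) → 2 ≤ F.count a →
    ∃ x k y, F = x ++ a :: (List.replicate k b ++ a :: y) := by
  have first : ∀ (F : List V), (∀ x ∈ F, x = a ∨ x = b) → 1 ≤ F.count a →
      ∃ k y, F = List.replicate k b ++ a :: y ∧ F.count a ≤ y.count a + 1 := by
    intro F
    induction F with
    | nil => intro _ h; simp at h
    | cons c F ih =>
      intro h1 h2
      by_cases hc : c = a
      · subst hc
        exact ⟨0, F, rfl, by rw [List.count_cons_self]⟩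
      · have hcb : c = b := (h1 c List.mem_cons_self).resolve_left hc
        have hne : (c == a) = false := by simpa using hc
        rw [List.count_cons, hne] at h2
        obtain ⟨k, y, rfl, h3⟩ := ih (fun x hx => h1 x (List.mem_cons_of_mem _ hx))
          (by simpa using h2)
        refine ⟨k + 1, y, by rw [List.replicate_succ, hcb]; rfl, ?_⟩
        rw [List.count_cons, hne]
        simpa using h3
  intro F h1 h2
  obtain ⟨k, y, rfl, h3⟩ := first F h1 (by omega)
  obtain ⟨k', y', rfl, _⟩ := first y (fun x hx => h1 x (by simp [hx])) (by omega)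
  exact ⟨List.replicate k b, k', y', rfl⟩

/-- a factor with two letters `a` of a word `(a b^n)^m` contains `a b^n a` -/
theorem factor_gap {a b : V} (hab : a ≠ b) {n m : ℕ} {A F B : List V}
    (h : blk a b n m = A ++ F ++ B) (h2 : 2 ≤ F.count a) :
    ∃ x y, F = x ++ a :: (List.replicate n b ++ a :: y) := by
  have h1 : ∀ x ∈ F, x = a ∨ x = b := fun x hx => mem_blk (by rw [h]; simp [hx])
  obtain ⟨x, k, y, rfl⟩ := exists_gap F h1 h2
  have : k = n := by
    apply blk_gap hab n m (A ++ x) k (y ++ B)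
    rw [h]
    simp
  subst this
  exact ⟨x, y, rfl⟩

/-- a common factor with two letters `a` fixes the length of the blocks -/
theorem same_gap {a b : V} (hab : a ≠ b) {n m n' m' : ℕ} {A F B A' B' : List V}
    (h : blk a b n m = A ++ F ++ B) (h' : blk a b n' m' = A' ++ F ++ B')
    (h2 : 2 ≤ F.count a) : n = n' := by
  obtain ⟨x, y, rfl⟩ := factor_gap hab h h2
  apply blk_gap hab n' m' (A' ++ x) n (y ++ B')
  rw [h']
  simp

variable {P : ι → V → List V → Prop}

theorem occ_terminal {a b : V} {ω : List V} {τ : List ι} {W : List V} {τ' : List ι} {X : V}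
    {Y : List V} (hW : ∀ x ∈ W, x = a ∨ x = b) (h : Occ P ω τ W τ' X Y) :
    ∀ x ∈ Y, x = a ∨ x = b := by
  obtain ⟨σ, p, q, A, B, e1, h1, h2, h3, h4, e2⟩ := h
  intro x hx
  exact hW x (by rw [e2]; simp [hx])

/-- First language: the number of blocks is bounded by the length of the blocks. -/
theorem not_first [Finite V] {D : ℕ} (hD1 : 1 ≤ D) (hD : ∀ i X y, P i X y → y.length ≤ D)
    {a b : V} (hab : a ≠ b) (ω : List V)
    (hL : ∀ τ W, DL P τ ω W → (∀ x ∈ W, x = a ∨ x = b) → ∃ n m, W = blk a b n m ∧ m ≤ n + 1)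
    (hmem : ∀ n, ∃ N ≥ n, ∃ τ, DL P τ ω (blk a b N N)) : False := by
  classical
  obtain ⟨K, hK⟩ := exists_pair (P := P) hD1 hD a a b
  obtain ⟨N, hN, τ, hτ⟩ := hmem (ω.length * K + 1)
  set W := blk a b N N with hW
  have hWt : ∀ x ∈ W, x = a ∨ x = b := fun x hx => mem_blk hx
  have hcW : W.count a = N := count_blk hab N N
  have hωne : ω ≠ [] := by
    rintro rfl
    rw [hτ.nil_inv] at hcW
    simp at hcW
    omega
  obtain ⟨p, X, q, A, Z, B, e1, h1, h2, h3, e2, h4⟩ := heavy a ω W hτ hωne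
  have hKZ : K ≤ Z.count a := by
    rw [hcW] at h4
    by_contra hlt
    have h5 : ω.length * Z.count a ≤ ω.length * K := Nat.mul_le_mul_left _ (by omega)
    omega
  have hs : Occ P ω τ W τ X Z := ⟨[], p, q, A, B, rfl, e1, h1, h3, h2, e2⟩
  obtain ⟨t, t', hst, htt', hX, hAl, hPa, _, hlt, h2'⟩ := hK ω τ W (τ, X, Z) hs hKZ
  have ht : Occ P ω τ W t.1 t.2.1 t.2.2 := by
    rcases hst with rfl | hst
    · exact hs
    · exact Occ.desc (s := (τ, X, Z)) hs hst
  obtain ⟨σ, φ, ψ, p1, q1, e3, d1, d2, d3, d4, d5, d6, d7⟩ :=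
    pump_data ht htt' hX hAl hPa hlt h2'
  set S := Al P ω τ W t'.1 with hS
  obtain ⟨σ0, p0, q0, A0, B0, e4, g1, g2, g3, g4, e5⟩ := ht
  -- all symbols of the sentential form occur
  have hw : ∀ Y ∈ p0 ++ t.2.1 :: q0, Y ∈ S := by
    intro Y hY
    rw [← hAl]
    obtain ⟨x1, x2, he⟩ := List.append_of_mem hY
    have g5 : DL P t.1 (x1 ++ Y :: x2) W := by
      rw [← he, e5, List.append_assoc]
      exact g2.append (DL.cons g4 g3)
    obtain ⟨A1, YY, B1, e6, k1, k2, k3⟩ := g5.split
    exact ⟨YY, σ0, x1, x2, A1, B1, e4, by rw [← he]; exact g1, k1, k3, k2, e6⟩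
  set r := N + 2 with hr
  obtain ⟨i1, i2⟩ := itr_dl (P := P) (σ := σ) (φ := φ) (S := S)
    (fun Z hZ => (d1 Z hZ).1) (fun Z hZ => (d1 Z hZ).2.1) r _ hw
  have hfin : DL P t'.1 (itr φ r (p0 ++ t.2.1 :: q0)) ((itr φ r (p0 ++ t.2.1 :: q0)).flatMap ψ) :=
    DL.flatMap (fun Z hZ => (d5 Z (i2 Z hZ)).dl)
  have hall := (g1.comp i1).comp hfin
  set W' := (itr φ r (p0 ++ t.2.1 :: q0)).flatMap ψ with hW'
  have hW't : ∀ x ∈ W', x = a ∨ x = b := by
    intro x hx
    obtain ⟨Z, hZ, hxZ⟩ := List.mem_flatMap.1 hx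
    exact occ_terminal hWt (d5 Z (i2 Z hZ)) x hxZ
  obtain ⟨n', m', e6, hnm⟩ := hL _ _ hall hW't
  have hcnt := itr_count (S := Ps P ω τ W a t'.1) (X := t'.2.1) d2 d3 d4 r
  -- the yield of the symbol is a factor of both words
  have hXm : t'.2.1 ∈ itr φ r (p0 ++ t.2.1 :: q0) := by
    rw [itr_split, hX]
    simp [hcnt.1]
  obtain ⟨x1, x2, he⟩ := List.append_of_mem hXm
  have hf1 : blk a b n' m' = x1.flatMap ψ ++ t'.2.2 ++ x2.flatMap ψ := by
    rw [← e6, hW', he]
    simp [d7]
  have hf2 : ∃ A2 B2, blk a b N N = A2 ++ t'.2.2 ++ B2 := by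
    have hXS : t'.2.1 ∈ S := by rw [← hX]; exact hw _ (by simp)
    obtain ⟨_, _, _, A2, B2, _, _, _, _, _, e7⟩ := d5 _ hXS
    rw [d7] at e7
    exact ⟨A2, B2, e7⟩
  obtain ⟨A2, B2, hf2⟩ := hf2
  have hn : N = n' := same_gap hab hf2 hf1 h2'
  have hge : r ≤ W'.count a := by
    have k1 := count_flatMap_ge (S := Ps P ω τ W a t'.1) (c := a) d6
      (itr φ r (p0 ++ t.2.1 :: q0))
    have k2 : (itr φ r [t'.2.1]).countP (· ∈ Ps P ω τ W a t'.1) ≤
        (itr φ r (p0 ++ t.2.1 :: q0)).countP (· ∈ Ps P ω τ W a t'.1) := by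
      rw [itr_split, hX, List.countP_append, List.countP_append]
      omega
    have k3 := hcnt.2
    rw [hW']
    omega
  rw [e6, count_blk hab] at hge
  omega

/-! ### The second language -/

/-- occurrences of words -/
def Ctx (P : ι → V → List V → Prop) (ω : List V) (τ : List ι) (W : List V) (τ' : List ι)
    (x Y : List V) : Prop :=
  ∃ (σ : List ι) (p q A B : List V), τ = σ ++ τ' ∧ DL P σ ω (p ++ x ++ q) ∧ DL P τ' p A ∧
    DL P τ' q B ∧ DL P τ' x Y ∧ W = A ++ Y ++ B

omit [DecidableEq V] in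
theorem Ctx.cons {ω : List V} {τ : List ι} {W : List V} {τ' : List ι} {X : V} {x Y : List V}
    (h : Ctx P ω τ W τ' (X :: x) Y) :
    ∃ Y1 Y2, Y = Y1 ++ Y2 ∧ Occ P ω τ W τ' X Y1 ∧ Ctx P ω τ W τ' x Y2 := by
  obtain ⟨σ, p, q, A, B, e1, h1, h2, h3, h4, e2⟩ := h
  obtain ⟨Y1, Y2, rfl, h5, h6⟩ := h4.cons_inv
  refine ⟨Y1, Y2, rfl, ⟨σ, p, x ++ q, A, Y2 ++ B, e1, by simpa using h1, h2, h6.append h3, h5,
    by rw [e2]; simp⟩, ⟨σ, p ++ [X], q, A ++ Y1, B, e1, by simpa using h1, h2.append h5, h3, h6,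
    by rw [e2]; simp⟩⟩

theorem Ctx.count {ω : List V} {τ : List ι} {W : List V} {τ' : List ι} {a : V} (g : V → ℕ)
    (hg : ∀ X Y, Occ P ω τ W τ' X Y → Y.count a = g X) : ∀ (x Y : List V),
      Ctx P ω τ W τ' x Y → Y.count a = (x.map g).sum := by
  intro x
  induction x with
  | nil =>
    intro Y h
    obtain ⟨σ, p, q, A, B, e1, h1, h2, h3, h4, e2⟩ := h
    rw [h4.nil_inv]
    simp
  | cons X x ih =>
    intro Y h
    obtain ⟨Y1, Y2, rfl, h1, h2⟩ := h.cons
    rw [List.count_append, hg X Y1 h1, ih Y2 h2]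
    simp

omit [DecidableEq V] in
theorem parent {σ : List ι} {X : V} : ∀ (w p q : List V), DL P σ w (p ++ X :: q) →
    ∃ w1 Z w2 p1 x1 x2 q2, w = w1 ++ Z :: w2 ∧ DL P σ w1 p1 ∧ DL P σ [Z] (x1 ++ X :: x2) ∧
      DL P σ w2 q2 ∧ p = p1 ++ x1 ∧ q = x2 ++ q2 := by
  intro w
  induction w with
  | nil =>
    intro p q h
    have := h.nil_inv
    simp at this
  | cons Z w ih =>
    intro p q h
    obtain ⟨z, y, e, h1, h2⟩ := h.cons_inv
    rcases List.append_eq_append_iff.1 e with ⟨d, hd1, hd2⟩ | ⟨d, hd1, hd2⟩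
    · -- z = p ++ d, X :: q = d ++ y
      cases d with
      | nil =>
        simp only [List.append_nil] at hd1
        simp only [List.nil_append] at hd2
        subst hd1
        rw [← hd2] at h2
        obtain ⟨w1, Z', w2, p1, x1, x2, q2, rfl, k1, k2, k3, k4, k5⟩ := ih [] q (by simpa using h2)
        obtain ⟨rfl, rfl⟩ := List.append_eq_nil_iff.1 k4.symm
        exact ⟨Z :: w1, Z', w2, z ++ [], [], x2, q2, rfl, DL.cons h1 k1, k2, k3, by simp, k5⟩
      | cons X' d =>
        rw [List.cons_append] at hd2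
        obtain ⟨rfl, rfl⟩ := List.cons.inj hd2
        exact ⟨[], Z, w, [], p, d, y, rfl, DL.nil σ, hd1 ▸ h1, h2, by simp, rfl⟩
    · -- p = z ++ d, y = d ++ X :: q
      rw [hd2] at h2
      obtain ⟨w1, Z', w2, p1, x1, x2, q2, rfl, k1, k2, k3, rfl, k5⟩ := ih d q h2
      exact ⟨Z :: w1, Z', w2, z ++ p1, x1, x2, q2, rfl, DL.cons h1 k1, k2, k3, by rw [hd1]; simp,
        k5⟩

omit [DecidableEq V] in
theorem occ_parent {ω : List V} {τ : List ι} {W : List V} {σ τ' : List ι} {X : V} {Y : List V}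
    (hτ : ∃ σ0, τ = σ0 ++ (σ ++ τ')) (h : Occ P ω τ W τ' X Y) :
    ∃ Z YZ, Occ P ω τ W (σ ++ τ') Z YZ ∧ ∃ A B, YZ = A ++ Y ++ B := by
  obtain ⟨σ0, e0⟩ := hτ
  obtain ⟨σ1, p, q, A, B, e1, h1, h2, h3, h4, e2⟩ := h
  have e3 : σ1 = σ0 ++ σ := by
    have : σ1 ++ τ' = (σ0 ++ σ) ++ τ' := by rw [← e1, e0, List.append_assoc]
    exact List.append_cancel_right this
  subst e3
  obtain ⟨w, hw1, hw2⟩ := h1.comp_inv
  obtain ⟨w1, Z, w2, p1, x1, x2, q2, rfl, k1, k2, k3, rfl, rfl⟩ := parent w p q hw2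
  obtain ⟨A1, A2, rfl, h5, h6⟩ := h2.append_inv
  obtain ⟨B1, B2, rfl, h7, h8⟩ := h3.append_inv
  refine ⟨Z, A2 ++ Y ++ B1, ⟨σ0, w1, w2, A1, B2, e0, hw1, k1.comp h5, k3.comp h8, ?_, ?_⟩, A2, B1,
    rfl⟩
  · apply k2.comp
    rw [List.append_assoc]
    exact h6.append (DL.cons h4 h7)
  · rw [e2]
    simp

/-- Second language: the length of the blocks is bounded by their number. -/
theorem not_second [Finite V] {D : ℕ} (hD1 : 1 ≤ D) (hD : ∀ i X y, P i X y → y.length ≤ D)
    {a b : V} (hab : a ≠ b) (ω : List V)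
    (hL : ∀ τ W, DL P τ ω W → (∀ x ∈ W, x = a ∨ x = b) → ∃ n m, W = blk a b n m ∧ n ≤ m)
    (hmem : ∀ n, ∃ N ≥ n, ∃ τ, DL P τ ω (blk a b N N)) : False := by
  classical
  obtain ⟨K, hK⟩ := exists_pair (P := P) hD1 hD b a b
  obtain ⟨N, hN, τ, hτ⟩ := hmem (D * K + ω.length + 5)
  set W := blk a b N N with hW
  have hWt : ∀ x ∈ W, x = a ∨ x = b := fun x hx => mem_blk hx
  have hcW : W.count a = N := count_blk hab N N
  -- the final phase
  let Fp : List ι → Prop := fun τ' => ∀ X Y, Occ P ω τ W τ' X Y → Y.count a ≤ 1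
  have hFnil : Fp [] := by
    intro X Y h
    have h1 : [X] = Y := h.dl
    rw [← h1]
    have := List.count_le_length (a := a) (l := [X])
    simpa using this
  have hFτ : ¬ Fp τ := by
    intro hF
    have hωne : ω ≠ [] := by
      rintro rfl
      rw [hτ.nil_inv] at hcW
      simp at hcW
      omega
    obtain ⟨p, X, q, A, Z, B, e1, h1, h2, h3, e2, h4⟩ := heavy a ω W hτ hωne
    have hs : Occ P ω τ W τ X Z := ⟨[], p, q, A, B, rfl, e1, h1, h3, h2, e2⟩
    have h5 := hF X Z hs
    have h6 : ω.length * Z.count a ≤ ω.length * 1 := Nat.mul_le_mul_left _ h5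
    omega
  have hsplit : ∀ l : List ι, ¬ Fp l → ∃ σ i τ', l = σ ++ i :: τ' ∧ ¬ Fp (i :: τ') ∧ Fp τ' := by
    intro l
    induction l with
    | nil => intro h; exact absurd hFnil h
    | cons i l ih =>
      intro h
      by_cases hl : Fp l
      · exact ⟨[], i, l, rfl, h, hl⟩
      · obtain ⟨σ, j, τ', rfl, h1, h2⟩ := ih hl
        exact ⟨i :: σ, j, τ', rfl, h1, h2⟩
  obtain ⟨σ₁, i₁, τ₁, e1, hnF, hF⟩ := hsplit τ hFτ
  have hFsub : ∀ σ τ', τ₁ = σ ++ τ' → Fp τ' := by
    intro σ τ' he X Y hO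
    have hτ' : ∃ σ0, τ = σ0 ++ (σ ++ τ') := ⟨σ₁ ++ [i₁], by rw [e1, ← he]; simp⟩
    obtain ⟨Z, YZ, h1, A, B, rfl⟩ := occ_parent hτ' hO
    rw [← he] at h1
    have := hF Z _ h1
    rw [List.count_append, List.count_append] at this
    omega
  -- uniqueness of the number of letters `a`
  have huniq : ∀ τ', Fp τ' → ∀ X Y Y', Occ P ω τ W τ' X Y → Occ P ω τ W τ' X Y' →
      Y.count a = Y'.count a := by
    have hle : ∀ τ', Fp τ' → ∀ X Y Y', Occ P ω τ W τ' X Y → Occ P ω τ W τ' X Y' →
        Y.count a ≤ Y'.count a := by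
      intro τ' hτ' X Y Y' h h'
      have hY := hτ' X Y h
      have hY'l := h'.dl
      have hY't := occ_terminal hWt h'
      obtain ⟨σ, p, q, A, B, e2, h1, h2, h3, h4, e3⟩ := h
      have h5 : DL P τ ω (A ++ Y' ++ B) := by
        rw [e2, List.append_assoc]
        exact h1.comp (h2.append (DL.cons hY'l h3))
      have h6 : ∀ x ∈ A ++ Y' ++ B, x = a ∨ x = b := by
        intro x hx
        simp only [List.mem_append] at hx
        rcases hx with (hx | hx) | hx
        · exact hWt x (by rw [e3]; simp [hx])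
        · exact hY't x hx
        · exact hWt x (by rw [e3]; simp [hx])
      obtain ⟨n', m', e4, hnm⟩ := hL _ _ h5 h6
      have hc1 : A.count a + Y.count a + B.count a = N := by
        rw [← hcW, e3, List.count_append, List.count_append]
      have hc2 : A.count a + Y'.count a + B.count a = m' := by
        have := congrArg (List.count a) e4
        rw [count_blk hab, List.count_append, List.count_append] at this
        exact this
      have hn : N = n' := by
        by_cases hA : 2 ≤ A.count a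
        · have k1 : blk a b N N = [] ++ A ++ (Y ++ B) := by rw [← hW, e3]; simp
          have k2 : blk a b n' m' = [] ++ A ++ (Y' ++ B) := by rw [← e4]; simp
          exact same_gap hab k1 k2 hA
        · have hB : 2 ≤ B.count a := by omega
          have k1 : blk a b N N = (A ++ Y) ++ B ++ [] := by rw [← hW, e3]; simp
          have k2 : blk a b n' m' = (A ++ Y') ++ B ++ [] := by rw [← e4]; simp
          exact same_gap hab k1 k2 hB
      omega
    intro τ' hτ' X Y Y' h h'
    exact le_antisymm (hle τ' hτ' X Y Y' h h') (hle τ' hτ' X Y' Y h' h)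
  -- a symbol with many letters `b`
  obtain ⟨X₀, Y₀, hO₀, hc₀⟩ : ∃ X Y, Occ P ω τ W (i₁ :: τ₁) X Y ∧ 2 ≤ Y.count a := by
    by_contra hcon
    push Not at hcon
    exact hnF (fun X Y h => by have := hcon X Y h; omega)
  have hYb : N ≤ Y₀.count b := by
    obtain ⟨σ, p, q, A, B, e2, h1, h2, h3, h4, e3⟩ := hO₀
    obtain ⟨x, y, e4⟩ := factor_gap hab (A := A) (F := Y₀) (B := B) (n := N) (m := N)
      (by rw [← hW, e3]) hc₀
    rw [e4, List.count_append, List.count_cons, List.count_append, List.count_replicate_self]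
    omega
  obtain ⟨s, hs, hsc⟩ : ∃ s : List ι × V × List V, (Occ P ω τ W s.1 s.2.1 s.2.2 ∧ s.1 = τ₁) ∧
      K ≤ s.2.2.count b := by
    obtain ⟨x, hx, hxY⟩ := hO₀.dl
    have hlen : x.length ≤ D := by
      obtain ⟨ys, h1, rfl⟩ := hx
      cases h1 with
      | cons ha hb =>
        cases hb
        simpa using hD _ _ _ ha
    have hne : x ≠ [] := by
      rintro rfl
      rw [hxY.nil_inv] at hc₀
      simp at hc₀
    obtain ⟨p, Z, q, A, YZ, B, e2, h1, h2, h3, e3, h4⟩ := heavy b x Y₀ hxY hne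
    refine ⟨(τ₁, Z, YZ), ⟨?_, rfl⟩, ?_⟩
    · exact Occ.desc (s := (i₁ :: τ₁, X₀, Y₀)) (t := (τ₁, Z, YZ)) hO₀
        ⟨[i₁], p, q, A, B, rfl, ⟨x, hx, e2⟩, h1, h3, h2, e3⟩
    · by_contra hlt
      have h5 : x.length * YZ.count b ≤ D * K := Nat.mul_le_mul hlen (by simp at hlt; omega)
      omega
  obtain ⟨t, t', hst, htt', hX, hAl, hPa, hPb, hlt, h2'⟩ := hK ω τ W s hs.1 hsc
  have ht : Occ P ω τ W t.1 t.2.1 t.2.2 := by
    rcases hst with rfl | hst
    · exact hs.1
    · exact Occ.desc hs.1 hst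
  have hFt : Fp t.1 := by
    rcases hst with rfl | hst
    · rw [hs.2]; exact hF
    · obtain ⟨σ, _, _, _, _, e2, _⟩ := hst
      exact hFsub σ t.1 (by rw [← hs.2, e2])
  have hFt' : Fp t'.1 := by
    have h0 : ∃ σ, τ₁ = σ ++ t.1 := by
      rcases hst with rfl | hst
      · exact ⟨[], by rw [hs.2]; rfl⟩
      · obtain ⟨σ, _, _, _, _, e2, _⟩ := hst
        exact ⟨σ, by rw [← hs.2, e2]⟩
    obtain ⟨σ, h0⟩ := h0
    obtain ⟨σ', _, _, _, _, e3, _⟩ := htt'
    exact hFsub (σ ++ σ') t'.1 (by rw [h0, e3, List.append_assoc])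
  obtain ⟨σ, φ, ψ, p1, q1, e3, d1, d2, d3, d4, d5, d6, d7⟩ :=
    pump_data ht htt' hX hAl hPb hlt h2'
  set S := Al P ω τ W t'.1 with hS
  obtain ⟨σ0, p0, q0, A0, B0, e4, g1, g2, g3, g4, e5⟩ := ht
  -- the common value of the number of letters `a`
  let g : V → ℕ := fun X => if X ∈ Ps P ω τ W a t'.1 then 1 else 0
  have hgen : ∀ τ', Fp τ' → Ps P ω τ W a τ' = Ps P ω τ W a t'.1 →
      ∀ X Y, Occ P ω τ W τ' X Y → Y.count a = g X := by
    intro τ' hτ' hP X Y h
    by_cases hXP : X ∈ Ps P ω τ W a t'.1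
    · have h1 : X ∈ Ps P ω τ W a τ' := by rw [hP]; exact hXP
      obtain ⟨Y', h2, h3⟩ := h1
      have h4 := huniq τ' hτ' X Y Y' h h2
      have h5 := hτ' X Y' h2
      have h6 : 1 ≤ Y'.count a := List.one_le_count_iff.2 h3
      simp only [g, hXP, if_true]
      omega
    · have h1 : Y.count a = 0 := by
        by_contra h0
        apply hXP
        rw [← hP]
        exact ⟨Y, h, List.one_le_count_iff.1 (by omega)⟩
      simp only [g, hXP, if_false]
      exact h1
  have hg' := hgen t'.1 hFt' rfl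
  have hg := hgen t.1 hFt hPa
  -- the sum is preserved by `φ`
  have hφ : ∀ Z ∈ S, ((φ Z).map g).sum = g Z := by
    intro Z hZ
    obtain ⟨_, _, Y, hO, hY⟩ := d1 Z hZ
    have h1 : Y.count a = g Z := hg Z Y hO
    have h2 : Ctx P ω τ W t'.1 (φ Z) Y := by
      have hdl := (d1 Z hZ).1
      obtain ⟨σ2, p2, q2, A2, B2, e6, k1, k2, k3, k4, e7⟩ := hO
      rw [e3] at k2 k3
      obtain ⟨p3, l1, l2⟩ := k2.comp_inv
      obtain ⟨q3, l3, l4⟩ := k3.comp_inv
      refine ⟨σ2 ++ σ, p3, q3, A2, B2, by rw [e6, e3, List.append_assoc], ?_, l2, l4, hY, e7⟩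
      have := k1.comp (l1.append (DL.cons hdl l3))
      simpa [List.append_assoc] using this
    rw [← h1]
    exact (Ctx.count g hg' _ _ h2).symm
  have hψ : ∀ Z ∈ S, (ψ Z).count a = g Z := fun Z hZ => hg' Z _ (d5 Z hZ)
  have hw : ∀ Y ∈ p0 ++ t.2.1 :: q0, Y ∈ S := by
    intro Y hY
    rw [← hAl]
    obtain ⟨x1, x2, he⟩ := List.append_of_mem hY
    have g5 : DL P t.1 (x1 ++ Y :: x2) W := by
      rw [← he, e5, List.append_assoc]
      exact g2.append (DL.cons g4 g3)
    obtain ⟨A1, YY, B1, e6, k1, k2, k3⟩ := g5.split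
    exact ⟨YY, σ0, x1, x2, A1, B1, e4, by rw [← he]; exact g1, k1, k3, k2, e6⟩
  have hSφ : ∀ Z ∈ S, ∀ Y ∈ φ Z, Y ∈ S := fun Z hZ => (d1 Z hZ).2.1
  have hsum : ∀ (r : ℕ) (w : List V), (∀ Z ∈ w, Z ∈ S) →
      ((itr φ r w).map g).sum = (w.map g).sum := by
    intro r
    induction r with
    | zero => intro w _; rfl
    | succ r ih =>
      intro w hw
      have h3 : ∀ Z ∈ w.flatMap φ, Z ∈ S := by
        intro Z hZ
        obtain ⟨Y, hY, hZY⟩ := List.mem_flatMap.1 hZ
        exact hSφ Y (hw Y hY) Z hZY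
      change ((itr φ r (w.flatMap φ)).map g).sum = _
      rw [ih _ h3]
      clear h3
      induction w with
      | nil => rfl
      | cons Z w ihw =>
        rw [List.flatMap_cons, List.map_append, List.sum_append, hφ Z (hw Z List.mem_cons_self),
          ihw (fun Y hY => hw Y (List.mem_cons_of_mem _ hY))]
        simp
  have hcnt_flat : ∀ w : List V, (∀ Z ∈ w, Z ∈ S) →
      (w.flatMap ψ).count a = (w.map g).sum := by
    intro w
    induction w with
    | nil => intro _; rfl
    | cons Z w ih =>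
      intro hw
      rw [List.flatMap_cons, List.count_append, hψ Z (hw Z List.mem_cons_self),
        ih (fun Y hY => hw Y (List.mem_cons_of_mem _ hY))]
      simp
  have hw0 : ((p0 ++ t.2.1 :: q0).map g).sum = N := by
    rw [← hcW]
    symm
    apply Ctx.count g hg
    refine ⟨σ0, [], [], [], [], e4, by simpa using g1, DL.nil _, DL.nil _, ?_, by simp⟩
    rw [e5, List.append_assoc]
    exact g2.append (DL.cons g4 g3)
  set r := N * N + 1 with hr
  obtain ⟨i1, i2⟩ := itr_dl (P := P) (σ := σ) (φ := φ) (S := S)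
    (fun Z hZ => (d1 Z hZ).1) hSφ r _ hw
  have hfin : DL P t'.1 (itr φ r (p0 ++ t.2.1 :: q0)) ((itr φ r (p0 ++ t.2.1 :: q0)).flatMap ψ) :=
    DL.flatMap (fun Z hZ => (d5 Z (i2 Z hZ)).dl)
  have hall := (g1.comp i1).comp hfin
  set W' := (itr φ r (p0 ++ t.2.1 :: q0)).flatMap ψ with hW'
  have hW't : ∀ x ∈ W', x = a ∨ x = b := by
    intro x hx
    obtain ⟨Z, hZ, hxZ⟩ := List.mem_flatMap.1 hx
    exact occ_terminal hWt (d5 Z (i2 Z hZ)) x hxZ
  obtain ⟨n', m', e6, hnm⟩ := hL _ _ hall hW't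
  have hcnt := itr_count (S := Ps P ω τ W b t'.1) (X := t'.2.1) d2 d3 d4 r
  have hm : m' = N := by
    have h1 : W'.count a = N := by
      rw [hW', hcnt_flat _ i2, hsum r _ hw, hw0]
    rw [e6, count_blk hab] at h1
    exact h1
  have hge : r ≤ W'.count b := by
    have k1 := count_flatMap_ge (S := Ps P ω τ W b t'.1) (c := b) d6
      (itr φ r (p0 ++ t.2.1 :: q0))
    have k2 : (itr φ r [t'.2.1]).countP (· ∈ Ps P ω τ W b t'.1) ≤
        (itr φ r (p0 ++ t.2.1 :: q0)).countP (· ∈ Ps P ω τ W b t'.1) := by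
      rw [itr_split, hX, List.countP_append, List.countP_append]
      omega
    have k3 := hcnt.2
    rw [hW']
    omega
  rw [e6, count_blk' hab, hm] at hge
  have : N * n' ≤ N * N := Nat.mul_le_mul_left _ (by omega)
  omega

end Pool.Agent.Q314.ET
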